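import Pool.Agent.H98.TIEN.Rel
import Pool.Agent.H12.P5.LfI
import Pool.Agent.H14.TIEN.LinC

/-!
# Own frames of every degree: the frames of a cell
-/

set_option autoImplicit false

namespace Pool.TN98

open Finset Real MvPolynomial
open Pool.Agent.H49.Ent Pool.Agent.H32.Dense Pool.STK Pool.STAT Pool.MIC.Frm Pool.MIC7 Pool.FRM
open Pool.P4O (Sy Cls Lv pw pw1 lev_le exp_pow)
open Pool.P4 (FrP PthC pp GoodS)
open Pool.P5L (OwF near_cls c_up)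

/-- The arithmetic of a place, both sides. -/
structure PlO (n : ℕ) (gam : ℕ → ℝ) (y r M i j : ℕ) : Prop where
  y1 : 1 ≤ y
  yr : y ≤ r
  yi : y ≤ i
  i2 : i < M
  j1 : r ≤ j
  j2 : j + r < M
  gap : ∀ k l m : ℕ, 1 ≤ k → k ≤ n → 1 ≤ l → l ≤ n → gam l < gam k + m →
    gam l * r + y ≤ (gam k + m) * r
  gap' : ∀ k l m : ℕ, 1 ≤ k → k ≤ n → 1 ≤ l → l ≤ n → gam k + m < gam l →
    (gam k + m) * r + y ≤ gam l * r

theorem cls_atT {n : ℕ} {g : ℕ → ℕ} {S T : ℝ} {A B : ℕ → PN}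
    (h : ∀ t : ℝ, 2 ^ g 0 * |t - T| ≤ 1 → Cls n g S (fz t A) (fz t B)) :
    Cls n g S (atT T A) (atT T B) := by
  intro l hl1 hln b hb
  have h0 := hb 0 (by omega)
  have h1 : nat g (atT T A) b 0 = 2 ^ g 0 * (b 0 - T) := by
    unfold nat atT
    rw [Function.update_self, eval_C]
  rw [h1, abs_mul, abs_of_pos (show (0 : ℝ) < 2 ^ g 0 by positivity)] at h0
  have h2 := h (b 0) h0 l hl1 hln b fun k hk => by
    rcases Nat.eq_zero_or_pos k with h3 | h3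
    · rw [h3]
      unfold nat
      rw [fz_zero, eval_C, sub_self, mul_zero, abs_zero]
      exact zero_le_one
    · have h4 := hb k hk
      rw [nat_atT _ _ _ _ h3] at h4
      unfold nat at h4 ⊢
      rwa [eval_fz' A rfl h3]
  rw [eval_fz' A rfl hl1, eval_fz' B rfl hl1] at h2
  rwa [atT_pos hl1, atT_pos hl1]

/-- **Two frames near a label.** -/
theorem cl_near (n K K' : ℕ) (C : ℝ) : ∃ (a : ℕ) (c₀ : ℝ), ∀ (z : ℕ) (g : ℕ → ℕ) (T : ℝ)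
    (Φ P Q : ℕ → PN), c₀ ≤ exp (z : ℝ) → TriN Φ → TriN P → TriN Q →
    (∀ l, (Φ l).totalDegree ≤ K) → (∀ l, (P l).totalDegree ≤ K') →
    (∀ l, (Q l).totalDegree ≤ K') →
    (∀ l ≤ n, nrm g (1 / 2) (chr P (Φ l - P l)) ≤ exp (C * z) / 2 ^ g l) →
    (∀ l ≤ n, nrm g (1 / 2) (chr Q (Φ l - Q l)) ≤ exp (C * z) / 2 ^ g l) →
    (∀ b, eval b (Q 0) = T) → Cls n g (exp z ^ a) (atT T P) (atT T Q) := by
  obtain ⟨KK, hKK⟩ : ∃ KK : ℕ, KK = max K K' := ⟨_, rfl⟩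
  have hK1 : K ≤ KK := by rw [hKK]; exact le_max_left _ _
  have hK2 : K' ≤ KK := by rw [hKK]; exact le_max_right _ _
  obtain ⟨c, hc⟩ := exists_nat_ge C
  obtain ⟨a₁, c₁, h1⟩ := near_cls n KK c
  refine ⟨a₁, c₁, ?_⟩
  intro z g T Φ P Q hc₀ tΦ tP tQ dΦ dP dQ nP nQ hT
  have hE : 1 ≤ exp (z : ℝ) := Real.one_le_exp (Nat.cast_nonneg z)
  have hCz : exp (C * z) ≤ exp z ^ c := exp_pow z hc
  refine cls_atT fun t ht => ?_
  refine (h1 (exp z) g Φ P Q hE hc₀ tΦ tP tQ (fun l => (dΦ l).trans hK1)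
    (fun l => (dP l).trans hK2) (fun l => (dQ l).trans hK2)
    (fun l hl => (nP l hl).trans (div_le_div_of_nonneg_right hCz (by positivity)))
    (fun l hl => (nQ l hl).trans (div_le_div_of_nonneg_right hCz (by positivity)))).2 t
    fun b => ?_
  rw [hT]
  exact ht.trans (pw1 hE c)

/-- **The closed frame and the own frame.** -/
theorem cl_pv (n K K' : ℕ) (C : ℝ) : ∃ (a : ℕ) (c₀ : ℝ),
    ∀ (lam gam : ℕ → ℝ) (C₁ : ℝ) (J a₀ w₀ z M i j r : ℕ) (D : NDat2) (q : D.Ω → ℝ) (κ : ℝ)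
      (P V : ℕ → PN) (ω : D.Ω), c₀ ≤ exp (z : ℝ) → i < M → j < M →
      D.Ok2 n K J a₀ w₀ z M lam gam κ C₁ q → OwF D n K' M z C ω V →
      FrP D n K' z i j r C P ω → ∀ i' ≤ i,
      Cls n (D.g i' j) (exp z ^ a) (atT (D.X ω 0) P) (atT (D.X ω 0) V) ∧
      Cls n (D.g (i' - 1) (j - r)) (exp z ^ a) (atT (D.X ω 0) P) (atT (D.X ω 0) V) := by
  obtain ⟨a₁, c₁, h1⟩ := cl_near n K K' C
  refine ⟨a₁, c₁, ?_⟩
  intro lam gam C₁ J a₀ w₀ z M i j r D q κ P V ω hc₀ hi hj hO hV hP i' hi'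
  constructor
  · exact h1 z (D.g i' j) (D.X ω 0) (D.Φ i' j ω) P V hc₀ (hO.P_tri _ _ _) hP.tri hV.tri
      (fun l => hO.P_deg _ _ _ l) hP.deg hV.deg (fun l hl => (hP.near i' hi' l hl).1)
      (fun l hl => hV.near i' (by omega) j hj l hl) hV.zero
  · exact h1 z (D.g (i' - 1) (j - r)) (D.X ω 0) (D.Φ (i' - 1) (j - r) ω) P V hc₀
      (hO.P_tri _ _ _) hP.tri hV.tri (fun l => hO.P_deg _ _ _ l) hP.deg hV.deg
      (fun l hl => (hP.near i' hi' l hl).2)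
      (fun l hl => hV.near (i' - 1) (by omega) (j - r) (by omega) l hl) hV.zero

/-- **Two own frames over a common label.** -/
theorem cl_vv (n K K' : ℕ) (C : ℝ) : ∃ (a : ℕ) (c₀ : ℝ),
    ∀ (lam gam : ℕ → ℝ) (C₁ : ℝ) (J a₀ w₀ z M i' j' : ℕ) (D : NDat2) (q : D.Ω → ℝ) (κ : ℝ)
      (V V' : ℕ → PN) (ω ω' : D.Ω), c₀ ≤ exp (z : ℝ) → i' < M → j' < M →
      D.Ok2 n K J a₀ w₀ z M lam gam κ C₁ q → OwF D n K' M z C ω V → OwF D n K' M z C ω' V' →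
      D.T ω = D.T ω' → D.c i' j' ω = D.c i' j' ω' →
      Cls n (D.g i' j') (exp z ^ a) (atT (D.X ω 0) V) (atT (D.X ω 0) V') := by
  obtain ⟨a₁, c₁, h1⟩ := cl_near n K K' C
  refine ⟨a₁, c₁, ?_⟩
  intro lam gam C₁ J a₀ w₀ z M i' j' D q κ V V' ω ω' hc₀ hi hj hO hV hV' hT hcc
  have hX : D.X ω' 0 = D.X ω 0 := by rw [hO.X_zero, hO.X_zero, hT]
  have hΦ : D.Φ i' j' ω' = D.Φ i' j' ω := by
    unfold NDat2.Φ
    rw [hcc]
  refine h1 z (D.g i' j') (D.X ω 0) (D.Φ i' j' ω) V V' hc₀ (hO.P_tri _ _ _) hV.tri hV'.tri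
    (fun l => hO.P_deg _ _ _ l) hV.deg hV'.deg (fun l hl => hV.near i' hi j' hj l hl)
    (fun l hl => ?_) (fun b => (hV'.zero b).trans hX)
  rw [← hΦ]
  exact hV'.near i' hi j' hj l hl

/-! ### Levels -/

/-- The quotient of two levels. -/
theorem lvr {D : NDat2} {n K J a₀ w₀ z M : ℕ} {lam gam : ℕ → ℝ} {κ C₁ : ℝ} {q : D.Ω → ℝ}
    (hO : D.Ok2 n K J a₀ w₀ z M lam gam κ C₁ q) (hC₁ : 0 ≤ C₁) {c : ℕ} (hc : 4 * C₁ ≤ c)
    (hlam : ∀ l, 1 ≤ l → l ≤ n → lam l = 1) {i₁ j₁ i₂ j₂ : ℕ} (hi₁ : i₁ ≤ M) (hj₁ : j₁ ≤ M)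
    (hi₂ : i₂ ≤ M) (hj₂ : j₂ ≤ M) {l : ℕ} (l1 : 1 ≤ l) (ln : l ≤ n) :
    (2 : ℝ) ^ D.g i₁ j₁ l / 2 ^ D.g i₂ j₂ l ≤
      exp z ^ c * (2 : ℝ) ^ ((((i₁ : ℝ) - i₂) + gam l * ((j₁ : ℝ) - j₂)) * z) := by
  have hz : (0 : ℝ) ≤ z := Nat.cast_nonneg z
  have e1 := (abs_le.1 (Pool.P4L.lv_ok hO hlam hi₁ hj₁ hi₂ hj₂ l1 ln)).2
  have e2 : exp (2 * C₁ * z) ≤ exp (z : ℝ) ^ c := by
    refine (Real.exp_le_exp.2 ?_).trans (exp_pow z hc)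
    nlinarith [mul_nonneg hC₁ hz]
  have e3 : (2 : ℝ) ^ (2 * C₁ * z) ≤ exp (2 * C₁ * z) := by
    rw [Real.rpow_def_of_pos (by norm_num)]
    refine Real.exp_le_exp.2 ?_
    have h2 : Real.log 2 ≤ 1 := by
      have := Real.log_two_lt_d9
      linarith
    have : 0 ≤ 2 * C₁ * z := by positivity
    nlinarith
  rw [div_le_iff₀ (by positivity)]
  have e4 : (2 : ℝ) ^ D.g i₁ j₁ l ≤ (2 : ℝ) ^ (2 * C₁ * z) *
      (2 : ℝ) ^ ((((i₁ : ℝ) - i₂) + gam l * ((j₁ : ℝ) - j₂)) * z) * 2 ^ D.g i₂ j₂ l := by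
    rw [← Real.rpow_natCast, ← Real.rpow_natCast, ← Real.rpow_add (by norm_num),
      ← Real.rpow_add (by norm_num)]
    refine Real.rpow_le_rpow_of_exponent_le (by norm_num) ?_
    linarith
  refine e4.trans (mul_le_mul_of_nonneg_right (mul_le_mul_of_nonneg_right (e3.trans e2)
    (by positivity)) (by positivity))

/-- The quotient of two levels of the time. -/
theorem lvr0 {D : NDat2} {n K J a₀ w₀ z M : ℕ} {lam gam : ℕ → ℝ} {κ C₁ : ℝ} {q : D.Ω → ℝ}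
    (hO : D.Ok2 n K J a₀ w₀ z M lam gam κ C₁ q) (i₁ j₁ i₂ j₂ m : ℕ) :
    (2 : ℝ) ^ (m * D.g i₁ j₁ 0) / 2 ^ (m * D.g i₂ j₂ 0) =
      (2 : ℝ) ^ (m * ((j₁ : ℝ) - j₂) * z) := by
  rw [hO.g_zero, hO.g_zero, ← Real.rpow_natCast, ← Real.rpow_natCast,
    ← Real.rpow_sub (by norm_num)]
  congr 1
  push_cast
  ring

end Pool.TN98
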