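import Pool.Agent.H98.TIEN.Exa

/-!
# Own frames of every degree: degrees and bounds
-/

set_option autoImplicit false

namespace Pool.TN98

open Finset Real MvPolynomial
open Pool.Agent.H49.Ent Pool.Agent.H32.Dense Pool.STK Pool.STAT Pool.MIC.Frm Pool.MIC7 Pool.FRM
open Pool.P4O (Sy Cls Lv pw pw1 lev_le exp_pow cls_coef sy_fz)
open Pool.P4 (FrP PthC pp GoodS)
open Pool.P5L (OwF near_cls c_up lv_zero vf_cell)
open Pool.TNL (zp zp_eval zp_deg)

/-- The degrees of the own frame. -/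
theorem sg_lt (gam : ℕ → ℝ) (a : ℕ → ℕ → Polynomial ℝ) (l k x : ℕ)
    (h : (sg gam a l k).coeff x ≠ 0) : gam k + x < gam l := by
  induction l using Nat.strong_induction_on generalizing x with
  | _ l ih =>
    by_contra hc
    apply h
    rw [sg_eq, Polynomial.coeff_add, Polynomial.finsetSum_coeff]
    have h1 : (lo gam a l k).coeff x = 0 := by
      unfold lo
      rw [coeff_flt, if_neg hc]
    rw [h1, zero_add]
    refine Finset.sum_eq_zero fun m hm => ?_
    rw [Polynomial.coeff_mul]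
    refine Finset.sum_eq_zero fun p hp => ?_
    by_cases h2 : (sg gam a m k).coeff p.2 = 0
    · rw [h2, mul_zero]
    · have h3 := ih m (Finset.mem_Ioo.1 hm).2 p.2 h2
      have h4 : (tp gam a l m).coeff p.1 = 0 := by
        unfold tp
        rw [coeff_flt, if_neg]
        intro h5
        apply hc
        have h6 : p.1 + p.2 = x := Finset.HasAntidiagonal.mem_antidiagonal.1 hp
        have h7 : ((p.1 : ℕ) : ℝ) + p.2 = x := by exact_mod_cast h6
        linarith
      rw [h4, zero_mul]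

theorem sg_zero (gam : ℕ → ℝ) (a : ℕ → ℕ → Polynomial ℝ) {l k : ℕ}
    (h : ∀ m : ℕ, gam l ≤ gam k + m) : sg gam a l k = 0 := by
  ext x
  by_contra h1
  rw [Polynomial.coeff_zero] at h1
  exact absurd (sg_lt gam a l k x h1) (not_lt.2 (h x))

/-- **Degrees of the heights over the own frame.** -/
theorem zh_long {gam : ℕ → ℝ} {W R : ℝ} (hW : 0 ≤ W) (hR : 1 ≤ R) {n l : ℕ} (hl : l ≤ n)
    (hl1 : 1 ≤ l) {a : ℕ → ℕ → Polynomial ℝ} {z : ℕ → Polynomial ℝ}
    (hs : ∀ k, 1 ≤ k → k < l → pn (sg gam a l k) ≤ W)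
    (hz : ∀ k, 1 ≤ k → k ≤ n → ∀ m : ℕ, |(z k).coeff m| ≤ W * R ^ (gam k - m)) (m : ℕ) :
    |(zh gam a z l).coeff m| ≤ (W + n * (W * W)) * R ^ (gam l - m) := by
  unfold zh
  rw [Polynomial.coeff_sub, Polynomial.finsetSum_coeff]
  have hR0 : 0 < R := by linarith
  have h1 : |∑ k ∈ Ico 1 l, (sg gam a l k * z k).coeff m| ≤ n * (W * W * R ^ (gam l - m)) := by
    refine (Finset.abs_sum_le_sum_abs _ _).trans ?_
    have h2 : ∀ k ∈ Ico 1 l, |(sg gam a l k * z k).coeff m| ≤ W * W * R ^ (gam l - m) := by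
      intro k hk
      obtain ⟨hk1, hk2⟩ := Finset.mem_Ico.1 hk
      rw [Polynomial.coeff_mul]
      have h3 : ∀ p ∈ antidiagonal m, |(sg gam a l k).coeff p.1 * (z k).coeff p.2| ≤
          |(sg gam a l k).coeff p.1| * (W * R ^ (gam l - m)) := by
        intro p hp
        rw [abs_mul]
        by_cases h4 : (sg gam a l k).coeff p.1 = 0
        · rw [h4, abs_zero, zero_mul, zero_mul]
        · refine mul_le_mul_of_nonneg_left ?_ (abs_nonneg _)
          refine (hz k hk1 (by omega) p.2).trans (mul_le_mul_of_nonneg_left ?_ hW)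
          refine Real.rpow_le_rpow_of_exponent_le hR ?_
          have h5 := sg_lt gam a l k p.1 h4
          have h6 : p.1 + p.2 = m := Finset.HasAntidiagonal.mem_antidiagonal.1 hp
          have h7 : ((p.1 : ℕ) : ℝ) + p.2 = m := by exact_mod_cast h6
          linarith
      refine (Finset.abs_sum_le_sum_abs _ _).trans ((Finset.sum_le_sum h3).trans ?_)
      rw [← Finset.sum_mul, Finset.Nat.sum_antidiagonal_eq_sum_range_succ
        (fun x _ => |(sg gam a l k).coeff x|)]
      have h8 : ∑ x ∈ range m.succ, |(sg gam a l k).coeff x| ≤ pn (sg gam a l k) := by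
        classical
        rw [pn_eq (s := (sg gam a l k).support ∪ range m.succ) Finset.subset_union_left]
        exact Finset.sum_le_sum_of_subset_of_nonneg Finset.subset_union_right
          fun _ _ _ => abs_nonneg _
      calc (∑ x ∈ range m.succ, |(sg gam a l k).coeff x|) * (W * R ^ (gam l - m))
          ≤ W * (W * R ^ (gam l - m)) :=
            mul_le_mul_of_nonneg_right (h8.trans (hs k hk1 hk2)) (by positivity)
        _ = _ := by ring
    refine (Finset.sum_le_sum h2).trans ?_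
    rw [Finset.sum_const, nsmul_eq_mul]
    refine mul_le_mul_of_nonneg_right ?_ (by positivity)
    exact_mod_cast card_Ico_le hl
  have h9 := hz l hl1 hl m
  refine (abs_sub _ _).trans ((add_le_add h9 h1).trans (le_of_eq ?_))
  ring

/-- **The path over a frame, long window.** -/
theorem zp_long (n K K' : ℕ) (C₁ C : ℝ) (hC₁ : 1 ≤ C₁) : ∃ (a : ℕ) (c₀ : ℝ),
    ∀ (lam gam : ℕ → ℝ) (J a₀ w₀ z M i j r : ℕ) (D : NDat2) (q : D.Ω → ℝ) (κ : ℝ)
      (P : ℕ → PN) (ω : D.Ω), (∀ l, 1 ≤ l → l ≤ n → lam l = 1) → c₀ ≤ exp (z : ℝ) → 1 ≤ i →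
      i < M → r ≤ j → j < M → D.Ok2 n K J a₀ w₀ z M lam gam κ C₁ q →
      FrP D n K' z i j r C P ω → PthC D n w₀ z M 1 ω → ∀ l, 1 ≤ l → l ≤ n → ∀ m : ℕ,
      |(zp D i j P ω l).coeff m| ≤ exp z ^ a * ((2 : ℝ) ^ (r * z)) ^ (gam l - m) := by
  obtain ⟨a₁, c₁, h1⟩ := nat_bd n K K' C
  obtain ⟨C₂, hC₂, h2⟩ := coef_short ((K' + 1) * (K + 1))
  obtain ⟨c, hc⟩ := exists_nat_ge (4 * C₁)
  refine ⟨a₁ + c + 2, max c₁ C₂, ?_⟩
  intro lam gam J a₀ w₀ z M i j r D q κ P ω hlam hc₀ i1 hi hr hj hO hP hω l hl1 hln m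
  obtain ⟨hc1, hc2⟩ := max_le_iff.1 hc₀
  have hC0 : 0 ≤ C₁ := by linarith
  have l1 := lvr (i₁ := i) (j₁ := j) (i₂ := i - 1) (j₂ := j - r) hO hC0 hc hlam (by omega)
    (by omega) (by omega) (by omega) hl1 hln
  have h4 : ((i - 1 : ℕ) : ℝ) = i - 1 := by rw [Nat.cast_sub i1, Nat.cast_one]
  have h4' : ((j - r : ℕ) : ℝ) = j - r := by rw [Nat.cast_sub hr]
  have hz0 : (0 : ℝ) ≤ z := Nat.cast_nonneg z
  have hz2 : (2 : ℝ) ^ (z : ℝ) ≤ exp z := by
    rw [Real.rpow_def_of_pos (by norm_num)]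
    refine Real.exp_le_exp.2 ?_
    have h2 : Real.log 2 ≤ 1 := by
      have := Real.log_two_lt_d9
      linarith
    nlinarith
  obtain ⟨R, hR⟩ : ∃ R : ℝ, R = (2 : ℝ) ^ (r * z) := ⟨_, rfl⟩
  have hR0 : 0 < R := by rw [hR]; positivity
  have hRr : R = (2 : ℝ) ^ ((r : ℝ) * z) := by
    rw [hR, ← Real.rpow_natCast]
    push_cast
    rfl
  have e1 : (2 : ℝ) ^ D.g i j l / 2 ^ D.g (i - 1) (j - r) l ≤ exp z ^ (c + 1) * R ^ gam l := by
    refine l1.trans ?_
    rw [h4, h4', pow_succ, mul_assoc]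
    refine mul_le_mul_of_nonneg_left ?_ (by positivity)
    rw [hRr, ← Real.rpow_mul (by norm_num)]
    have e2 : (((i : ℝ) - (i - 1)) + gam l * ((j : ℝ) - (j - r))) * z =
        z + (r : ℝ) * z * gam l := by ring
    rw [e2, Real.rpow_add (by norm_num)]
    exact mul_le_mul_of_nonneg_right hz2 (by positivity)
  have e3 : 1 / R⁻¹ = R := by rw [one_div, inv_inv]
  have h3 := h2 (zp D i j P ω l) R⁻¹ (exp z ^ (c + 1) * R ^ gam l * exp z ^ a₁) (by positivity)
    (zp_deg hO.pa_deg hP.deg) (fun t ht0 ht1 => by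
      rw [zp_ev]
      rw [e3] at ht1
      have h5 := h1 lam gam C₁ J a₀ w₀ z M (i - 1) (j - r) D q κ P ω hc1 (by omega) (by omega) hO
        hP.tri hP.deg hω (fun l hl => (hP.near i le_rfl l hl).2)
        (D.X ω 0 + t / 2 ^ D.g i j 0) (by
          rw [add_sub_cancel_left, hO.g_zero, abs_of_nonneg (by positivity)]
          have e4 : (1 : ℝ) / 2 ^ (w₀ + (j - r) * z) = R / 2 ^ (w₀ + j * z) := by
            have e5 : w₀ + j * z = r * z + (w₀ + (j - r) * z) := by
              have : j * z = (j - r) * z + r * z := by rw [← add_mul, Nat.sub_add_cancel hr]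
              omega
            rw [div_eq_div_iff (by positivity) (by positivity), one_mul, hR, ← pow_add, e5]
          rw [e4]
          exact div_le_div_of_nonneg_right ht1 (by positivity)) l hln
      unfold nat at h5 ⊢
      rw [abs_mul, abs_of_pos (by positivity)] at h5 ⊢
      calc 2 ^ D.g i j l * _ = 2 ^ D.g i j l / 2 ^ D.g (i - 1) (j - r) l *
            (2 ^ D.g (i - 1) (j - r) l *
              |pp D (D.ln ω) (D.X ω 0 + t / 2 ^ D.g i j 0) l -
                eval (pp D (D.ln ω) (D.X ω 0 + t / 2 ^ D.g i j 0)) (P l)|) := by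
            rw [← mul_assoc, div_mul_cancel₀ _ (by positivity)]
        _ ≤ exp z ^ (c + 1) * R ^ gam l * exp z ^ a₁ :=
            mul_le_mul e1 h5 (by positivity) (by positivity)) m
  rw [← hR]
  refine h3.trans ?_
  have e6 : R ^ (gam l - m) = R ^ gam l * (R⁻¹) ^ m := by
    rw [Real.rpow_sub hR0, Real.rpow_natCast, inv_pow]
    rfl
  rw [e6]
  calc C₂ * (exp (z : ℝ) ^ (c + 1) * R ^ gam l * exp z ^ a₁) * R⁻¹ ^ m
      ≤ exp (z : ℝ) * (exp (z : ℝ) ^ (c + 1) * R ^ gam l * exp z ^ a₁) * R⁻¹ ^ m :=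
        mul_le_mul_of_nonneg_right (mul_le_mul_of_nonneg_right hc2 (by positivity))
          (by positivity)
    _ = _ := by
        have : exp (z : ℝ) ^ (a₁ + c + 2) = exp z * exp (z : ℝ) ^ (c + 1) * exp z ^ a₁ := by
          rw [← pow_succ', ← pow_add]
          congr 1
          omega
        rw [this]
        ring

end Pool.TN98
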