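import Pool.Agent.H98.TIEN.Frz

/-!
# Own frames of every degree: two lines with the same label at the point
-/

set_option autoImplicit false

namespace Pool.TN98

open Finset Real MvPolynomial
open Pool.Agent.H49.Ent Pool.Agent.H32.Dense Pool.STK Pool.STAT Pool.MIC.Frm Pool.MIC7 Pool.FRM
open Pool.P4O (Sy Cls Lv pw pw1 lev_le exp_pow cls_coef sy_fz)
open Pool.P4 (FrP PthC pp GoodS)
open Pool.P5L (OwF near_cls c_up lv_zero vf_cell)
open Pool.TNL (zp zp_eval zp_deg)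

/-! ### Constants -/

/-- The constant part. -/
noncomputable def c0 : Polynomial ℝ →+* Polynomial ℝ :=
  (Polynomial.C).comp Polynomial.constantCoeff

theorem c0_apply (p : Polynomial ℝ) : c0 p = Polynomial.C (p.coeff 0) := by
  unfold c0
  rw [RingHom.comp_apply, Polynomial.constantCoeff_apply]

theorem pn_C (x : ℝ) : pn (Polynomial.C x) = |x| := by
  rw [← Polynomial.monomial_zero_left]
  exact pn_monomial 0 x

theorem pn_c0 (p : Polynomial ℝ) : pn (c0 p) ≤ pn p := by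
  rw [c0_apply, pn_C]
  exact coeff_le_pn p 0

open Classical in
theorem flt_C (Q : ℕ → Prop) (x : ℝ) :
    flt Q (Polynomial.C x) = if Q 0 then Polynomial.C x else 0 := by
  ext i
  rw [coeff_flt]
  by_cases h : i = 0
  · rw [h]
    by_cases h1 : Q 0
    · rw [if_pos h1, if_pos h1]
    · rw [if_neg h1, if_neg h1, Polynomial.coeff_zero]
  · have e : (Polynomial.C x).coeff i = 0 := by rw [Polynomial.coeff_C, if_neg h]
    rw [e, ite_self]
    by_cases h1 : Q 0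
    · rw [if_pos h1, e]
    · rw [if_neg h1, Polynomial.coeff_zero]

theorem flt_c0 (Q : ℕ → Prop) (p : Polynomial ℝ) : flt Q (c0 p) = c0 (flt Q p) := by
  classical
  rw [c0_apply, c0_apply, flt_C, coeff_flt]
  split_ifs
  · rfl
  · rw [Polynomial.C_0]

/-- The constant parts of the rows. -/
noncomputable def cz (a : ℕ → ℕ → Polynomial ℝ) : ℕ → ℕ → Polynomial ℝ := fun l k => c0 (a l k)

theorem lo_cz (gam : ℕ → ℝ) (a : ℕ → ℕ → Polynomial ℝ) (l k : ℕ) :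
    lo gam (cz a) l k = c0 (lo gam a l k) := flt_c0 _ _

theorem tp_cz (gam : ℕ → ℝ) (a : ℕ → ℕ → Polynomial ℝ) (l k : ℕ) :
    tp gam (cz a) l k = c0 (tp gam a l k) := flt_c0 _ _

theorem sg_cz (gam : ℕ → ℝ) (a : ℕ → ℕ → Polynomial ℝ) (l k : ℕ) :
    sg gam (cz a) l k = c0 (sg gam a l k) := by
  induction l using Nat.strong_induction_on with
  | _ l ih =>
    rw [sg_eq, sg_eq, map_add, map_sum, lo_cz]
    congr 1
    refine Finset.sum_congr rfl fun m hm => ?_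
    rw [map_mul, tp_cz, ih m (Finset.mem_Ioo.1 hm).2]

theorem zh_cz (gam : ℕ → ℝ) (a : ℕ → ℕ → Polynomial ℝ) (z : ℕ → Polynomial ℝ) (l : ℕ) :
    zh gam (cz a) (fun k => c0 (z k)) l = c0 (zh gam a z l) := by
  unfold zh
  rw [map_sub, map_sum]
  congr 1
  refine Finset.sum_congr rfl fun k _ => ?_
  rw [sg_cz, map_mul]

theorem yl_cz (gam : ℕ → ℝ) (a : ℕ → ℕ → Polynomial ℝ) (z : ℕ → Polynomial ℝ) (l : ℕ) :
    yl gam (cz a) (fun k => c0 (z k)) l = c0 (yl gam a z l) := by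
  unfold yl
  rw [map_sub, map_sub, map_sum]
  congr 1
  refine Finset.sum_congr rfl fun k _ => ?_
  rw [map_mul, map_add, lo_cz, tp_cz]

/-! ### The rows of two lines -/

/-- The rows of two lines over the same base place, all but the top parts. -/
theorem two_pre (n K K' : ℕ) (C₁ C : ℝ) (hC₁ : 1 ≤ C₁) : ∃ (b : ℕ) (c₀ : ℝ), ∀ B, b ≤ B →
    ∀ (lam gam : ℕ → ℝ) (J a₀ w₀ z M i j y r : ℕ) (D : NDat2) (q : D.Ω → ℝ) (κ : ℝ)
      (P V V' : ℕ → PN) (ω ω' : D.Ω), (∀ l, 1 ≤ l → l ≤ n → lam l = 1) → c₀ ≤ exp (z : ℝ) →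
      PlO n gam y r M i j → D.Ok2 n K J a₀ w₀ z M lam gam κ C₁ q → 0 < q ω → 0 < q ω' →
      OwF D n K' M z C ω V → OwF D n K' M z C ω' V' → FrP D n K' z i j r C P ω →
      FrP D n K' z i j r C P ω' → D.T ω = D.T ω' → D.c i j ω = D.c i j ω' →
      (n : ℝ) + 4 ≤ exp z ^ B ∧
      (∀ l ≤ n, ∀ k < l, pn (arw n K' (D.g i j) (D.X ω 0) P V l k) ≤ exp z ^ B) ∧
      (∀ l ≤ n, ∀ k < l, pn (arw n K' (D.g i j) (D.X ω' 0) P V' l k) ≤ exp z ^ B) ∧
      (∀ l ≤ n, ∀ k < l, pn (arw n K' (D.g i j) (D.X ω 0) V V' l k) ≤ exp z ^ B) ∧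
      ∀ l ≤ n, ∀ k < l, pn (arw n K' (D.g i j) (D.X ω' 0) P V' l k -
        (arw n K' (D.g i j) (D.X ω 0) P V l k + arw n K' (D.g i j) (D.X ω 0) V V' l k -
        ∑ m ∈ Ioo k l, arw n K' (D.g i j) (D.X ω 0) V V' l m *
          arw n K' (D.g i j) (D.X ω 0) P V m k)) ≤ exp z ^ B / 2 ^ (y * z) := by
  obtain ⟨a₁, c₁, h1⟩ := cl_pv n K K' C
  obtain ⟨a₂, c₂, h2⟩ := cl_vv n K K' C
  obtain ⟨c4, hc4⟩ := exists_nat_ge (4 * C₁)
  obtain ⟨a₀', h0'⟩ : ∃ a₀' : ℕ, a₀' = a₁ + a₂ + c4 := ⟨_, rfl⟩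
  obtain ⟨a₃, c₃, h3⟩ := rwp_pn n K' a₀' (dN n K')
  obtain ⟨a₄, c₄, h4⟩ := rows_rel n K' a₀' (dN n K')
  refine ⟨a₃ + a₄ + 1, max (max (max c₁ c₂) (max c₃ c₄)) (n + 4), ?_⟩
  intro B hB lam gam J a₀ w₀ z M i j y r D q κ P V V' ω ω' hlam hc₀ hpl hO hω hω' hV hV' hP
    hP' hT hc1
  obtain ⟨hA, hkn⟩ := max_le_iff.1 hc₀
  obtain ⟨hA1, hA2⟩ := max_le_iff.1 hA
  obtain ⟨hk1, hk2⟩ := max_le_iff.1 hA1
  obtain ⟨hk3, hk4⟩ := max_le_iff.1 hA2
  have hE : 1 ≤ exp (z : ℝ) := Real.one_le_exp (Nat.cast_nonneg z)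
  have i1 := hpl.yi
  have y1 := hpl.y1
  have i2 := hpl.i2
  have j1 := hpl.j1
  have j2 := hpl.j2
  have pY : (0 : ℝ) < 2 ^ (y * z) := by positivity
  have hX : D.X ω' 0 = D.X ω 0 := by rw [hO.X_zero, hO.X_zero, hT]
  have cP := h1 lam gam C₁ J a₀ w₀ z M i j r D q κ P V ω hk1 i2 (by omega) hO hV hP
  have cP' := h1 lam gam C₁ J a₀ w₀ z M i j r D q κ P V' ω' hk1 i2 (by omega) hO hV' hP'
  rw [hX] at cP' ⊢
  have h0j : D.c 0 j ω = D.c 0 j ω' :=
    c_up hO (i := 0) (s := i) (by omega) (by omega) hω hω' (by rwa [Nat.zero_add])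
  have vv := fun i' j' hi' hj' => h2 lam gam C₁ J a₀ w₀ z M i' j' D q κ V V' ω ω' hk2 hi' hj' hO
    hV hV' hT
  obtain ⟨T, hT'⟩ : ∃ T : ℝ, T = D.X ω 0 := ⟨_, rfl⟩
  rw [← hT'] at cP cP' vv ⊢
  have sP : St K' T (atT T P) := st_atT hP.tri hP.deg T
  have sV : St K' T (atT T V) := st_atT hV.tri hV.deg T
  have sV' : St K' T (atT T V') := st_atT hV'.tri hV'.deg T
  have hL : Lv n (D.g i j) (D.g 0 j) (2 ^ (i * z)) (exp z ^ c4) :=
    lv_zero (by linarith) hc4 hlam hO (by omega) (by omega)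
  have m1 : exp (z : ℝ) ^ a₁ ≤ exp z ^ a₀' := pw hE (by omega)
  have m2 : exp (z : ℝ) ^ a₂ ≤ exp z ^ a₀' := pw hE (by omega)
  have pv := (cP i le_rfl).1.mono m1
  have pv0 := (cP 0 (Nat.zero_le _)).1.mono m1
  have pv' := (cP' i le_rfl).1.mono m1
  have pv0' := (cP' 0 (Nat.zero_le _)).1.mono m1
  have v1 := (vv i j i2 (by omega) hc1).mono m2
  have v2 := (vv 0 j (by omega) (by omega) h0j).mono m2
  have hyi : (2 : ℝ) ^ (y * z) ≤ 2 ^ (i * z) :=
    pow_le_pow_right₀ (by norm_num) (Nat.mul_le_mul_right z i1)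
  have hB3 : exp (z : ℝ) ^ a₃ ≤ exp z ^ B := pw hE (by omega)
  refine ⟨?_, fun l hl k hk => ?_, fun l hl k hk => ?_, fun l hl k hk => ?_, fun l hl k hk => ?_⟩
  · exact hkn.trans (le_self_pow₀ hE (by omega))
  · exact (h3 (exp z) T (D.g i j) _ _ hE hk3 sP sV pv l (by omega) hl k).trans hB3
  · exact (h3 (exp z) T (D.g i j) _ _ hE hk3 sP sV' pv' l (by omega) hl k).trans hB3
  · exact (h3 (exp z) T (D.g i j) _ _ hE hk3 sV sV' v1 l (by omega) hl k).trans hB3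
  · refine (h4 (exp z) T (2 ^ (i * z)) (D.g i j) (D.g 0 j) (atT T P) (atT T V) (atT T V') hE hk4
      (one_le_pow₀ (by norm_num)) sP sV sV' pv pv0 pv' pv0' v1 v2
      (hL.mono (by positivity) (pw hE (by omega))) (by rw [hO.g_zero, hO.g_zero]) le_rfl l hl k
      hk).trans ?_
    exact div_le_div₀ (by positivity) (pw hE (by omega)) pY hyi

/-- **Two own frames with a common label at the point.** -/
theorem cl_vs (n K K' : ℕ) (C : ℝ) : ∃ (a : ℕ) (c₀ : ℝ),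
    ∀ (lam gam : ℕ → ℝ) (C₁ : ℝ) (J a₀ w₀ z M i' j' : ℕ) (D : NDat2) (q : D.Ω → ℝ) (κ : ℝ)
      (V V' : ℕ → PN) (ω ω' : D.Ω), c₀ ≤ exp (z : ℝ) → i' < M → j' < M → 0 < q ω → 0 < q ω' →
      D.Ok2 n K J a₀ w₀ z M lam gam κ C₁ q → OwF D n K' M z C ω V → OwF D n K' M z C ω' V' →
      D.T ω = D.T ω' → D.s i' j' ω = D.s i' j' ω' →
      Cls n (D.g i' j') (exp z ^ a) (fz (D.X ω 0) V) (fz (D.X ω 0) V') := by
  obtain ⟨KK, hKK⟩ : ∃ KK : ℕ, KK = max K K' := ⟨_, rfl⟩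
  have hK1 : K ≤ KK := by rw [hKK]; exact le_max_left _ _
  have hK2 : K' ≤ KK := by rw [hKK]; exact le_max_right _ _
  obtain ⟨a₁, c₁, h1⟩ := vf_cell n K K' C
  obtain ⟨a₂, c₂, h2⟩ := Pool.P4O.cls_sym n KK a₁
  obtain ⟨a₃, c₃, h3⟩ := Pool.P4O.cls_trans n KK (a₁ + a₂)
  refine ⟨a₃, max c₁ (max c₂ c₃), ?_⟩
  intro lam gam C₁ J a₀ w₀ z M i' j' D q κ V V' ω ω' hc₀ hi hj hω hω' hO hV hV' hT hs
  obtain ⟨hc1, hc23⟩ := max_le_iff.1 hc₀
  obtain ⟨hc2, hc3⟩ := max_le_iff.1 hc23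
  have hE : 1 ≤ exp (z : ℝ) := Real.one_le_exp (Nat.cast_nonneg z)
  have hX : D.X ω' 0 = D.X ω 0 := by rw [hO.X_zero, hO.X_zero, hT]
  have hΨ : D.Ψ i' j' ω' = D.Ψ i' j' ω := by
    unfold NDat2.Ψ
    rw [hs]
  have e1 := h1 lam gam C₁ J a₀ w₀ z M i' j' D q κ V ω hc1 hi hj hω hO hV
  have e2 := h1 lam gam C₁ J a₀ w₀ z M i' j' D q κ V' ω' hc1 hi hj hω' hO hV'
  have e0 : fr D (i', j') ω' = fr D (i', j') ω := by
    unfold fr
    simp only
    rw [hΨ, hX]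
  rw [hX, e0] at e2
  have syV : Sy KK (D.X ω 0) (fz (D.X ω 0) V) := sy_fz hV.tri (fun l => (hV.deg l).trans hK2) _
  have syV' : Sy KK (D.X ω 0) (fz (D.X ω 0) V') :=
    sy_fz hV'.tri (fun l => (hV'.deg l).trans hK2) _
  have syR : Sy KK (D.X ω 0) (fr D (i', j') ω) :=
    sy_fz (hO.G_tri _ _ _) (fun l => (hO.G_deg _ _ _ l).trans hK1) _
  have e3 := h2 (exp z) (D.X ω 0) (D.g i' j') _ _ hE hc2 syV' syR e2
  exact h3 (exp z) (D.X ω 0) (D.g i' j') _ _ _ hE hc3 syV syR syV' (e1.mono (pw hE (by omega)))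
    (e3.mono (pw hE (by omega)))

/-- The own path vanishes at the exact time. -/
theorem zp_own0 {D : NDat2} {n K K' J a₀ w₀ z M : ℕ} {lam gam : ℕ → ℝ} {κ C₁ C : ℝ}
    {q : D.Ω → ℝ} (hO : D.Ok2 n K J a₀ w₀ z M lam gam κ C₁ q) {i j : ℕ} {V : ℕ → PN} {ω : D.Ω}
    (hω : 0 < q ω) (hV : OwF D n K' M z C ω V) {l : ℕ} (hl : l ≤ n) :
    (zp D i j V ω l).coeff 0 = 0 := by
  rw [Polynomial.coeff_zero_eq_eval_zero, zp_ev, zero_div, add_zero]
  have hb : ∀ k ≤ n, pp D (D.ln ω) (D.X ω 0) k = D.X ω k := fun k hk => by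
    unfold pp
    split_ifs with h
    · rw [h]
    · exact (hO.str ω hω k hk).symm
  unfold nat
  rw [hb l hl, Pool.SYS35.eval_congr (b' := D.X ω) (hV.tri l) fun k hk => hb k (by omega),
    hV.own l hl, sub_self, mul_zero]

/-- The coordinates at the exact time. -/
theorem zp_ze {D : NDat2} {n K J a₀ w₀ z M : ℕ} {lam gam : ℕ → ℝ} {κ C₁ : ℝ}
    {q : D.Ω → ℝ} (hO : D.Ok2 n K J a₀ w₀ z M lam gam κ C₁ q) {i j : ℕ} {P : ℕ → PN} {ω : D.Ω}
    (hω : 0 < q ω) (hP : TriN P) {l : ℕ} (hl : l ≤ n) :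
    (zp D i j P ω l).coeff 0 = nat (D.g i j) P (D.X ω) l := by
  rw [Polynomial.coeff_zero_eq_eval_zero, zp_ev, zero_div, add_zero]
  have hb : ∀ k ≤ n, pp D (D.ln ω) (D.X ω 0) k = D.X ω k := fun k hk => by
    unfold pp
    split_ifs with h
    · rw [h]
    · exact (hO.str ω hω k hk).symm
  unfold nat
  rw [hb l hl, Pool.SYS35.eval_congr (b' := D.X ω) (hP l) fun k hk => hb k (by omega)]

theorem c0_coeff (p : Polynomial ℝ) (m : ℕ) : (c0 p).coeff m = if m = 0 then p.coeff 0 else 0 := by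
  rw [c0_apply, Polynomial.coeff_C]

/-- **Two lines with the same label at the point.** -/
theorem own_pt (n K K' : ℕ) (C₁ C : ℝ) (hC₁ : 1 ≤ C₁) : ∃ (b : ℕ) (c₀ : ℝ),
    ∀ (lam gam : ℕ → ℝ) (J a₀ w₀ z M i j y r ρ : ℕ) (D : NDat2) (q : D.Ω → ℝ) (κ : ℝ)
      (P V V' : ℕ → PN) (ω ω' : D.Ω), (∀ l, 1 ≤ l → l ≤ n → lam l = 1) → c₀ ≤ exp (z : ℝ) →
      PlO n gam y r M i j → ρ ≤ i → D.Ok2 n K J a₀ w₀ z M lam gam κ C₁ q → 0 < q ω → 0 < q ω' →
      OwF D n K' M z C ω V → OwF D n K' M z C ω' V' → PthC D n w₀ z M 1 ω →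
      PthC D n w₀ z M 1 ω' → FrP D n K' z i j r C P ω →
      FrP D n K' z i j r C P ω' → D.T ω = D.T ω' → D.c i j ω = D.c i j ω' →
      D.c (i - 1) (j - r) ω = D.c (i - 1) (j - r) ω' →
      D.s (i - ρ) (j + r) ω = D.s (i - ρ) (j + r) ω' →
      (∀ l ≤ n, ∀ k, 1 ≤ k → k < l → |(sg gam (arw n K' (D.g i j) (D.X ω' 0) P V') l k).coeff 0 -
        (sg gam (arw n K' (D.g i j) (D.X ω 0) P V) l k).coeff 0| ≤ exp z ^ b / 2 ^ (y * z)) ∧
      ∀ l ≤ n, 1 ≤ l → |(zh gam (arw n K' (D.g i j) (D.X ω 0) P V)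
          (fun l => zp D i j P ω l) l).coeff 0 - (zh gam (arw n K' (D.g i j) (D.X ω' 0) P V')
          (fun l => zp D i j P ω' l) l).coeff 0| ≤
        exp z ^ b * ((2 : ℝ) ^ ((ρ - gam l * r) * z) + 1 / 2 ^ (y * z)) := by
  classical
  obtain ⟨b₁, c₁, h1⟩ := two_pre n K K' C₁ C hC₁
  obtain ⟨a₂, c₂, h2⟩ := yl_own n K K' C₁ C hC₁
  obtain ⟨a₃, c₃, h3⟩ := zp_pn n K K' C
  obtain ⟨a₄, c₄, h4⟩ := cl_vs n K K' C
  obtain ⟨a₆, c₆, h6⟩ := cl_vv n K K' C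
  obtain ⟨a₇, c₇, h7⟩ := rwc_pl n K' a₆ C₁ hC₁
  obtain ⟨a₈, c₈, h8⟩ := rwz_pl n K' a₄ C₁ hC₁
  obtain ⟨e₅, h5⟩ := sg_stab n
  obtain ⟨e₉, h9⟩ := zh_stab n
  obtain ⟨B, hB⟩ : ∃ B : ℕ, B = b₁ + a₂ + a₃ + a₇ + a₈ := ⟨_, rfl⟩
  refine ⟨B * (e₅ + e₉ + 1), max (max (max c₁ c₂) (max c₃ c₄)) (max c₆ (max c₇ c₈)), ?_⟩
  intro lam gam J a₀ w₀ z M i j y r ρ D q κ P V V' ω ω' hlam hc₀ hpl hρ hO hω hω' hV hV' hp hp'
    hP hP' hT hc1 hc2 hs
  obtain ⟨hA, hA'⟩ := max_le_iff.1 hc₀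
  obtain ⟨hA1, hA2⟩ := max_le_iff.1 hA
  obtain ⟨hk1, hk2⟩ := max_le_iff.1 hA1
  obtain ⟨hk3, hk4⟩ := max_le_iff.1 hA2
  obtain ⟨hk6, hA3⟩ := max_le_iff.1 hA'
  obtain ⟨hk7, hk8⟩ := max_le_iff.1 hA3
  have hE : 1 ≤ exp (z : ℝ) := Real.one_le_exp (Nat.cast_nonneg z)
  have i1 := hpl.yi
  have y1 := hpl.y1
  have i2 := hpl.i2
  have j1 := hpl.j1
  have j2 := hpl.j2
  have pY : (0 : ℝ) < 2 ^ (y * z) := by positivity
  obtain ⟨W, hW⟩ : ∃ W : ℝ, W = exp (z : ℝ) ^ B := ⟨_, rfl⟩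
  have W1 : 1 ≤ W := by rw [hW]; exact pw1 hE B
  obtain ⟨p1, p2, p3, p4, p5⟩ := h1 B (by omega) lam gam J a₀ w₀ z M i j y r D q κ P V V' ω ω'
    hlam hk1 hpl hO hω hω' hV hV' hP hP' hT hc1
  rw [← hW] at p1 p2 p3 p4 p5
  obtain ⟨a, ha⟩ : ∃ a, a = arw n K' (D.g i j) (D.X ω 0) P V := ⟨_, rfl⟩
  obtain ⟨a', ha'⟩ : ∃ a', a' = arw n K' (D.g i j) (D.X ω' 0) P V' := ⟨_, rfl⟩
  obtain ⟨ν, hν⟩ : ∃ ν, ν = arw n K' (D.g i j) (D.X ω 0) V V' := ⟨_, rfl⟩
  rw [← ha] at p2 p5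
  rw [← ha'] at p3 p5
  rw [← hν] at p4 p5
  have sV : St K' (D.X ω 0) (atT (D.X ω 0) V) := st_atT hV.tri hV.deg _
  have sV' : St K' (D.X ω 0) (atT (D.X ω 0) V') := st_atT hV'.tri hV'.deg _
  have v3 := h6 lam gam C₁ J a₀ w₀ z M (i - 1) (j - r) D q κ V V' ω ω' hk6 (by omega) (by omega)
    hO hV hV' hT hc2
  have v4 := h4 lam gam C₁ J a₀ w₀ z M (i - ρ) (j + r) D q κ V V' ω ω' hk4 (by omega) (by omega)
    hω hω' hO hV hV' hT hs
  have hνz : ∀ l k, (ν l k).coeff 0 = rwc (D.g i j) (atT (D.X ω 0) V) (atT (D.X ω 0) V') l k 0 := by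
    intro l k
    rw [hν]
    unfold arw
    rw [rwp_coeff, if_pos (by omega)]
  have hW7 : exp (z : ℝ) ^ a₇ ≤ W := by rw [hW]; exact pw hE (by omega)
  have hW8 : exp (z : ℝ) ^ a₈ ≤ W := by rw [hW]; exact pw hE (by omega)
  have H : Two n gam W (W / 2 ^ (y * z)) (cz a) (cz a') (cz ν) := by
    refine ⟨p1, by positivity, fun l hl k hk => (pn_c0 _).trans (p2 l hl k hk),
      fun l hl k hk => (pn_c0 _).trans (p3 l hl k hk),
      fun l hl k hk => (pn_c0 _).trans (p4 l hl k hk), fun l hl k hk => ?_,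
      fun l hl m hm1 hm => ?_⟩
    · have e1 : cz a' l k - (cz a l k + cz ν l k - ∑ m ∈ Ioo k l, cz ν l m * cz a m k) =
          c0 (a' l k - (a l k + ν l k - ∑ m ∈ Ioo k l, ν l m * a m k)) := by
        unfold cz
        rw [map_sub, map_sub, map_add, map_sum]
        simp only [map_mul]
      rw [e1]
      exact (pn_c0 _).trans (p5 l hl k hk)
    · rw [tp_cz]
      unfold cz
      rw [← map_sub, c0_apply, pn_C, Polynomial.coeff_sub]
      unfold tp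
      rw [coeff_flt, Nat.cast_zero, add_zero]
      rcases lt_trichotomy (gam m) (gam l) with h | h | h
      · rw [if_neg h.ne, sub_zero, hνz]
        have e2 := (h8 lam gam K J a₀ w₀ z M i j (i - ρ) (j + r) D q κ (D.X ω 0) V V' hlam hk8
          (by omega) (by omega) (by omega) (by omega) hO hV.tri hV'.tri hV.deg hV'.deg v4 l
          (by omega) hl).2 m hm1 (by omega)
        refine e2.trans ?_
        rw [div_eq_mul_one_div W]
        refine mul_le_mul hW8 (rp_le ?_) (by positivity) (by positivity)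
        have e3 := hpl.gap' m l 0 hm1 (by omega) (by omega) hl (by
          rw [Nat.cast_zero, add_zero]
          exact h)
        rw [Nat.cast_zero, add_zero] at e3
        push_cast
        nlinarith
      · rw [if_pos h, sub_self, abs_zero]
        positivity
      · rw [if_neg h.ne', sub_zero, hνz]
        have e2 := (h7 lam gam K J a₀ w₀ z M i j (i - 1) (j - r) D q κ (D.X ω 0) _ _ hlam hk7
          (by omega) (by omega) (by omega) (by omega) hO sV sV' v3 l (by omega) hl).2 m hm1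
          (by omega) 0
        refine e2.trans ?_
        rw [div_eq_mul_one_div W]
        refine mul_le_mul hW7 (rp_le ?_) (by positivity) (by positivity)
        have e3 := hpl.gap m l 0 hm1 (by omega) (by omega) hl (by
          rw [Nat.cast_zero, add_zero]
          exact h)
        rw [Nat.cast_zero, add_zero] at e3
        have h4 : ((j - r : ℕ) : ℝ) = j - r := by rw [Nat.cast_sub j1]
        rw [h4, Nat.cast_zero, sub_zero]
        nlinarith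
  have eW : ∀ e ≤ e₅ + e₉, W ^ e * (W / 2 ^ (y * z)) ≤
      exp z ^ (B * (e₅ + e₉ + 1)) / 2 ^ (y * z) := fun e he => by
    rw [← mul_div_assoc, ← pow_succ, hW, ← pow_mul]
    exact div_le_div_of_nonneg_right (pw hE (Nat.mul_le_mul_left _ (by omega))) pY.le
  rw [← ha, ← ha']
  constructor
  · intro l hl k hk1' hk
    have key := (h5 gam W (W / 2 ^ (y * z)) _ _ _ H l hl k hk1' hk).trans (eW e₅ (by omega))
    rw [sg_cz, sg_cz, ← map_sub, c0_apply, pn_C, Polynomial.coeff_sub] at key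
    exact key
  · intro l hl hl1
    have bz := fun l hl => (pn_c0 (zp D i j P ω l)).trans
      ((h3 lam gam C₁ J a₀ w₀ z M i j D q κ P ω hk3 (by omega) (by omega) hO
      hP.tri hP.deg hp (fun l hl => (hP.near i le_rfl l hl).1) l hl).trans
        (show exp (z : ℝ) ^ a₃ ≤ W by rw [hW]; exact pw hE (by omega)))
    have bz' := fun l hl => (pn_c0 (zp D i j P ω' l)).trans
      ((h3 lam gam C₁ J a₀ w₀ z M i j D q κ P ω' hk3 (by omega) (by omega)
      hO hP'.tri hP'.deg hp' (fun l hl => (hP'.near i le_rfl l hl).1) l hl).trans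
        (show exp (z : ℝ) ^ a₃ ≤ W by rw [hW]; exact pw hE (by omega)))
    have U0 : ∀ l, (0 : ℝ) ≤ (2 : ℝ) ^ ((ρ - gam l * r) * z) := fun l => by positivity
    have oy : ∀ (V : ℕ → PN) (ω : D.Ω), 0 < q ω → OwF D n K' M z C ω V →
        PthC D n w₀ z M 1 ω → FrP D n K' z i j r C P ω → ∀ l ≤ n, 1 ≤ l →
        Ob ((2 : ℝ) ^ ((ρ - gam l * r) * z)) (2 ^ (r * z)) (W / 2 ^ (y * z)) W
          (yl gam (cz (arw n K' (D.g i j) (D.X ω 0) P V)) (fun k => c0 (zp D i j P ω k)) l) := by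
      intro V ω hω hV hp hP l hl hl1 m
      rw [yl_cz gam _ (fun k => zp D i j P ω k) l, c0_coeff]
      have hpos : 0 ≤ W * ((2 : ℝ) ^ ((ρ - gam l * r) * z) * (2 ^ (r * z)) ^ m) := by positivity
      split_ifs with hm
      · have e1 := (coeff_le_pn _ 0).trans
          (h2 lam gam J a₀ w₀ z M i j y r D q κ P V ω hlam hk2 hpl hO hV hP hp l hl1 hl)
        rw [Polynomial.coeff_sub, zp_own0 hO hω hV hl, sub_zero] at e1
        refine e1.trans ?_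
        have e5 : exp (z : ℝ) ^ a₂ ≤ W := by rw [hW]; exact pw hE (by omega)
        have e6 : exp (z : ℝ) ^ a₂ / 2 ^ (y * z) ≤ W * (W / 2 ^ (y * z)) := by
          rw [← mul_div_assoc]
          refine div_le_div_of_nonneg_right (e5.trans ?_) pY.le
          exact le_mul_of_one_le_left (by linarith) W1
        rw [mul_add]
        linarith
      · rw [abs_zero]
        positivity
    have on : ∀ l ≤ n, 1 ≤ l → Ob ((2 : ℝ) ^ ((ρ - gam l * r) * z)) (2 ^ (r * z))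
        (W / 2 ^ (y * z)) W (cz ν l 0) := by
      intro l hl hl1 m
      unfold cz
      rw [c0_coeff]
      split_ifs with hm
      · rw [hνz, hm, pow_zero, mul_one]
        have e2 := (h8 lam gam K J a₀ w₀ z M i j (i - ρ) (j + r) D q κ (D.X ω 0) V V' hlam hk8
          (by omega) (by omega) (by omega) (by omega) hO hV.tri hV'.tri hV.deg hV'.deg v4 l
          hl1 hl).1
        have h4 : ((i - ρ : ℕ) : ℝ) = i - ρ := by rw [Nat.cast_sub hρ]
        have e3 : ((((i : ℝ) - (i - ρ : ℕ)) + gam l * ((j : ℝ) - (j + r : ℕ))) * z) =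
            (ρ - gam l * r) * z := by
          rw [h4]
          push_cast
          ring
        rw [e3] at e2
        refine e2.trans (mul_le_mul hW8 ?_ (U0 l) (by positivity))
        have : 0 ≤ W / 2 ^ (y * z) := by positivity
        linarith
      · rw [abs_zero]
        positivity
    have o1 := oy V ω hω hV hp hP
    have o2 := oy V' ω' hω' hV' hp' hP'
    rw [← ha] at o1
    rw [← ha'] at o2
    have key := h9 gam W (W / 2 ^ (y * z)) (2 ^ (r * z))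
      (fun l => (2 : ℝ) ^ ((ρ - gam l * r) * z)) _ _ _ (fun l => c0 (zp D i j P ω l))
      (fun l => c0 (zp D i j P ω' l)) H (by positivity) U0
      (fun l hl k hk1 hk d hd => by
        refine (le_of_eq ?_).trans (le_mul_of_one_le_left (by positivity) W1)
        rw [← pow_mul, ← Real.rpow_natCast, ← Real.rpow_add (by norm_num), ← hd]
        congr 1
        push_cast
        ring) bz bz' o1 o2 on l hl hl1 0
    rw [zh_cz gam a (fun k => zp D i j P ω k) l, zh_cz gam a' (fun k => zp D i j P ω' k) l,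
      ← map_sub, c0_coeff, if_pos rfl, Polynomial.coeff_sub, pow_zero, mul_one] at key
    refine key.trans ?_
    rw [mul_add, mul_add]
    refine add_le_add (mul_le_mul_of_nonneg_right ?_ (U0 l)) ?_
    · rw [hW, ← pow_mul]
      exact pw hE (Nat.mul_le_mul_left _ (by omega))
    · rw [← mul_div_assoc _ (1 : ℝ), mul_one]
      exact eW e₉ (by omega)

end Pool.TN98
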