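import Pool.Agent.H98.TIEN.Two

/-!
# Own frames of every degree: the rows at the exact time from the labels at the point
-/

set_option autoImplicit false

namespace Pool.TN98

open Finset Real MvPolynomial
open Pool.Agent.H49.Ent Pool.Agent.H32.Dense Pool.STK Pool.STAT Pool.MIC.Frm Pool.MIC7 Pool.FRM
open Pool.P4O (Sy Cls Lv pw pw1 lev_le exp_pow cls_coef sy_fz)
open Pool.P4 (FrP PthC pp GoodS)
open Pool.P5L (OwF near_cls c_up lv_zero)
open Pool.TNL (zp zp_eval zp_deg)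

/-- Coefficients without the variable `0`. -/
theorem coeff_kill (F : PN) (α : ℕ →₀ ℕ) (h : α 0 = 0) :
    coeff α (bind₁ (fun i => if i = 0 then (0 : PN) else X i) F) = coeff α F := by
  induction F using MvPolynomial.induction_on' with
  | monomial d r =>
    rw [bind₁_monomial]
    by_cases h0 : d 0 = 0
    · congr 1
      rw [monomial_eq, Finsupp.prod]
      congr 1
      refine Finset.prod_congr rfl fun i hi => ?_
      rw [if_neg]
      intro h1
      rw [h1] at hi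
      exact (Finsupp.mem_support_iff.1 hi) h0
    · have h1 : ∏ i ∈ d.support, (if i = 0 then (0 : PN) else X i) ^ d i = 0 :=
        Finset.prod_eq_zero (Finsupp.mem_support_iff.2 h0) (by rw [if_pos rfl, zero_pow h0])
      rw [h1, mul_zero, coeff_zero, coeff_monomial, if_neg]
      intro h2
      rw [h2] at h0
      exact h0 h
  | add p q hp hq => rw [map_add, coeff_add, coeff_add, hp, hq]

theorem tri_atT {A : ℕ → PN} (hA : TriN A) (T : ℝ) : TriN (atT T A) := by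
  intro i
  unfold atT
  rcases Nat.eq_zero_or_pos i with h0 | h0
  · rw [h0, Function.update_self, vars_C]
    exact Finset.empty_subset _
  · rw [Function.update_of_ne (by omega)]
    exact hA i

theorem chr_fz {A B : ℕ → PN} (hA : TriN A) {T : ℝ} {l : ℕ} (hl : 1 ≤ l) :
    chr (fz T A) (fz T B l - fz T A l) =
      bind₁ (fun i => if i = 0 then (0 : PN) else X i) (chr (atT T A) (B l - A l)) := by
  refine MvPolynomial.funext fun ζ => ?_
  have tF : TriN (fz T A) := tri_fz hA T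
  have tT : TriN (atT T A) := tri_atT hA T
  obtain ⟨b, hb⟩ : ∃ b : ℕ → ℝ, b = ps (fz T A) ζ := ⟨_, rfl⟩
  obtain ⟨b', hb'⟩ : ∃ b' : ℕ → ℝ, b' = Function.update b 0 T := ⟨_, rfl⟩
  obtain ⟨ξ, hξ⟩ : ∃ ξ : ℕ → ℝ, ξ = fun i => eval ζ (if i = 0 then (0 : PN) else X i) := ⟨_, rfl⟩
  have hz : zs (atT T A) b' = ξ := by
    funext k
    have e0 : ξ k = eval ζ (if k = 0 then (0 : PN) else X k) := by rw [hξ]
    rw [e0]
    unfold zs
    rcases Nat.eq_zero_or_pos k with h0 | h0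
    · rw [h0, if_pos rfl, map_zero]
      unfold atT
      rw [Function.update_self, eval_C, hb', Function.update_self, sub_self]
    · rw [if_neg (by omega), eval_X, atT_pos h0]
      have h1 := ps_eq tF ζ k
      rw [← hb, eval_fz T A b h0, ← hb'] at h1
      rw [hb', Function.update_of_ne (by omega), ← hb', h1]
      ring
  have h2 : eval ζ (bind₁ (fun i => if i = 0 then (0 : PN) else X i)
      (chr (atT T A) (B l - A l))) = eval b' (B l - A l) := by
    rw [AdxRow.evl_bnd, ← hξ, ← hz, chr_eval tT]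
  rw [h2, chr_eval', ← hb, map_sub, map_sub, eval_fz T B b hl, eval_fz T A b hl, ← hb']

theorem rwc_fz {A B : ℕ → PN} (hA : TriN A) (T : ℝ) (g : ℕ → ℕ) {l : ℕ} (hl : 1 ≤ l) (k : ℕ) :
    rwc g (atT T A) (atT T B) l k 0 =
      2 ^ g l / 2 ^ wt g 0 k * coeff (ex 0 k) (chr (fz T A) (fz T B l - fz T A l)) := by
  unfold rwc
  rw [atT_pos hl, atT_pos hl, chr_fz hA hl, coeff_kill _ _ (ex_zero_apply 0 k)]

/-- **Coefficients of degree zero from another place, frozen systems.** -/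
theorem rwz_pl (n K a : ℕ) (C₁ : ℝ) (hC₁ : 1 ≤ C₁) : ∃ (a' : ℕ) (c₀ : ℝ),
    ∀ (lam gam : ℕ → ℝ) (K' J a₀ w₀ z M i j i' j' : ℕ) (D : NDat2) (q : D.Ω → ℝ) (κ t : ℝ)
      (A B : ℕ → PN), (∀ l, 1 ≤ l → l ≤ n → lam l = 1) → c₀ ≤ exp (z : ℝ) → i ≤ M → j ≤ M →
      i' ≤ M → j' ≤ M → D.Ok2 n K' J a₀ w₀ z M lam gam κ C₁ q → TriN A → TriN B →
      (∀ l, (A l).totalDegree ≤ K) → (∀ l, (B l).totalDegree ≤ K) →
      Cls n (D.g i' j') (exp z ^ a) (fz t A) (fz t B) → ∀ l, 1 ≤ l → l ≤ n →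
      |rwc (D.g i j) (atT t A) (atT t B) l 0 0| ≤ exp z ^ a' *
        (2 : ℝ) ^ ((((i : ℝ) - i') + gam l * ((j : ℝ) - j')) * z) ∧
      ∀ k, 1 ≤ k → k ≤ n → |rwc (D.g i j) (atT t A) (atT t B) l k 0| ≤ exp z ^ a' *
        (2 : ℝ) ^ ((gam l - gam k) * ((j : ℝ) - j') * z) := by
  obtain ⟨a₁, c₁, h1⟩ := cls_coef n K a
  obtain ⟨c, hc⟩ := exists_nat_ge (4 * C₁)
  refine ⟨a₁ + 2 * c, c₁, ?_⟩
  intro lam gam K' J a₀ w₀ z M i j i' j' D q κ t A B hlam hc₀ hi hj hi' hj' hO hA hB dA dB hcl l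
    hl1 hln
  have hE : 1 ≤ exp (z : ℝ) := Real.one_le_exp (Nat.cast_nonneg z)
  have hC0 : 0 ≤ C₁ := by linarith
  have pc : (0 : ℝ) < exp (z : ℝ) ^ c := by positivity
  have h2 := h1 (exp z) t (D.g i' j') (fz t A) (fz t B) hE hc₀ (sy_fz hA dA t) (sy_fz hB dB t)
    hcl l hl1 hln
  have l1 := lvr hO hC0 hc hlam hi hj hi' hj' hl1 hln
  have h3 : ∀ k, |rwc (D.g i j) (atT t A) (atT t B) l k 0| ≤ exp z ^ a₁ *
      (2 ^ D.g i j l / 2 ^ D.g i' j' l * (2 ^ wt (D.g i' j') 0 k / 2 ^ wt (D.g i j) 0 k)) := by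
    intro k
    have h4 := h2 (ex 0 k)
    rw [weight_ex] at h4
    rw [rwc_fz hA t _ hl1, abs_mul,
      abs_of_pos (show (0 : ℝ) < 2 ^ D.g i j l / 2 ^ wt (D.g i j) 0 k by positivity)]
    calc 2 ^ D.g i j l / 2 ^ wt (D.g i j) 0 k *
          |coeff (ex 0 k) (chr (fz t A) (fz t B l - fz t A l))|
        ≤ 2 ^ D.g i j l / 2 ^ wt (D.g i j) 0 k *
          (exp z ^ a₁ * (2 ^ wt (D.g i' j') 0 k / 2 ^ D.g i' j' l)) :=
          mul_le_mul_of_nonneg_left h4 (by positivity)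
      _ = _ := by ring
  constructor
  · refine (h3 0).trans ?_
    unfold wt
    rw [if_pos rfl, if_pos rfl, zero_mul, zero_mul, add_zero, pow_zero, div_one, mul_one]
    refine (mul_le_mul_of_nonneg_left l1 (by positivity)).trans (le_of_eq_of_le (b :=
      exp (z : ℝ) ^ (a₁ + c) * (2 : ℝ) ^ ((((i : ℝ) - i') + gam l * ((j : ℝ) - j')) * z)) ?_ ?_)
    · rw [pow_add]
      ring
    · exact mul_le_mul_of_nonneg_right (pw hE (by omega)) (by positivity)
  · intro k hk1 hkn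
    refine (h3 k).trans ?_
    have l2 := lvr hO hC0 hc hlam hi' hj' hi hj hk1 hkn
    unfold wt
    rw [if_neg (by omega), if_neg (by omega), zero_mul, zero_mul, zero_add, zero_add]
    calc exp (z : ℝ) ^ a₁ * (2 ^ D.g i j l / 2 ^ D.g i' j' l *
          (2 ^ D.g i' j' k / 2 ^ D.g i j k))
        ≤ exp (z : ℝ) ^ a₁ * ((exp z ^ c *
          (2 : ℝ) ^ ((((i : ℝ) - i') + gam l * ((j : ℝ) - j')) * z)) *
          (exp z ^ c * (2 : ℝ) ^ ((((i' : ℝ) - i) + gam k * ((j' : ℝ) - j)) * z))) := by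
          refine mul_le_mul_of_nonneg_left (mul_le_mul l1 l2
            (by positivity) (by positivity)) (by positivity)
      _ = exp (z : ℝ) ^ (a₁ + 2 * c) * ((2 : ℝ) ^ ((((i : ℝ) - i') +
            gam l * ((j : ℝ) - j')) * z) *
            (2 : ℝ) ^ ((((i' : ℝ) - i) + gam k * ((j' : ℝ) - j)) * z)) := by
          rw [pow_add, pow_mul']
          ring
      _ = _ := by
          rw [← Real.rpow_add (by norm_num)]
          congr 2
          ring

end Pool.TN98
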