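import Pool.Agent.H98.TIEN.Pth

/-!
# Own frames of every degree: the own coordinate of the line
-/

set_option autoImplicit false

namespace Pool.TN98

open Finset Real MvPolynomial
open Pool.Agent.H49.Ent Pool.Agent.H32.Dense Pool.STK Pool.STAT Pool.MIC.Frm Pool.MIC7 Pool.FRM
open Pool.P4O (Sy Cls Lv pw pw1 lev_le exp_pow)
open Pool.P4 (FrP PthC pp GoodS)
open Pool.P5L (OwF near_cls c_up lv_zero)
open Pool.TNL (zp zp_eval zp_deg)

/-- The degree of the rows. -/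
def dN (n K : ℕ) : ℕ := K * (K + 1) ^ n

/-- The rows of `V` over `P`, centre `T`. -/
noncomputable def arw (n K : ℕ) (g : ℕ → ℕ) (T : ℝ) (P V : ℕ → PN) : ℕ → ℕ → Polynomial ℝ :=
  rwp (dN n K) g (atT T P) (atT T V)

theorem arw_deg (n K : ℕ) (g : ℕ → ℕ) (T : ℝ) (P V : ℕ → PN) (l k : ℕ) :
    (arw n K g T P V l k).natDegree ≤ dN n K := rwp_deg _ _ _ _ _ _

/-- **The own coordinate of the line.** -/
theorem yl_own (n K K' : ℕ) (C₁ C : ℝ) (hC₁ : 1 ≤ C₁) : ∃ (a : ℕ) (c₀ : ℝ),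
    ∀ (lam gam : ℕ → ℝ) (J a₀ w₀ z M i j y r : ℕ) (D : NDat2) (q : D.Ω → ℝ) (κ : ℝ)
      (P V : ℕ → PN) (ω : D.Ω), (∀ l, 1 ≤ l → l ≤ n → lam l = 1) → c₀ ≤ exp (z : ℝ) →
      PlO n gam y r M i j → D.Ok2 n K J a₀ w₀ z M lam gam κ C₁ q → OwF D n K' M z C ω V →
      FrP D n K' z i j r C P ω → PthC D n w₀ z M 1 ω → ∀ l, 1 ≤ l → l ≤ n →
      pn (yl gam (arw n K' (D.g i j) (D.X ω 0) P V) (fun l => zp D i j P ω l) l -
        zp D i j V ω l) ≤ exp z ^ a / 2 ^ (y * z) := by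
  obtain ⟨a₁, c₁, h1⟩ := cl_pv n K K' C
  obtain ⟨a₂, c₂, h2⟩ := nat_bd n K K' C
  obtain ⟨a₃, c₃, h3⟩ := zp_pn n K K' C
  obtain ⟨c4, hc4⟩ := exists_nat_ge (4 * C₁)
  obtain ⟨a₀', h0'⟩ : ∃ a₀' : ℕ, a₀' = a₁ + a₂ + c4 := ⟨_, rfl⟩
  obtain ⟨a₄, c₄, h4⟩ := row_aff n K' a₀'
  obtain ⟨a₅, c₅, h5⟩ := row_hi n K' a₁ (dN n K') C₁ hC₁
  obtain ⟨C₆, hC₆, h6⟩ := pn_of_sup (dN n K' + (K' + 1) * (K + 1))
  refine ⟨a₄ + a₅ + a₃ + 3, max (max (max c₁ c₂) (max c₃ c₄)) (max c₅ (max C₆ (n + 2))), ?_⟩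
  intro lam gam J a₀ w₀ z M i j y r D q κ P V ω hlam hc₀ hpl hO hV hP hω l hl1 hln
  obtain ⟨hA, hB⟩ := max_le_iff.1 hc₀
  obtain ⟨hA1, hA2⟩ := max_le_iff.1 hA
  obtain ⟨hc1, hc2⟩ := max_le_iff.1 hA1
  obtain ⟨hc3, hc4'⟩ := max_le_iff.1 hA2
  obtain ⟨hc5, hB2⟩ := max_le_iff.1 hB
  obtain ⟨hc6, hcn⟩ := max_le_iff.1 hB2
  have hE : 1 ≤ exp (z : ℝ) := Real.one_le_exp (Nat.cast_nonneg z)
  have hn : (0 : ℝ) ≤ n := Nat.cast_nonneg n
  have i1 := hpl.yi
  have y1 := hpl.y1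
  have i2 := hpl.i2
  have j1 := hpl.j1
  have j2 := hpl.j2
  have pY : (0 : ℝ) < 2 ^ (y * z) := by positivity
  have hcl := h1 lam gam C₁ J a₀ w₀ z M i j r D q κ P V ω hc1 i2 (by omega) hO hV hP
  obtain ⟨T, hT⟩ : ∃ T : ℝ, T = D.X ω 0 := ⟨_, rfl⟩
  obtain ⟨g, hg⟩ : ∃ g : ℕ → ℕ, g = D.g i j := ⟨_, rfl⟩
  have sP : St K' T (atT T P) := st_atT hP.tri hP.deg T
  have sV : St K' T (atT T V) := st_atT hV.tri hV.deg T
  have nP := fun l hl => (hP.near i le_rfl l hl).1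
  have bz : ∀ l ≤ n, pn (zp D i j P ω l) ≤ exp z ^ a₃ :=
    h3 lam gam C₁ J a₀ w₀ z M i j D q κ P ω hc3 (by omega) (by omega) hO hP.tri hP.deg hω nP
  obtain ⟨a, ha⟩ : ∃ a : ℕ → ℕ → Polynomial ℝ, a = arw n K' g T P V := ⟨_, rfl⟩
  have hL : Lv n (D.g i j) (D.g 0 j) (2 ^ (i * z)) (exp z ^ c4) :=
    lv_zero (by linarith) hc4 hlam hO (by omega) (by omega)
  -- the affine approximation
  have main : pn (zp D i j P ω l - ∑ k ∈ range l, a l k *
      (if k = 0 then 1 else zp D i j P ω k) - zp D i j V ω l) ≤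
        C₆ * (exp z ^ a₄ / 2 ^ (i * z)) := by
    refine h6 _ _ ?_ fun τ t0 t1 => ?_
    · refine (Polynomial.natDegree_sub_le _ _).trans (max_le
        ((Polynomial.natDegree_sub_le _ _).trans (max_le ?_ ?_)) ?_)
      · exact (zp_deg hO.pa_deg hP.deg).trans (by omega)
      · refine Polynomial.natDegree_sum_le_of_forall_le _ _ fun k _ => ?_
        refine Polynomial.natDegree_mul_le.trans (Nat.add_le_add ?_ ?_)
        · rw [ha]
          exact arw_deg _ _ _ _ _ _ _ _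
        · split_ifs
          · rw [Polynomial.natDegree_one]
            exact Nat.zero_le _
          · exact zp_deg hO.pa_deg hP.deg
      · exact (zp_deg hO.pa_deg hV.deg).trans (by omega)
    obtain ⟨b, hb⟩ : ∃ b : ℕ → ℝ, b = pp D (D.ln ω) (T + τ / 2 ^ g 0) := ⟨_, rfl⟩
    have hb0 : b 0 = T + τ / 2 ^ g 0 := by
      rw [hb]
      unfold pp
      rw [if_pos rfl]
    have hτ : nat g (atT T P) b 0 = τ := by
      rw [sP.nat0, hb0, add_sub_cancel_left, mul_div_cancel₀ _ (by positivity)]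
    have hzk : ∀ k, (zp D i j P ω k).eval τ = nat g P b k := fun k => by
      rw [zp_ev, hb, hT, hg]
    have hyk : (zp D i j V ω l).eval τ = nat g V b l := by
      rw [zp_ev, hb, hT, hg]
    have hbP : ∀ k ≤ n, |nat g P b k| ≤ exp z ^ a₂ := fun k hk => by
      rw [hb, hg, hT]
      refine h2 lam gam C₁ J a₀ w₀ z M i j D q κ P ω hc2 (by omega) (by omega) hO hP.tri hP.deg
        hω nP _ ?_ k hk
      rw [add_sub_cancel_left, hO.g_zero, abs_of_nonneg (by positivity)]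
      exact div_le_div_of_nonneg_right t1 (by positivity)
    have key := h4 (exp z) T (2 ^ (i * z)) g (D.g 0 j) (atT T P) (atT T V) (dN n K') hE hc4'
      (one_le_pow₀ (by norm_num)) sP sV
      (by
        rw [hT, hg]
        exact (hcl i le_rfl).1.mono (pw hE (by omega)))
      (by
        rw [hT]
        exact (hcl 0 (Nat.zero_le _)).1.mono (pw hE (by omega)))
      (by
        rw [hg]
        exact hL.mono (by positivity) (pw hE (by omega)))
      (by rw [hg, hO.g_zero, hO.g_zero]) le_rfl l hl1 hln b fun m hm => by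
        rcases Nat.eq_zero_or_pos m with h7 | h7
        · rw [h7, hτ, abs_of_nonneg t0]
          exact t1.trans (pw1 hE _)
        · rw [nat_atT _ _ _ _ h7]
          exact (hbP m (by omega)).trans (pw hE (by omega))
    rw [hτ, atT_pos hl1, atT_pos hl1] at key
    have e1 : (zp D i j P ω l - ∑ k ∈ range l, a l k *
        (if k = 0 then 1 else zp D i j P ω k) - zp D i j V ω l).eval τ =
        2 ^ g l * (eval b (V l) - eval b (P l)) -
          ∑ k ∈ range l, (rwp (dN n K') g (atT T P) (atT T V) l k).eval τ *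
            zt1 (nat g (atT T P) b) k := by
      rw [Polynomial.eval_sub, Polynomial.eval_sub, Polynomial.eval_finsetSum, hzk, hyk]
      have e2 : ∑ k ∈ range l, (a l k * (if k = 0 then 1 else zp D i j P ω k)).eval τ =
          ∑ k ∈ range l, (rwp (dN n K') g (atT T P) (atT T V) l k).eval τ *
            zt1 (nat g (atT T P) b) k := by
        refine Finset.sum_congr rfl fun k _ => ?_
        rw [Polynomial.eval_mul, ha]
        congr 1
        unfold zt1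
        split_ifs with h7
        · rw [Polynomial.eval_one]
        · rw [nat_atT _ _ _ _ (by omega), hzk]
      rw [e2]
      unfold nat
      ring
    rw [e1]
    exact key
  -- the degrees
  have hdeg : pn (∑ k ∈ Ico 1 l, (a l k - (lo gam a l k + tp gam a l k)) *
      zp D i j P ω k) ≤ n * (exp z ^ a₅ / 2 ^ (y * z) * exp z ^ a₃) := by
    refine pn_sum_le (fun k hk => ?_) (card_Ico_le hln) (by positivity)
    obtain ⟨hk1, hk2⟩ := Finset.mem_Ico.1 hk
    refine pn_mul_le ?_ (bz k (by omega))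
    rw [ha]
    have := h5 lam gam K J a₀ w₀ z M i j y r D q κ T (atT T P) (atT T V) hlam hc5 hpl hO sP sV
      (by rw [hT]; exact (hcl i le_rfl).2) l hln k hk1 hk2
    rw [hg]
    exact this
  have hid : yl gam a (fun l => zp D i j P ω l) l - zp D i j V ω l =
      (zp D i j P ω l - ∑ k ∈ range l, a l k *
      (if k = 0 then 1 else zp D i j P ω k) - zp D i j V ω l) +
      ∑ k ∈ Ico 1 l, (a l k - (lo gam a l k + tp gam a l k)) * zp D i j P ω k := by
    unfold yl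
    have e3 : ∑ k ∈ range l, a l k * (if k = 0 then 1 else zp D i j P ω k) =
        a l 0 + ∑ k ∈ Ico 1 l, a l k * zp D i j P ω k := by
      rw [Finset.range_eq_Ico, Finset.sum_eq_sum_Ico_succ_bot (show 0 < l by omega), if_pos rfl,
        mul_one]
      congr 1
      refine Finset.sum_congr rfl fun k hk => ?_
      obtain ⟨hk1, hk2⟩ := Finset.mem_Ico.1 hk
      rw [if_neg (by omega)]
    rw [e3]
    simp only [sub_mul, Finset.sum_sub_distrib]
    ring
  rw [← hT, ← hg, ← ha, hid]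
  have hyi : (2 : ℝ) ^ (y * z) ≤ 2 ^ (i * z) :=
    pow_le_pow_right₀ (by norm_num) (Nat.mul_le_mul_right z i1)
  refine (pn_add _ _).trans ((add_le_add main hdeg).trans ?_)
  have e5 : C₆ * (exp (z : ℝ) ^ a₄ / 2 ^ (i * z)) ≤
      exp (z : ℝ) ^ (a₄ + a₅ + a₃ + 1) / 2 ^ (y * z) := by
    rw [← mul_div_assoc]
    refine div_le_div₀ (by positivity) ?_ pY hyi
    calc C₆ * exp (z : ℝ) ^ a₄ ≤ exp z * exp z ^ a₄ :=
          mul_le_mul_of_nonneg_right hc6 (by positivity)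
      _ = exp z ^ (a₄ + 1) := by rw [pow_succ, mul_comm]
      _ ≤ _ := pw hE (by omega)
  have e6 : n * (exp (z : ℝ) ^ a₅ / 2 ^ (y * z) * exp z ^ a₃) ≤
      (n : ℝ) * (exp (z : ℝ) ^ (a₄ + a₅ + a₃ + 1) / 2 ^ (y * z)) := by
    refine mul_le_mul_of_nonneg_left ?_ hn
    rw [div_mul_eq_mul_div, ← pow_add]
    exact div_le_div_of_nonneg_right (pw hE (by omega)) pY.le
  calc C₆ * (exp (z : ℝ) ^ a₄ / 2 ^ (i * z)) +
        n * (exp (z : ℝ) ^ a₅ / 2 ^ (y * z) * exp z ^ a₃)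
      ≤ (n + 2) * (exp (z : ℝ) ^ (a₄ + a₅ + a₃ + 1) / 2 ^ (y * z)) := by
        have : 0 ≤ exp (z : ℝ) ^ (a₄ + a₅ + a₃ + 1) / 2 ^ (y * z) := by positivity
        linarith
    _ ≤ exp z ^ 2 * (exp (z : ℝ) ^ (a₄ + a₅ + a₃ + 1) / 2 ^ (y * z)) :=
        mul_le_mul_of_nonneg_right (hcn.trans (le_self_pow₀ hE (by omega))) (by positivity)
    _ = _ := by
        rw [← mul_div_assoc, ← pow_add]
        congr 2
        omega

end Pool.TN98
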