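import Pool.Agent.H98.TIEN.Cel

/-!
# Own frames of every degree: the rows in a cell
-/

set_option autoImplicit false

namespace Pool.TN98

open Finset Real MvPolynomial
open Pool.Agent.H49.Ent Pool.Agent.H32.Dense Pool.STK Pool.STAT Pool.MIC.Frm Pool.MIC7 Pool.FRM
open Pool.P4O (Sy Cls Lv pw pw1 lev_le exp_pow)
open Pool.P4 (FrP PthC pp GoodS)
open Pool.P5L (OwF near_cls c_up)

/-- **Coefficients of the rows from another place.** -/
theorem rwc_pl (n K a : ℕ) (C₁ : ℝ) (hC₁ : 1 ≤ C₁) : ∃ (a' : ℕ) (c₀ : ℝ),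
    ∀ (lam gam : ℕ → ℝ) (K' J a₀ w₀ z M i j i' j' : ℕ) (D : NDat2) (q : D.Ω → ℝ) (κ t : ℝ)
      (A B : ℕ → PN), (∀ l, 1 ≤ l → l ≤ n → lam l = 1) → c₀ ≤ exp (z : ℝ) → i ≤ M → j ≤ M →
      i' ≤ M → j' ≤ M → D.Ok2 n K' J a₀ w₀ z M lam gam κ C₁ q → St K t A → St K t B →
      Cls n (D.g i' j') (exp z ^ a) A B → ∀ l, 1 ≤ l → l ≤ n →
      (∀ m : ℕ, |rwc (D.g i j) A B l 0 m| ≤ exp z ^ a' *
        (2 : ℝ) ^ ((((i : ℝ) - i') + gam l * ((j : ℝ) - j') - m * ((j : ℝ) - j')) * z)) ∧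
      ∀ k, 1 ≤ k → k ≤ n → ∀ m : ℕ, |rwc (D.g i j) A B l k m| ≤ exp z ^ a' *
        (2 : ℝ) ^ ((gam l - gam k - m) * ((j : ℝ) - j') * z) := by
  obtain ⟨a₁, c₁, h1⟩ := rwc_far n K a
  obtain ⟨c, hc⟩ := exists_nat_ge (4 * C₁)
  refine ⟨a₁ + 2 * c, c₁, ?_⟩
  intro lam gam K' J a₀ w₀ z M i j i' j' D q κ t A B hlam hc₀ hi hj hi' hj' hO hA hB hcl l hl1 hln
  have hE : 1 ≤ exp (z : ℝ) := Real.one_le_exp (Nat.cast_nonneg z)
  have hC0 : 0 ≤ C₁ := by linarith
  have pc : (0 : ℝ) < exp (z : ℝ) ^ c := by positivity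
  have h2 := h1 (exp z) t (D.g i j) (D.g i' j') A B hE hc₀ hA hB hcl l hl1 hln
  have l1 := lvr hO hC0 hc hlam hi hj hi' hj' hl1 hln
  constructor
  · intro m
    refine (h2 0 m).trans ?_
    have e1 : (2 : ℝ) ^ wt (D.g i' j') m 0 / 2 ^ wt (D.g i j) m 0 =
        (2 : ℝ) ^ (m * ((j' : ℝ) - j) * z) := by
      unfold wt
      rw [if_pos rfl, if_pos rfl, add_zero, add_zero]
      exact lvr0 hO i' j' i j m
    rw [e1]
    calc exp (z : ℝ) ^ a₁ * (2 ^ D.g i j l / 2 ^ D.g i' j' l *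
          (2 : ℝ) ^ (m * ((j' : ℝ) - j) * z))
        ≤ exp (z : ℝ) ^ a₁ * (exp z ^ c *
          (2 : ℝ) ^ ((((i : ℝ) - i') + gam l * ((j : ℝ) - j')) * z) *
          (2 : ℝ) ^ (m * ((j' : ℝ) - j) * z)) := by
          refine mul_le_mul_of_nonneg_left (mul_le_mul_of_nonneg_right l1 (by positivity))
            (by positivity)
      _ = exp (z : ℝ) ^ (a₁ + c) * ((2 : ℝ) ^ ((((i : ℝ) - i') + gam l * ((j : ℝ) - j')) * z) *
            (2 : ℝ) ^ (m * ((j' : ℝ) - j) * z)) := by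
          rw [pow_add]
          ring
      _ = exp (z : ℝ) ^ (a₁ + c) * (2 : ℝ) ^ ((((i : ℝ) - i') + gam l * ((j : ℝ) - j') -
            m * ((j : ℝ) - j')) * z) := by
          rw [← Real.rpow_add (by norm_num)]
          congr 2
          ring
      _ ≤ _ := mul_le_mul_of_nonneg_right (pw hE (by omega)) (by positivity)
  · intro k hk1 hkn m
    refine (h2 k m).trans ?_
    have l2 := lvr hO hC0 hc hlam hi' hj' hi hj hk1 hkn
    have e1 : (2 : ℝ) ^ wt (D.g i' j') m k / 2 ^ wt (D.g i j) m k =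
        (2 : ℝ) ^ (m * ((j' : ℝ) - j) * z) * (2 ^ D.g i' j' k / 2 ^ D.g i j k) := by
      unfold wt
      rw [if_neg (by omega), if_neg (by omega), pow_add, pow_add, ← lvr0 hO i' j' i j m,
        div_mul_div_comm]
    rw [e1]
    calc exp (z : ℝ) ^ a₁ * (2 ^ D.g i j l / 2 ^ D.g i' j' l *
          ((2 : ℝ) ^ (m * ((j' : ℝ) - j) * z) * (2 ^ D.g i' j' k / 2 ^ D.g i j k)))
        ≤ exp (z : ℝ) ^ a₁ * ((exp z ^ c *
          (2 : ℝ) ^ ((((i : ℝ) - i') + gam l * ((j : ℝ) - j')) * z)) *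
          ((2 : ℝ) ^ (m * ((j' : ℝ) - j) * z) * (exp z ^ c *
          (2 : ℝ) ^ ((((i' : ℝ) - i) + gam k * ((j' : ℝ) - j)) * z)))) := by
          refine mul_le_mul_of_nonneg_left (mul_le_mul l1 (mul_le_mul_of_nonneg_left l2
            (by positivity)) (by positivity) (by positivity)) (by positivity)
      _ = exp (z : ℝ) ^ (a₁ + 2 * c) * (((2 : ℝ) ^ ((((i : ℝ) - i') +
            gam l * ((j : ℝ) - j')) * z) * (2 : ℝ) ^ (m * ((j' : ℝ) - j) * z)) *
            (2 : ℝ) ^ ((((i' : ℝ) - i) + gam k * ((j' : ℝ) - j)) * z)) := by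
          rw [pow_add, pow_mul']
          ring
      _ = _ := by
          rw [← Real.rpow_add (by norm_num), ← Real.rpow_add (by norm_num)]
          congr 2
          ring

/-- A power of two with a negative exponent. -/
theorem rp_le {x : ℝ} {y z : ℕ} (h : x ≤ -(y : ℝ)) : (2 : ℝ) ^ (x * z) ≤ 1 / 2 ^ (y * z) := by
  rw [one_div, ← Real.rpow_natCast, ← Real.rpow_neg (by norm_num)]
  refine Real.rpow_le_rpow_of_exponent_le (by norm_num) ?_
  push_cast
  have := mul_le_mul_of_nonneg_right h (Nat.cast_nonneg (α := ℝ) z)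
  linarith

/-- The degrees of the rows which are seen from the long window. -/
theorem row_hi (n K a N : ℕ) (C₁ : ℝ) (hC₁ : 1 ≤ C₁) : ∃ (a' : ℕ) (c₀ : ℝ),
    ∀ (lam gam : ℕ → ℝ) (K' J a₀ w₀ z M i j y r : ℕ) (D : NDat2) (q : D.Ω → ℝ) (κ t : ℝ)
      (A B : ℕ → PN), (∀ l, 1 ≤ l → l ≤ n → lam l = 1) → c₀ ≤ exp (z : ℝ) →
      PlO n gam y r M i j → D.Ok2 n K' J a₀ w₀ z M lam gam κ C₁ q → St K t A → St K t B →
      Cls n (D.g (i - 1) (j - r)) (exp z ^ a) A B → ∀ l ≤ n, ∀ k, 1 ≤ k → k < l →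
      pn (rwp N (D.g i j) A B l k - (lo gam (rwp N (D.g i j) A B) l k +
        tp gam (rwp N (D.g i j) A B) l k)) ≤ exp z ^ a' / 2 ^ (y * z) := by
  obtain ⟨a₁, c₁, h1⟩ := rwc_pl n K a C₁ hC₁
  refine ⟨a₁ + 1, max c₁ (N + 1), ?_⟩
  intro lam gam K' J a₀ w₀ z M i j y r D q κ t A B hlam hc₀ hpl hO hA hB hcl l hln k hk1 hkl
  obtain ⟨hc1, hcN⟩ := max_le_iff.1 hc₀
  have i1 := hpl.yi
  have y1 := hpl.y1
  have i2 := hpl.i2
  have j1 := hpl.j1
  have j2 := hpl.j2
  have pY : (0 : ℝ) < 2 ^ (y * z) := by positivity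
  have key : pn (rwp N (D.g i j) A B l k - (lo gam (rwp N (D.g i j) A B) l k +
      tp gam (rwp N (D.g i j) A B) l k)) ≤ (N + 1) * (exp (z : ℝ) ^ a₁ / 2 ^ (y * z)) := by
    refine pn_le ((Polynomial.natDegree_sub_le _ _).trans (max_le (rwp_deg _ _ _ _ _ _)
      ((Polynomial.natDegree_add_le _ _).trans (max_le ((flt_deg _ _).trans
      (rwp_deg _ _ _ _ _ _)) ((flt_deg _ _).trans (rwp_deg _ _ _ _ _ _)))))) fun m => ?_
    rw [Polynomial.coeff_sub, Polynomial.coeff_add, coeff_flt, coeff_flt]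
    rcases lt_trichotomy (gam k + m) (gam l) with h | h | h
    · rw [if_pos h, if_neg h.ne, add_zero, sub_self, abs_zero]
      positivity
    · rw [if_neg (by rw [h]; exact lt_irrefl _), if_pos h, zero_add, sub_self, abs_zero]
      positivity
    · rw [if_neg (not_lt.2 h.le), if_neg h.ne', add_zero, sub_zero, rwp_coeff]
      split_ifs
      · have h2 := (h1 lam gam K' J a₀ w₀ z M i j (i - 1) (j - r) D q κ t A B hlam hc1
          (by omega) (by omega) (by omega) (by omega) hO hA hB hcl l (by omega) hln).2 k hk1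
          (by omega) m
        refine h2.trans ?_
        rw [div_eq_mul_one_div]
        refine mul_le_mul_of_nonneg_left (rp_le ?_) (by positivity)
        have h3 := hpl.gap k l m hk1 (by omega) (by omega) hln h
        have h4 : ((j - r : ℕ) : ℝ) = j - r := by rw [Nat.cast_sub j1]
        rw [h4]
        nlinarith
      · rw [abs_zero]
        positivity
  refine key.trans ?_
  rw [pow_succ, ← mul_div_assoc]
  refine div_le_div_of_nonneg_right ?_ pY.le
  rw [mul_comm]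
  exact mul_le_mul_of_nonneg_left hcN (by positivity)

/-- The rows between two own frames with the same label: only the top degree. -/
theorem row_top (n K a N : ℕ) (C₁ : ℝ) (hC₁ : 1 ≤ C₁) : ∃ (a' : ℕ) (c₀ : ℝ),
    ∀ (lam gam : ℕ → ℝ) (K' J a₀ w₀ z M i j y r ρ : ℕ) (D : NDat2) (q : D.Ω → ℝ) (κ t : ℝ)
      (A B : ℕ → PN), (∀ l, 1 ≤ l → l ≤ n → lam l = 1) → c₀ ≤ exp (z : ℝ) →
      PlO n gam y r M i j → ρ ≤ i → D.Ok2 n K' J a₀ w₀ z M lam gam κ C₁ q → St K t A →
      St K t B → Cls n (D.g (i - 1) (j - r)) (exp z ^ a) A B →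
      Cls n (D.g (i - ρ) (j + r)) (exp z ^ a) A B →
      (∀ l ≤ n, ∀ k, 1 ≤ k → k < l → pn (rwp N (D.g i j) A B l k -
        tp gam (rwp N (D.g i j) A B) l k) ≤ exp z ^ a' / 2 ^ (y * z)) ∧
      ∀ l ≤ n, 1 ≤ l → ∀ m, |(rwp N (D.g i j) A B l 0).coeff m| ≤ exp z ^ a' *
        ((2 : ℝ) ^ ((ρ - gam l * r) * z) * (2 ^ (r * z)) ^ m) := by
  obtain ⟨a₁, c₁, h1⟩ := rwc_pl n K a C₁ hC₁
  refine ⟨a₁ + 1, max c₁ (N + 1), ?_⟩
  intro lam gam K' J a₀ w₀ z M i j y r ρ D q κ t A B hlam hc₀ hpl hρ hO hA hB hclL hclR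
  obtain ⟨hc1, hcN⟩ := max_le_iff.1 hc₀
  have hE : 1 ≤ exp (z : ℝ) := Real.one_le_exp (Nat.cast_nonneg z)
  have i1 := hpl.yi
  have y1 := hpl.y1
  have i2 := hpl.i2
  have j1 := hpl.j1
  have j2 := hpl.j2
  have pY : (0 : ℝ) < 2 ^ (y * z) := by positivity
  refine ⟨fun l hln k hk1 hkl => ?_, fun l hln hl1 m => ?_⟩
  · have key : pn (rwp N (D.g i j) A B l k - tp gam (rwp N (D.g i j) A B) l k) ≤
        (N + 1) * (exp (z : ℝ) ^ a₁ / 2 ^ (y * z)) := by
      refine pn_le ((Polynomial.natDegree_sub_le _ _).trans (max_le (rwp_deg _ _ _ _ _ _)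
        ((flt_deg _ _).trans (rwp_deg _ _ _ _ _ _)))) fun m => ?_
      rw [Polynomial.coeff_sub, coeff_flt, rwp_coeff]
      rcases lt_trichotomy (gam k + m) (gam l) with h | h | h
      · rw [if_neg h.ne, sub_zero]
        split_ifs
        · have h2 := (h1 lam gam K' J a₀ w₀ z M i j (i - ρ) (j + r) D q κ t A B hlam hc1
            (by omega) (by omega) (by omega) (by omega) hO hA hB hclR l (by omega) hln).2 k hk1
            (by omega) m
          refine h2.trans ?_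
          rw [div_eq_mul_one_div]
          refine mul_le_mul_of_nonneg_left (rp_le ?_) (by positivity)
          have h3 := hpl.gap' k l m hk1 (by omega) (by omega) hln h
          push_cast
          nlinarith
        · rw [abs_zero]
          positivity
      · rw [if_pos h, sub_self, abs_zero]
        positivity
      · rw [if_neg h.ne', sub_zero]
        split_ifs
        · have h2 := (h1 lam gam K' J a₀ w₀ z M i j (i - 1) (j - r) D q κ t A B hlam hc1
            (by omega) (by omega) (by omega) (by omega) hO hA hB hclL l (by omega) hln).2 k hk1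
            (by omega) m
          refine h2.trans ?_
          rw [div_eq_mul_one_div]
          refine mul_le_mul_of_nonneg_left (rp_le ?_) (by positivity)
          have h3 := hpl.gap k l m hk1 (by omega) (by omega) hln h
          have h4 : ((j - r : ℕ) : ℝ) = j - r := by rw [Nat.cast_sub j1]
          rw [h4]
          nlinarith
        · rw [abs_zero]
          positivity
    refine key.trans ?_
    rw [pow_succ, ← mul_div_assoc]
    refine div_le_div_of_nonneg_right ?_ pY.le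
    rw [mul_comm]
    exact mul_le_mul_of_nonneg_left hcN (by positivity)
  · rw [rwp_coeff]
    split_ifs
    · have h2 := (h1 lam gam K' J a₀ w₀ z M i j (i - ρ) (j + r) D q κ t A B hlam hc1
        (by omega) (by omega) (by omega) (by omega) hO hA hB hclR l hl1 hln).1 m
      refine h2.trans (mul_le_mul (pw hE (by omega)) (le_of_eq ?_) (by positivity)
        (by positivity))
      have h4 : ((i - ρ : ℕ) : ℝ) = i - ρ := by rw [Nat.cast_sub hρ]
      rw [← pow_mul, ← Real.rpow_natCast, ← Real.rpow_add (by norm_num), h4]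
      congr 1
      push_cast
      ring
    · rw [abs_zero]
      positivity

end Pool.TN98
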