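import Mathlib

/-!
# Own frames of every degree: the algebra

Polynomials in the relative time. `pn` is the `l¹` norm of the coefficients, `flt Q` the part with
the exponents in `Q`. `a l k` is the row of an own frame: line `l`, column `k` (column `0` are the
heights). `tp`, `lo` are the parts of degree `= gam l - gam k`, `< gam l - gam k`.
-/

set_option autoImplicit false

namespace Pool.TN98

open Finset Polynomial

/-! ### The norm -/

/-- The `l¹` norm. -/
noncomputable def pn (p : ℝ[X]) : ℝ := ∑ i ∈ p.support, |p.coeff i|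

theorem pn_nonneg (p : ℝ[X]) : 0 ≤ pn p := Finset.sum_nonneg fun _ _ => abs_nonneg _

theorem pn_eq {p : ℝ[X]} {s : Finset ℕ} (h : p.support ⊆ s) : pn p = ∑ i ∈ s, |p.coeff i| := by
  unfold pn
  refine Finset.sum_subset h fun i _ hi => ?_
  rw [notMem_support_iff.1 hi, abs_zero]

theorem pn_zero : pn 0 = 0 := by
  unfold pn
  rw [support_zero, Finset.sum_empty]

theorem pn_neg (p : ℝ[X]) : pn (-p) = pn p := by
  unfold pn
  rw [support_neg]
  refine Finset.sum_congr rfl fun i _ => ?_
  rw [coeff_neg, abs_neg]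

theorem pn_add (p q : ℝ[X]) : pn (p + q) ≤ pn p + pn q := by
  classical
  rw [pn_eq (p := p) (s := p.support ∪ q.support) Finset.subset_union_left,
    pn_eq (p := q) (s := p.support ∪ q.support) Finset.subset_union_right,
    pn_eq (p := p + q) (s := p.support ∪ q.support) support_add, ← Finset.sum_add_distrib]
  refine Finset.sum_le_sum fun i _ => ?_
  rw [coeff_add]
  exact abs_add_le _ _

theorem pn_sub (p q : ℝ[X]) : pn (p - q) ≤ pn p + pn q := by
  rw [sub_eq_add_neg, ← pn_neg q]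
  exact pn_add _ _

theorem pn_comm (p q : ℝ[X]) : pn (p - q) = pn (q - p) := by
  rw [← pn_neg, neg_sub]

theorem pn_sum {ι : Type} (s : Finset ι) (f : ι → ℝ[X]) : pn (∑ i ∈ s, f i) ≤ ∑ i ∈ s, pn (f i) := by
  classical
  induction s using Finset.induction_on with
  | empty => simp [pn_zero]
  | insert a s ha ih =>
    rw [Finset.sum_insert ha, Finset.sum_insert ha]
    exact (pn_add _ _).trans (add_le_add le_rfl ih)

theorem pn_monomial (n : ℕ) (c : ℝ) : pn (monomial n c) = |c| := by
  rw [pn_eq (support_monomial_subset n c), Finset.sum_singleton, coeff_monomial_same]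

theorem coeff_le_pn (p : ℝ[X]) (i : ℕ) : |p.coeff i| ≤ pn p := by
  by_cases h : i ∈ p.support
  · exact Finset.single_le_sum (f := fun i => |p.coeff i|) (fun _ _ => abs_nonneg _) h
  · rw [notMem_support_iff.1 h, abs_zero]
    exact pn_nonneg p

theorem pn_le {p : ℝ[X]} {N : ℕ} (h : p.natDegree ≤ N) {A : ℝ} (hA : ∀ i, |p.coeff i| ≤ A) :
    pn p ≤ (N + 1) * A := by
  rw [pn_eq (s := range (N + 1)) fun i hi => mem_range.2 (by
    have := le_natDegree_of_mem_supp i hi
    omega)]
  refine (Finset.sum_le_sum fun i _ => hA i).trans ?_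
  rw [Finset.sum_const, card_range, nsmul_eq_mul]
  push_cast
  exact le_rfl

theorem pn_mul (p q : ℝ[X]) : pn (p * q) ≤ pn p * pn q := by
  have h1 : p * q = ∑ i ∈ p.support, ∑ j ∈ q.support,
      monomial (i + j) (p.coeff i * q.coeff j) := by
    conv_lhs => rw [p.as_sum_support, q.as_sum_support, Finset.sum_mul_sum]
    refine Finset.sum_congr rfl fun i _ => Finset.sum_congr rfl fun j _ => ?_
    rw [monomial_mul_monomial]
  rw [h1]
  refine (pn_sum _ _).trans ?_
  unfold pn
  rw [Finset.sum_mul_sum]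
  refine Finset.sum_le_sum fun i _ => (pn_sum _ _).trans (Finset.sum_le_sum fun j _ => ?_)
  rw [pn_monomial, abs_mul]

theorem pn_mul_le {p q : ℝ[X]} {A B : ℝ} (hp : pn p ≤ A) (hq : pn q ≤ B) : pn (p * q) ≤ A * B :=
  (pn_mul p q).trans (mul_le_mul hp hq (pn_nonneg q) ((pn_nonneg p).trans hp))

theorem pn_sum_le {ι : Type} {s : Finset ι} {f : ι → ℝ[X]} {A : ℝ} (h : ∀ i ∈ s, pn (f i) ≤ A)
    {n : ℕ} (hs : s.card ≤ n) (hA : 0 ≤ A) : pn (∑ i ∈ s, f i) ≤ n * A := by
  refine (pn_sum s f).trans ((Finset.sum_le_sum h).trans ?_)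
  rw [Finset.sum_const, nsmul_eq_mul]
  exact mul_le_mul_of_nonneg_right (by exact_mod_cast hs) hA

/-! ### Filters -/

open Classical in
/-- The part with the exponents in `Q`. -/
noncomputable def flt (Q : ℕ → Prop) (p : ℝ[X]) : ℝ[X] :=
  ∑ i ∈ p.support.filter Q, monomial i (p.coeff i)

open Classical in
theorem coeff_flt (Q : ℕ → Prop) (p : ℝ[X]) (i : ℕ) :
    (flt Q p).coeff i = if Q i then p.coeff i else 0 := by
  unfold flt
  rw [finsetSum_coeff]
  simp only [coeff_monomial]
  rw [Finset.sum_ite_eq']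
  simp only [Finset.mem_filter, mem_support_iff]
  by_cases h1 : Q i <;> by_cases h2 : p.coeff i = 0 <;> simp [h1, h2]

theorem flt_add (Q : ℕ → Prop) (p q : ℝ[X]) : flt Q (p + q) = flt Q p + flt Q q := by
  ext i
  rw [coeff_add, coeff_flt, coeff_flt, coeff_flt, coeff_add]
  split_ifs <;> simp

theorem flt_neg (Q : ℕ → Prop) (p : ℝ[X]) : flt Q (-p) = -flt Q p := by
  ext i
  rw [coeff_neg, coeff_flt, coeff_flt, coeff_neg]
  split_ifs <;> simp

theorem flt_sub (Q : ℕ → Prop) (p q : ℝ[X]) : flt Q (p - q) = flt Q p - flt Q q := by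
  rw [sub_eq_add_neg, flt_add, flt_neg, sub_eq_add_neg]

theorem flt_zero (Q : ℕ → Prop) : flt Q 0 = 0 := by
  ext i
  rw [coeff_flt]
  simp

theorem flt_sum {ι : Type} (Q : ℕ → Prop) (s : Finset ι) (f : ι → ℝ[X]) :
    flt Q (∑ i ∈ s, f i) = ∑ i ∈ s, flt Q (f i) := by
  classical
  induction s using Finset.induction_on with
  | empty => simp [flt_zero]
  | insert a s ha ih => rw [Finset.sum_insert ha, Finset.sum_insert ha, flt_add, ih]

theorem pn_flt (Q : ℕ → Prop) (p : ℝ[X]) : pn (flt Q p) ≤ pn p := by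
  classical
  have h : (flt Q p).support ⊆ p.support := by
    intro i hi
    rw [mem_support_iff, coeff_flt] at hi
    rw [mem_support_iff]
    intro h
    apply hi
    rw [h]
    split_ifs <;> rfl
  rw [pn_eq h]
  unfold pn
  refine Finset.sum_le_sum fun i _ => ?_
  rw [coeff_flt]
  split_ifs
  · exact le_rfl
  · rw [abs_zero]
    exact abs_nonneg _

theorem flt_deg (Q : ℕ → Prop) (p : ℝ[X]) : (flt Q p).natDegree ≤ p.natDegree := by
  classical
  refine natDegree_le_iff_coeff_eq_zero.2 fun i hi => ?_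
  rw [coeff_flt, coeff_eq_zero_of_natDegree_lt hi]
  split_ifs <;> rfl

/-- A monomial, or zero. -/
theorem flt_top (x y : ℝ) (p : ℝ[X]) : flt (fun m => x + m = y) p = 0 ∨
    ∃ d : ℕ, x + d = y ∧ flt (fun m => x + m = y) p = C (p.coeff d) * X ^ d := by
  classical
  by_cases h : ∃ d : ℕ, x + d = y
  · obtain ⟨d, hd⟩ := h
    refine Or.inr ⟨d, hd, ?_⟩
    ext i
    rw [coeff_flt, coeff_C_mul, coeff_X_pow]
    by_cases h1 : i = d
    · rw [h1, if_pos hd, if_pos rfl, mul_one]
    · rw [if_neg h1, mul_zero, if_neg]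
      intro h2
      apply h1
      have : (i : ℝ) = d := by linarith
      exact_mod_cast this
  · left
    ext i
    rw [coeff_flt, if_neg fun h1 => h ⟨i, h1⟩]
    simp

/-! ### Rows -/

variable (gam : ℕ → ℝ) (a : ℕ → ℕ → ℝ[X])

/-- The top part. -/
noncomputable def tp (l k : ℕ) : ℝ[X] := flt (fun m => gam k + m = gam l) (a l k)

/-- The low part. -/
noncomputable def lo (l k : ℕ) : ℝ[X] := flt (fun m => gam k + m < gam l) (a l k)

/-- The own frame: the coefficients. -/
noncomputable def sg (l k : ℕ) : ℝ[X] :=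
  lo gam a l k + ∑ m ∈ (Ioo k l).attach, tp gam a l m.1 * sg m.1 k
termination_by l
decreasing_by exact (mem_Ioo.1 m.2).2

theorem sg_eq (l k : ℕ) : sg gam a l k = lo gam a l k +
    ∑ m ∈ Ioo k l, tp gam a l m * sg gam a m k := by
  rw [sg, Finset.sum_attach (Ioo k l) (fun m => tp gam a l m * sg gam a m k)]

/-- The height over the own frame. -/
noncomputable def zh (z : ℕ → ℝ[X]) (l : ℕ) : ℝ[X] :=
  z l - ∑ k ∈ Ico 1 l, sg gam a l k * z k

/-- Triangular double sums. -/
theorem tri_sum {R : Type} [AddCommMonoid R] (k l : ℕ) (f : ℕ → ℕ → R) :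
    ∑ m ∈ Ioo k l, ∑ p ∈ Ioo m l, f p m = ∑ p ∈ Ioo k l, ∑ m ∈ Ioo k p, f p m := by
  refine Finset.sum_comm' fun m p => ?_
  simp only [Finset.mem_Ioo]
  omega

theorem tri_sum' {R : Type} [AddCommMonoid R] (l : ℕ) (f : ℕ → ℕ → R) :
    ∑ k ∈ Ico 1 l, ∑ m ∈ Ioo k l, f m k = ∑ m ∈ Ico 1 l, ∑ k ∈ Ico 1 m, f m k := by
  refine Finset.sum_comm' fun k m => ?_
  simp only [Finset.mem_Ioo, Finset.mem_Ico]
  omega

/-- **The own coordinate, in the own frame.** -/
theorem zh_eq (z : ℕ → ℝ[X]) (l : ℕ) :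
    z l - ∑ k ∈ Ico 1 l, (lo gam a l k + tp gam a l k) * z k =
      zh gam a z l - ∑ m ∈ Ico 1 l, tp gam a l m * zh gam a z m := by
  have h1 : ∑ k ∈ Ico 1 l, sg gam a l k * z k = ∑ k ∈ Ico 1 l, lo gam a l k * z k +
      ∑ m ∈ Ico 1 l, tp gam a l m * ∑ k ∈ Ico 1 m, sg gam a m k * z k := by
    simp only [Finset.mul_sum]
    rw [← tri_sum' l fun m k => tp gam a l m * (sg gam a m k * z k), ← Finset.sum_add_distrib]
    refine Finset.sum_congr rfl fun k _ => ?_
    rw [sg_eq, add_mul, Finset.sum_mul]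
    congr 1
    refine Finset.sum_congr rfl fun m _ => ?_
    ring
  unfold zh
  rw [h1]
  simp only [add_mul, mul_sub, Finset.sum_add_distrib, Finset.sum_sub_distrib]
  ring

/-- Multiplication by a top part, filters. -/
theorem top_mul (R : ℝ → Prop) (l m k : ℕ) (p : ℝ[X]) :
    flt (fun i => R (gam k + i - gam l)) (tp gam a l m * p) =
      tp gam a l m * flt (fun i => R (gam k + i - gam m)) p := by
  classical
  unfold tp
  rcases flt_top (gam m) (gam l) (a l m) with h | ⟨d, hd, h⟩
  · rw [h, zero_mul, zero_mul, flt_zero]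
  · rw [h]
    ext i
    rw [coeff_flt, mul_assoc, mul_assoc, coeff_C_mul, coeff_C_mul, coeff_X_pow_mul',
      coeff_X_pow_mul', coeff_flt]
    by_cases h1 : d ≤ i
    · rw [if_pos h1, if_pos h1]
      have h2 : gam k + (i : ℝ) - gam l = gam k + ((i - d : ℕ) : ℝ) - gam m := by
        rw [Nat.cast_sub h1]
        linarith
      rw [h2]
      by_cases h3 : R (gam k + ((i - d : ℕ) : ℝ) - gam m)
      · rw [if_pos h3, if_pos h3]
      · rw [if_neg h3, if_neg h3, mul_zero]
    · rw [if_neg h1, if_neg h1, mul_zero]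
      split_ifs <;> rfl

theorem lo_top (l m k : ℕ) (p : ℝ[X]) : flt (fun i => gam k + i < gam l) (tp gam a l m * p) =
    tp gam a l m * flt (fun i => gam k + i < gam m) p := by
  have := top_mul gam a (fun x => x < 0) l m k p
  simpa only [sub_neg] using this

theorem tp_top (l m k : ℕ) (p : ℝ[X]) : flt (fun i => gam k + i = gam l) (tp gam a l m * p) =
    tp gam a l m * flt (fun i => gam k + i = gam m) p := by
  have := top_mul gam a (fun x => x = 0) l m k p
  simpa only [sub_eq_zero] using this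

theorem lo_tp (l k : ℕ) : flt (fun i => gam k + i < gam l) (tp gam a l k) = 0 := by
  classical
  ext i
  unfold tp
  rw [coeff_flt, coeff_flt]
  split_ifs with h1 h2
  · exact absurd h2 h1.ne
  · simp
  · simp

theorem tp_tp (l k : ℕ) : flt (fun i => gam k + i = gam l) (tp gam a l k) = tp gam a l k := by
  classical
  ext i
  unfold tp
  rw [coeff_flt, coeff_flt]
  split_ifs <;> rfl

theorem pn_tp (l k : ℕ) : pn (tp gam a l k) ≤ pn (a l k) := pn_flt _ _

theorem pn_lo (l k : ℕ) : pn (lo gam a l k) ≤ pn (a l k) := pn_flt _ _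

end Pool.TN98
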