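import Pool.Agent.H98.TIEN.Plc

/-!
# Own frames of every degree: the path of the line
-/

set_option autoImplicit false

namespace Pool.TN98

open Finset Real MvPolynomial
open Pool.Agent.H49.Ent Pool.Agent.H32.Dense Pool.STK Pool.STAT Pool.MIC.Frm Pool.MIC7 Pool.FRM
open Pool.P4O (Sy Cls Lv pw pw1 lev_le exp_pow)
open Pool.P4 (FrP PthC pp GoodS)
open Pool.P5L (OwF near_cls c_up)
open Pool.TNL (zp zp_eval zp_deg)

/-- Coefficients from the values on a short interval. -/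
theorem coef_short (N : ℕ) : ∃ C : ℝ, 1 ≤ C ∧ ∀ (p : Polynomial ℝ) (v A : ℝ), 0 < v →
    p.natDegree ≤ N → (∀ t : ℝ, 0 ≤ t → t ≤ 1 / v → |p.eval t| ≤ A) →
    ∀ m, |p.coeff m| ≤ C * A * v ^ m := by
  obtain ⟨C, hC, h⟩ := pn_of_sup N
  refine ⟨C, hC, ?_⟩
  intro p v A hv hN hA m
  have h1 := h (p.comp (Polynomial.C (1 / v) * Polynomial.X)) A ?_ fun t ht0 ht1 => ?_
  · have h2 := (coeff_le_pn _ m).trans h1
    rw [Polynomial.comp_C_mul_X_coeff, abs_mul, abs_pow, abs_of_pos (by positivity : 0 < 1 / v),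
      one_div, inv_pow, ← div_eq_mul_inv, div_le_iff₀ (by positivity)] at h2
    exact h2
  · refine Polynomial.natDegree_comp_le.trans ?_
    calc p.natDegree * (Polynomial.C (1 / v) * Polynomial.X : Polynomial ℝ).natDegree
        ≤ N * 1 := Nat.mul_le_mul hN ((Polynomial.natDegree_C_mul_le _ _).trans
          Polynomial.natDegree_X_le)
      _ = N := Nat.mul_one N
  · rw [Polynomial.eval_comp, Polynomial.eval_mul, Polynomial.eval_C, Polynomial.eval_X]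
    refine hA _ (by positivity) ?_
    calc 1 / v * t ≤ 1 / v * 1 := mul_le_mul_of_nonneg_left ht1 (by positivity)
      _ = 1 / v := mul_one _

/-- **The path over a frame, values.** -/
theorem nat_bd (n K K' : ℕ) (C : ℝ) : ∃ (a : ℕ) (c₀ : ℝ),
    ∀ (lam gam : ℕ → ℝ) (C₁ : ℝ) (J a₀ w₀ z M i j : ℕ) (D : NDat2) (q : D.Ω → ℝ) (κ : ℝ)
      (P : ℕ → PN) (ω : D.Ω), c₀ ≤ exp (z : ℝ) → i ≤ M → j ≤ M →
      D.Ok2 n K J a₀ w₀ z M lam gam κ C₁ q → TriN P → (∀ l, (P l).totalDegree ≤ K') →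
      PthC D n w₀ z M 1 ω →
      (∀ l ≤ n, nrm (D.g i j) (1 / 2) (chr P (D.Φ i j ω l - P l)) ≤
        exp (C * z) / 2 ^ D.g i j l) →
      ∀ t : ℝ, |t - D.X ω 0| ≤ 1 / 2 ^ (w₀ + j * z) → ∀ l ≤ n,
        |nat (D.g i j) P (pp D (D.ln ω) t) l| ≤ exp z ^ a := by
  obtain ⟨KK, hKK⟩ : ∃ KK : ℕ, KK = max K K' := ⟨_, rfl⟩
  have hK1 : K ≤ KK := by rw [hKK]; exact le_max_left _ _
  have hK2 : K' ≤ KK := by rw [hKK]; exact le_max_right _ _
  obtain ⟨c, hc⟩ := exists_nat_ge C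
  refine ⟨(c + 2) * dd (KK * (KK + 1) ^ n) n, 4, ?_⟩
  intro lam gam C₁ J a₀ w₀ z M i j D q κ P ω hc₀ hi hj hO hP dP hω hn t ht l hl
  have hE : 1 ≤ exp (z : ℝ) := Real.one_le_exp (Nat.cast_nonneg z)
  have hCz : exp (C * z) ≤ exp z ^ c := exp_pow z hc
  have q1 : exp (z : ℝ) ^ c ≤ exp z ^ (c + 1) := pw hE (by omega)
  have h1 := Pool.P4L.in_box hO hK1 hP (fun l => (dP l).trans hK2) (i := i) (j := j)
    hi hj (E := exp z ^ (c + 1)) (le_self_pow₀ hE (by omega)) hω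
    (fun l hl => (hn l hl).trans (div_le_div_of_nonneg_right (hCz.trans q1) (by positivity)))
    (t := t) ht l hl
  have h3 : (4 * exp (z : ℝ) ^ (c + 1)) ^ dd (KK * (KK + 1) ^ n) n ≤
      exp z ^ ((c + 2) * dd (KK * (KK + 1) ^ n) n) := by
    rw [pow_mul]
    refine pow_le_pow_left₀ (by positivity) ?_ _
    rw [pow_succ (exp (z : ℝ)) (c + 1), mul_comm (exp (z : ℝ) ^ (c + 1))]
    exact mul_le_mul_of_nonneg_right hc₀ (by positivity)
  unfold zs at h1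
  unfold nat
  rw [abs_mul, abs_of_pos (by positivity : (0 : ℝ) < 2 ^ D.g i j l), mul_comm]
  rw [le_div_iff₀ (by positivity)] at h1
  exact h1.trans h3

theorem zp_ev {D : NDat2} {i j : ℕ} {P : ℕ → PN} {ω : D.Ω} {l : ℕ} (τ : ℝ) :
    (zp D i j P ω l).eval τ =
      nat (D.g i j) P (pp D (D.ln ω) (D.X ω 0 + τ / 2 ^ D.g i j 0)) l := zp_eval 0 τ

/-- **The path over a frame.** -/
theorem zp_pn (n K K' : ℕ) (C : ℝ) : ∃ (a : ℕ) (c₀ : ℝ),
    ∀ (lam gam : ℕ → ℝ) (C₁ : ℝ) (J a₀ w₀ z M i j : ℕ) (D : NDat2) (q : D.Ω → ℝ) (κ : ℝ)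
      (P : ℕ → PN) (ω : D.Ω), c₀ ≤ exp (z : ℝ) → i ≤ M → j ≤ M →
      D.Ok2 n K J a₀ w₀ z M lam gam κ C₁ q → TriN P → (∀ l, (P l).totalDegree ≤ K') →
      PthC D n w₀ z M 1 ω →
      (∀ l ≤ n, nrm (D.g i j) (1 / 2) (chr P (D.Φ i j ω l - P l)) ≤
        exp (C * z) / 2 ^ D.g i j l) → ∀ l ≤ n, pn (zp D i j P ω l) ≤ exp z ^ a := by
  obtain ⟨a₁, c₁, h1⟩ := nat_bd n K K' C
  obtain ⟨C₂, hC₂, h2⟩ := pn_of_sup ((K' + 1) * (K + 1))
  refine ⟨a₁ + 1, max c₁ C₂, ?_⟩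
  intro lam gam C₁ J a₀ w₀ z M i j D q κ P ω hc₀ hi hj hO hP dP hω hn l hl
  obtain ⟨hc1, hc2⟩ := max_le_iff.1 hc₀
  have h3 := h2 (zp D i j P ω l) (exp z ^ a₁) (zp_deg hO.pa_deg dP) fun t ht0 ht1 => by
    rw [zp_ev]
    refine h1 lam gam C₁ J a₀ w₀ z M i j D q κ P ω hc1 hi hj hO hP dP hω hn _ ?_ l hl
    rw [add_sub_cancel_left, hO.g_zero, abs_of_nonneg (by positivity)]
    exact div_le_div_of_nonneg_right ht1 (by positivity)
  refine h3.trans ?_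
  rw [pow_succ, mul_comm]
  exact mul_le_mul_of_nonneg_left hc2 (by positivity)

/-- **The own path at the right place.** -/
theorem zp_own (n K K' : ℕ) (C₁ C : ℝ) (hC₁ : 1 ≤ C₁) : ∃ (a : ℕ) (c₀ : ℝ),
    ∀ (lam gam : ℕ → ℝ) (J a₀ w₀ z M i j r ρ : ℕ) (D : NDat2) (q : D.Ω → ℝ) (κ : ℝ)
      (V : ℕ → PN) (ω : D.Ω), (∀ l, 1 ≤ l → l ≤ n → lam l = 1) → c₀ ≤ exp (z : ℝ) → i < M →
      j + r < M → ρ ≤ i → D.Ok2 n K J a₀ w₀ z M lam gam κ C₁ q → OwF D n K' M z C ω V →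
      PthC D n w₀ z M 1 ω → ∀ l, 1 ≤ l → l ≤ n → ∀ m, |(zp D i j V ω l).coeff m| ≤
        exp z ^ a * ((2 : ℝ) ^ ((ρ - gam l * r) * z) * (2 ^ (r * z)) ^ m) := by
  obtain ⟨a₁, c₁, h1⟩ := nat_bd n K K' C
  obtain ⟨C₂, hC₂, h2⟩ := coef_short ((K' + 1) * (K + 1))
  obtain ⟨c, hc⟩ := exists_nat_ge (4 * C₁)
  refine ⟨a₁ + c + 1, max c₁ C₂, ?_⟩
  intro lam gam J a₀ w₀ z M i j r ρ D q κ V ω hlam hc₀ hi hj hρ hO hV hω l hl1 hln
  obtain ⟨hc1, hc2⟩ := max_le_iff.1 hc₀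
  have hC0 : 0 ≤ C₁ := by linarith
  have l1 := lvr (i₁ := i) (j₁ := j) (i₂ := i - ρ) (j₂ := j + r) hO hC0 hc hlam (by omega)
    (by omega) (by omega) (by omega) hl1 hln
  have h4 : ((i - ρ : ℕ) : ℝ) = i - ρ := by rw [Nat.cast_sub hρ]
  obtain ⟨U, hU⟩ : ∃ U : ℝ, U = (2 : ℝ) ^ ((ρ - gam l * r) * z) := ⟨_, rfl⟩
  have hU0 : 0 < U := by rw [hU]; positivity
  have e1 : (2 : ℝ) ^ D.g i j l / 2 ^ D.g (i - ρ) (j + r) l ≤ exp z ^ c * U := by
    refine l1.trans (le_of_eq ?_)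
    rw [h4, hU]
    congr 2
    push_cast
    ring
  intro m
  have h3 := h2 (zp D i j V ω l) (2 ^ (r * z)) (exp z ^ c * U * exp z ^ a₁) (by positivity)
    (zp_deg hO.pa_deg hV.deg) (fun t ht0 ht1 => by
      rw [zp_ev]
      have h5 := h1 lam gam C₁ J a₀ w₀ z M (i - ρ) (j + r) D q κ V ω hc1 (by omega) (by omega) hO
        hV.tri hV.deg hω (hV.near (i - ρ) (by omega) (j + r) (by omega))
        (D.X ω 0 + t / 2 ^ D.g i j 0) (by
          rw [add_sub_cancel_left, hO.g_zero, abs_of_nonneg (by positivity)]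
          have e2 : (1 : ℝ) / 2 ^ (w₀ + (j + r) * z) = 1 / 2 ^ (r * z) / 2 ^ (w₀ + j * z) := by
            have : w₀ + (j + r) * z = r * z + (w₀ + j * z) := by ring
            rw [this, pow_add, div_div]
          rw [e2]
          exact div_le_div_of_nonneg_right ht1 (by positivity)) l hln
      unfold nat at h5 ⊢
      rw [abs_mul, abs_of_pos (by positivity)] at h5 ⊢
      calc 2 ^ D.g i j l * _ = 2 ^ D.g i j l / 2 ^ D.g (i - ρ) (j + r) l *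
            (2 ^ D.g (i - ρ) (j + r) l *
              |pp D (D.ln ω) (D.X ω 0 + t / 2 ^ D.g i j 0) l -
                eval (pp D (D.ln ω) (D.X ω 0 + t / 2 ^ D.g i j 0)) (V l)|) := by
            rw [← mul_assoc, div_mul_cancel₀ _ (by positivity)]
        _ ≤ exp z ^ c * U * exp z ^ a₁ := mul_le_mul e1 h5 (by positivity) (by positivity)) m
  rw [← hU]
  refine h3.trans ?_
  calc C₂ * (exp (z : ℝ) ^ c * U * exp z ^ a₁) * (2 ^ (r * z)) ^ m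
      ≤ exp (z : ℝ) * (exp (z : ℝ) ^ c * U * exp z ^ a₁) * (2 ^ (r * z)) ^ m :=
        mul_le_mul_of_nonneg_right (mul_le_mul_of_nonneg_right hc2 (by positivity))
          (by positivity)
    _ = _ := by
        rw [pow_add, pow_add, pow_one]
        ring

end Pool.TN98
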