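import Pool.Agent.H98.TIEN.Stb

/-!
# Own frames of every degree: the heights of two lines with the same label

`Ob u v ε S p`: the coefficients of `p` are at most `S (u v ^ m + ε)`. `U l` is the natural size of
the line `l` of the label, `1 / v` the length of its window.
-/

set_option autoImplicit false

namespace Pool.TN98

open Finset Polynomial

/-- Sizes of the coefficients. -/
def Ob (u v ε S : ℝ) (p : ℝ[X]) : Prop := ∀ m, |p.coeff m| ≤ S * (u * v ^ m + ε)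

section ob

variable {u v ε S S' : ℝ} {p q : ℝ[X]}

theorem Ob.mono (h : Ob u v ε S p) (hu : 0 ≤ u) (hv : 0 ≤ v) (hε : 0 ≤ ε) (hS : S ≤ S') :
    Ob u v ε S' p := fun m =>
  (h m).trans (mul_le_mul_of_nonneg_right hS (by positivity))

theorem Ob.add (h : Ob u v ε S p) (h' : Ob u v ε S' q) : Ob u v ε (S + S') (p + q) := fun m => by
  rw [coeff_add, add_mul]
  exact (abs_add_le _ _).trans (add_le_add (h m) (h' m))

theorem Ob.neg (h : Ob u v ε S p) : Ob u v ε S (-p) := fun m => by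
  rw [coeff_neg, abs_neg]
  exact h m

theorem Ob.sub (h : Ob u v ε S p) (h' : Ob u v ε S' q) : Ob u v ε (S + S') (p - q) := by
  rw [sub_eq_add_neg]
  exact h.add h'.neg

theorem Ob_zero (hu : 0 ≤ u) (hv : 0 ≤ v) (hε : 0 ≤ ε) (hS : 0 ≤ S) : Ob u v ε S 0 := fun m => by
  rw [coeff_zero, abs_zero]
  positivity

theorem Ob_sum {ι : Type} {s : Finset ι} {f : ι → ℝ[X]} (hu : 0 ≤ u) (hv : 0 ≤ v) (hε : 0 ≤ ε)
    (hS : 0 ≤ S) (h : ∀ i ∈ s, Ob u v ε S (f i)) {n : ℕ} (hs : s.card ≤ n) :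
    Ob u v ε (n * S) (∑ i ∈ s, f i) := by
  intro m
  rw [finsetSum_coeff]
  refine (Finset.abs_sum_le_sum_abs _ _).trans
    ((Finset.sum_le_sum fun i hi => h i hi m).trans ?_)
  rw [Finset.sum_const, nsmul_eq_mul, mul_assoc]
  exact mul_le_mul_of_nonneg_right (by exact_mod_cast hs) (by positivity)

theorem Ob_pn (hu : 0 ≤ u) (hv : 0 ≤ v) (hS : 0 ≤ S) (h : pn p ≤ S * ε) :
    Ob u v ε S p := fun m => by
  refine (coeff_le_pn p m).trans (h.trans ?_)
  refine mul_le_mul_of_nonneg_left ?_ hS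
  have : 0 ≤ u * v ^ m := by positivity
  linarith

theorem Ob_top {gam : ℕ → ℝ} {a : ℕ → ℕ → ℝ[X]} {l k : ℕ} {u' W : ℝ} (hu : 0 ≤ u)
    (hu' : 0 ≤ u') (hv : 0 ≤ v) (hε : 0 ≤ ε) (hS : 0 ≤ S) (hW : 1 ≤ W) (ha : pn (a l k) ≤ W)
    (hU : ∀ d : ℕ, gam k + d = gam l → u ≤ W * (u' * v ^ d)) (h : Ob u v ε S p) :
    Ob u' v ε (W ^ 2 * S) (tp gam a l k * p) := by
  have hW0 : 0 ≤ W := by linarith
  unfold tp
  rcases flt_top (gam k) (gam l) (a l k) with h1 | ⟨d, hd, h1⟩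
  · rw [h1, zero_mul]
    exact Ob_zero hu' hv hε (by positivity)
  · rw [h1]
    intro m
    rw [mul_assoc, coeff_C_mul, coeff_X_pow_mul']
    by_cases h2 : d ≤ m
    · rw [if_pos h2, abs_mul]
      have e1 : |(a l k).coeff d| ≤ W := (coeff_le_pn _ _).trans ha
      have e2 := h (m - d)
      have e3 : u * v ^ (m - d) ≤ W * (u' * v ^ m) := by
        calc u * v ^ (m - d) ≤ W * (u' * v ^ d) * v ^ (m - d) :=
              mul_le_mul_of_nonneg_right (hU d hd) (by positivity)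
          _ = W * (u' * (v ^ d * v ^ (m - d))) := by ring
          _ = W * (u' * v ^ m) := by rw [← pow_add, Nat.add_sub_cancel' h2]
      calc |(a l k).coeff d| * |p.coeff (m - d)| ≤ W * (S * (u * v ^ (m - d) + ε)) :=
            mul_le_mul e1 e2 (abs_nonneg _) hW0
        _ ≤ W * (S * (W * (u' * v ^ m + ε))) := by
            refine mul_le_mul_of_nonneg_left (mul_le_mul_of_nonneg_left ?_ hS) hW0
            have : ε ≤ W * ε := le_mul_of_one_le_left hε hW
            linarith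
        _ = W ^ 2 * S * (u' * v ^ m + ε) := by ring
    · rw [if_neg h2, mul_zero, abs_zero]
      positivity

end ob

variable {n : ℕ} {gam : ℕ → ℝ} {W ε : ℝ} {a a' ν : ℕ → ℕ → ℝ[X]}

/-- The own coordinate. -/
noncomputable def yl (gam : ℕ → ℝ) (a : ℕ → ℕ → ℝ[X]) (z : ℕ → ℝ[X]) (l : ℕ) : ℝ[X] :=
  z l - a l 0 - ∑ k ∈ Ico 1 l, (lo gam a l k + tp gam a l k) * z k

theorem yl_eq (gam : ℕ → ℝ) (a : ℕ → ℕ → ℝ[X]) (z : ℕ → ℝ[X]) (l : ℕ) :
    yl gam a z l = zh gam a z l - a l 0 - ∑ m ∈ Ico 1 l, tp gam a l m * zh gam a z m := by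
  have := zh_eq gam a z l
  unfold yl
  linear_combination this

/-- **The difference of the heights.** -/
theorem dif_eq (gam : ℕ → ℝ) (a a' ν : ℕ → ℕ → ℝ[X]) (z z' : ℕ → ℝ[X]) (l : ℕ) :
    zh gam a z l - zh gam a' z' l =
      yl gam a z l - yl gam a' z' l - ν l 0 +
      ∑ m ∈ Ico 1 l, tp gam a l m * (zh gam a z m - zh gam a' z' m) +
      ∑ m ∈ Ico 1 l, tp gam ν l m * (-yl gam a z m + (zh gam a z m - zh gam a' z' m) -
        ∑ p ∈ Ico 1 m, tp gam a m p * (zh gam a z p - zh gam a' z' p)) +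
      ∑ m ∈ Ico 1 l, (ν l m - tp gam ν l m) * a m 0 -
      (a' l 0 - (a l 0 + ν l 0 - ∑ m ∈ Ioo 0 l, ν l m * a m 0)) -
      ∑ m ∈ Ico 1 l, (tp gam a' l m - (tp gam a l m + tp gam ν l m -
        ∑ p ∈ Ioo m l, tp gam ν l p * tp gam a p m)) * zh gam a' z' m := by
  have h1 := yl_eq gam a z l
  have h2 := yl_eq gam a' z' l
  have h3 : ∀ m, -yl gam a z m + (zh gam a z m - zh gam a' z' m) -
      ∑ p ∈ Ico 1 m, tp gam a m p * (zh gam a z p - zh gam a' z' p) =
      a m 0 - zh gam a' z' m + ∑ p ∈ Ico 1 m, tp gam a m p * zh gam a' z' p := by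
    intro m
    rw [yl_eq gam a z m]
    simp only [mul_sub, Finset.sum_sub_distrib]
    ring
  have h4 : Ioo 0 l = Ico 1 l := by
    ext x
    simp only [Finset.mem_Ioo, Finset.mem_Ico]
    omega
  have h5 : ∑ m ∈ Ico 1 l, tp gam ν l m * ∑ p ∈ Ico 1 m, tp gam a m p * zh gam a' z' p =
      ∑ m ∈ Ico 1 l, (∑ p ∈ Ioo m l, tp gam ν l p * tp gam a p m) * zh gam a' z' m := by
    simp only [Finset.mul_sum, Finset.sum_mul]
    rw [← tri_sum' l fun m p => tp gam ν l m * (tp gam a m p * zh gam a' z' p)]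
    refine Finset.sum_congr rfl fun m _ => Finset.sum_congr rfl fun p _ => ?_
    ring
  simp only [h3]
  rw [h1, h2, h4]
  simp only [mul_add, mul_sub, add_mul, sub_mul, Finset.sum_add_distrib,
    Finset.sum_sub_distrib]
  rw [h5]
  ring

/-- Bounds of the heights. -/
theorem zh_bd {b : ℕ} {l : ℕ} (hW : (n : ℝ) + 4 ≤ W) (hl : l ≤ n) {z : ℕ → ℝ[X]}
    (hs : ∀ k < l, pn (sg gam a l k) ≤ W ^ b) (hz : ∀ k ≤ n, pn (z k) ≤ W) :
    pn (zh gam a z l) ≤ W ^ (b + 3) := by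
  have hn : (0 : ℝ) ≤ n := Nat.cast_nonneg n
  have W1 : 1 ≤ W := by linarith
  unfold zh
  refine (pn_sub _ _).trans ?_
  have h2 : pn (∑ k ∈ Ico 1 l, sg gam a l k * z k) ≤ n * (W ^ b * W) := by
    refine pn_sum_le (fun k hk => ?_) (card_Ico_le hl) (by positivity)
    obtain ⟨k1, k2⟩ := mem_Ico.1 hk
    exact pn_mul_le (hs k k2) (hz k (by omega))
  have h3 : W ≤ W ^ (b + 1) := by
    calc W = W ^ 1 := (pow_one W).symm
      _ ≤ _ := Wp W1 (by omega)
  have h4 : W ^ b * W = W ^ (b + 1) := by ring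
  rw [h4] at h2
  have h5 : W ^ (b + 3) = W ^ (b + 1) * W ^ 2 := by ring
  have h6 : (0 : ℝ) ≤ W ^ (b + 1) := by positivity
  have h7 : 1 + n ≤ W ^ 2 := by nlinarith
  have h8 := hz l hl
  calc _ ≤ W ^ (b + 1) + n * W ^ (b + 1) := by linarith
    _ = W ^ (b + 1) * (1 + n) := by ring
    _ ≤ W ^ (b + 1) * W ^ 2 := mul_le_mul_of_nonneg_left h7 h6
    _ = _ := h5.symm

/-- **Two lines with the same label.** -/
theorem zh_stab (n : ℕ) : ∃ c : ℕ, ∀ (gam : ℕ → ℝ) (W ε v : ℝ) (U : ℕ → ℝ)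
    (a a' ν : ℕ → ℕ → ℝ[X]) (z z' : ℕ → ℝ[X]), Two n gam W ε a a' ν → 0 ≤ v →
    (∀ l, 0 ≤ U l) → (∀ l ≤ n, ∀ k, 1 ≤ k → k < l → ∀ d : ℕ, gam k + d = gam l →
      U k ≤ W * (U l * v ^ d)) →
    (∀ l ≤ n, pn (z l) ≤ W) → (∀ l ≤ n, pn (z' l) ≤ W) →
    (∀ l ≤ n, 1 ≤ l → Ob (U l) v ε W (yl gam a z l)) →
    (∀ l ≤ n, 1 ≤ l → Ob (U l) v ε W (yl gam a' z' l)) →
    (∀ l ≤ n, 1 ≤ l → Ob (U l) v ε W (ν l 0)) →
    ∀ l ≤ n, 1 ≤ l → Ob (U l) v ε (W ^ c) (zh gam a z l - zh gam a' z' l) := by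
  obtain ⟨b, hb⟩ := sg_bd n
  have main : ∀ N ≤ n, ∃ c : ℕ, ∀ (gam : ℕ → ℝ) (W ε v : ℝ) (U : ℕ → ℝ)
      (a a' ν : ℕ → ℕ → ℝ[X]) (z z' : ℕ → ℝ[X]), Two n gam W ε a a' ν → 0 ≤ v →
      (∀ l, 0 ≤ U l) → (∀ l ≤ n, ∀ k, 1 ≤ k → k < l → ∀ d : ℕ, gam k + d = gam l →
        U k ≤ W * (U l * v ^ d)) →
      (∀ l ≤ n, pn (z l) ≤ W) → (∀ l ≤ n, pn (z' l) ≤ W) →
      (∀ l ≤ n, 1 ≤ l → Ob (U l) v ε W (yl gam a z l)) →
      (∀ l ≤ n, 1 ≤ l → Ob (U l) v ε W (yl gam a' z' l)) →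
      (∀ l ≤ n, 1 ≤ l → Ob (U l) v ε W (ν l 0)) →
      ∀ l ≤ N, 1 ≤ l → Ob (U l) v ε (W ^ c) (zh gam a z l - zh gam a' z' l) := by
    intro N
    induction N with
    | zero => exact fun _ => ⟨0, fun _ _ _ _ _ _ _ _ _ _ _ _ _ _ _ _ _ _ _ l hl h1 =>
        absurd h1 (by omega)⟩
    | succ N ih =>
      intro hN
      obtain ⟨c, hc⟩ := ih (by omega)
      obtain ⟨e, he⟩ : ∃ e : ℕ, e = c + b + 12 := ⟨_, rfl⟩
      refine ⟨e + 2, fun gam W ε v U a a' ν z z' H hv hU0 hU hz hz' hy hy' hν l hl hl1 => ?_⟩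
      have hn : (0 : ℝ) ≤ n := Nat.cast_nonneg n
      have W1 := H.o1
      have hW := H.W1
      have ε0 := H.ε0
      rcases Nat.lt_or_ge l (N + 1) with h | h
      · exact (hc gam W ε v U a a' ν z z' H hv hU0 hU hz hz' hy hy' hν l (by omega) hl1).mono
          (hU0 l) hv ε0 (Wp W1 (by omega))
      have hlN : l ≤ n := by omega
      have IH : ∀ m, 1 ≤ m → m < l → Ob (U m) v ε (W ^ c) (zh gam a z m - zh gam a' z' m) :=
        fun m h1 h2 => hc gam W ε v U a a' ν z z' H hv hU0 hU hz hz' hy hy' hν m (by omega) h1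
      -- powers
      have P : ∀ (i : ℕ), 0 ≤ W ^ i := fun i => by positivity
      have nW : (n : ℝ) ≤ W := by linarith
      have absorb : ∀ {i j : ℕ} {x : ℝ}, x ≤ W ^ i → i + 1 ≤ j → n * x ≤ W ^ j := by
        intro i j x hx hij
        calc n * x ≤ n * W ^ i := mul_le_mul_of_nonneg_left hx hn
          _ ≤ W * W ^ i := mul_le_mul_of_nonneg_right nW (P i)
          _ = W ^ (i + 1) := by ring
          _ ≤ W ^ j := Wp W1 hij
      have wle : W ≤ W ^ e := by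
        calc W = W ^ 1 := (pow_one W).symm
          _ ≤ _ := Wp W1 (by omega)
      -- the terms
      have t1 : Ob (U l) v ε (W ^ e) (yl gam a z l) := (hy l hlN hl1).mono (hU0 l) hv ε0 wle
      have t2 : Ob (U l) v ε (W ^ e) (yl gam a' z' l) := (hy' l hlN hl1).mono (hU0 l) hv ε0 wle
      have t3 : Ob (U l) v ε (W ^ e) (ν l 0) := (hν l hlN hl1).mono (hU0 l) hv ε0 wle
      have t4 : Ob (U l) v ε (W ^ e)
          (∑ m ∈ Ico 1 l, tp gam a l m * (zh gam a z m - zh gam a' z' m)) := by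
        refine (Ob_sum (hU0 l) hv ε0 (by positivity : 0 ≤ W ^ 2 * W ^ c) (fun m hm => ?_)
          (card_Ico_le hlN)).mono (hU0 l) hv ε0 (absorb (i := c + 2) (by
            rw [← pow_add]
            exact Wp W1 (by omega)) (by omega))
        obtain ⟨m1, m2⟩ := mem_Ico.1 hm
        exact Ob_top (hU0 m) (hU0 l) hv ε0 (P c) W1 (H.ba l hlN m m2) (hU l hlN m m1 m2)
          (IH m m1 m2)
      have t5 : Ob (U l) v ε (W ^ e)
          (∑ m ∈ Ico 1 l, tp gam ν l m * (-yl gam a z m + (zh gam a z m - zh gam a' z' m) -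
            ∑ p ∈ Ico 1 m, tp gam a m p * (zh gam a z p - zh gam a' z' p))) := by
        refine (Ob_sum (hU0 l) hv ε0 (by positivity : 0 ≤ W ^ 2 * W ^ (c + 5)) (fun m hm => ?_)
          (card_Ico_le hlN)).mono (hU0 l) hv ε0 (absorb (i := c + 7) (by
            rw [← pow_add]
            exact Wp W1 (by omega)) (by omega))
        obtain ⟨m1, m2⟩ := mem_Ico.1 hm
        refine Ob_top (hU0 m) (hU0 l) hv ε0 (P _) W1 (H.bν l hlN m m2) (hU l hlN m m1 m2) ?_
        have s1 : Ob (U m) v ε W (yl gam a z m) := hy m (by omega) m1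
        have s2 := IH m m1 m2
        have s3 : Ob (U m) v ε (n * (W ^ 2 * W ^ c))
            (∑ p ∈ Ico 1 m, tp gam a m p * (zh gam a z p - zh gam a' z' p)) := by
          refine Ob_sum (hU0 m) hv ε0 (by positivity) (fun p hp => ?_)
            (card_Ico_le (by omega : m ≤ n))
          obtain ⟨p1, p2⟩ := mem_Ico.1 hp
          exact Ob_top (hU0 p) (hU0 m) hv ε0 (P c) W1 (H.ba m (by omega) p p2)
            (hU m (by omega) p p1 p2) (IH p p1 (by omega))
        refine ((s1.neg.add s2).sub s3).mono (hU0 m) hv ε0 ?_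
        have e1 : n * (W ^ 2 * W ^ c) ≤ W ^ (c + 3) := absorb (i := c + 2) (by
          rw [← pow_add]
          exact Wp W1 (by omega)) (by omega)
        have e2 : W ≤ W ^ (c + 3) := by
          calc W = W ^ 1 := (pow_one W).symm
            _ ≤ _ := Wp W1 (by omega)
        have e3 : W ^ c ≤ W ^ (c + 3) := Wp W1 (by omega)
        have e4 : 3 * W ^ (c + 3) ≤ W ^ (c + 5) := by
          have : W ^ (c + 5) = W ^ 2 * W ^ (c + 3) := by ring
          rw [this]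
          exact mul_le_mul_of_nonneg_right (by nlinarith) (P _)
        linarith
      have t6 : Ob (U l) v ε (W ^ e) (∑ m ∈ Ico 1 l, (ν l m - tp gam ν l m) * a m 0) := by
        refine Ob_pn (hU0 l) hv (P e) ?_
        have e1 : pn (∑ m ∈ Ico 1 l, (ν l m - tp gam ν l m) * a m 0) ≤ n * (ε * W) := by
          refine pn_sum_le (fun m hm => ?_) (card_Ico_le hlN) (by positivity)
          obtain ⟨m1, m2⟩ := mem_Ico.1 hm
          exact pn_mul_le (H.top l hlN m m1 m2) (H.ba m (by omega) 0 (by omega))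
        refine e1.trans ?_
        have e2 : n * W ≤ W ^ e := absorb (i := 1) (by rw [pow_one]) (by omega)
        calc n * (ε * W) = n * W * ε := by ring
          _ ≤ _ := mul_le_mul_of_nonneg_right e2 ε0
      have t7 : Ob (U l) v ε (W ^ e)
          (a' l 0 - (a l 0 + ν l 0 - ∑ m ∈ Ioo 0 l, ν l m * a m 0)) := by
        refine Ob_pn (hU0 l) hv (P e) ((H.rel l hlN 0 (by omega)).trans ?_)
        exact le_mul_of_one_le_left ε0 (one_le_pow₀ W1)
      have t8 : Ob (U l) v ε (W ^ e) (∑ m ∈ Ico 1 l, (tp gam a' l m - (tp gam a l m +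
          tp gam ν l m - ∑ p ∈ Ioo m l, tp gam ν l p * tp gam a p m)) * zh gam a' z' m) := by
        refine Ob_pn (hU0 l) hv (P e) ?_
        have e1 : pn (∑ m ∈ Ico 1 l, (tp gam a' l m - (tp gam a l m +
            tp gam ν l m - ∑ p ∈ Ioo m l, tp gam ν l p * tp gam a p m)) * zh gam a' z' m) ≤
            n * (W ^ 3 * ε * W ^ (b + 3)) := by
          refine pn_sum_le (fun m hm => ?_) (card_Ico_le hlN) (by positivity)
          obtain ⟨m1, m2⟩ := mem_Ico.1 hm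
          exact pn_mul_le (H.tp hlN m1 m2) (zh_bd hW (by omega)
            (fun k hk => hb gam W a' hW H.ba' m (by omega) k hk) hz')
        refine e1.trans ?_
        have e2 : n * (W ^ 3 * W ^ (b + 3)) ≤ W ^ e := absorb (i := b + 6) (by
          rw [← pow_add]
          exact Wp W1 (by omega)) (by omega)
        calc n * (W ^ 3 * ε * W ^ (b + 3)) = n * (W ^ 3 * W ^ (b + 3)) * ε := by ring
          _ ≤ _ := mul_le_mul_of_nonneg_right e2 ε0
      rw [dif_eq gam a a' ν z z' l]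
      refine ((((((((t1.sub t2).sub t3).add t4).add t5).add t6).sub t7).sub t8)).mono
        (hU0 l) hv ε0 ?_
      have : W ^ (e + 2) = W ^ 2 * W ^ e := by ring
      rw [this]
      have h8 : (8 : ℝ) ≤ W ^ 2 := by nlinarith
      have := mul_le_mul_of_nonneg_right h8 (P e)
      linarith
  exact main n le_rfl

end Pool.TN98
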