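import Pool.Agent.H98.TIEN.Row
import Pool.Agent.H98.TIEN.Rsd
import Pool.Agent.H20.KAL.TAY

/-!
# Own frames of every degree: the rows of three systems
-/

set_option autoImplicit false

namespace Pool.TN98

open Finset Real
open MvPolynomial (eval totalDegree)
open Pool.STAT Pool.MIC.Frm Pool.MIC7 Pool.FRM Pool.P4O

/-- The norm from the values. -/
theorem pn_of_sup (N : ℕ) : ∃ C : ℝ, 1 ≤ C ∧ ∀ (q : Polynomial ℝ) (M : ℝ), q.natDegree ≤ N →
    (∀ t : ℝ, 0 ≤ t → t ≤ 1 → |q.eval t| ≤ M) → pn q ≤ C * M := by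
  obtain ⟨C, hC, h⟩ := Pool.KAL.TAY.coef_bound N
  refine ⟨(N + 1) * C + 1, ?_, ?_⟩
  · have : 0 ≤ ((N : ℝ) + 1) * C := by positivity
    linarith
  intro q M hq hM
  have hM0 : 0 ≤ M := le_trans (abs_nonneg _) (hM 0 le_rfl zero_le_one)
  have h1 : pn q ≤ (N + 1) * (C * M) := by
    refine pn_le hq fun i => ?_
    rcases Nat.lt_or_ge N i with h2 | h2
    · rw [Polynomial.coeff_eq_zero_of_natDegree_lt (by omega), abs_zero]
      positivity
    · exact h q M hq hM i h2
  nlinarith

theorem eval_le_pn (p : Polynomial ℝ) {t : ℝ} (ht : |t| ≤ 1) : |p.eval t| ≤ pn p := by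
  rw [Polynomial.eval_eq_sum, Polynomial.sum]
  refine (Finset.abs_sum_le_sum_abs _ _).trans ?_
  unfold pn
  refine Finset.sum_le_sum fun i _ => ?_
  rw [abs_mul, abs_pow]
  exact mul_le_of_le_one_right (abs_nonneg _) (pow_le_one₀ (abs_nonneg _) ht)

/-- Bounds of the rows. -/
theorem rwp_pn (n K a N : ℕ) : ∃ (a' : ℕ) (c₀ : ℝ), ∀ (E t : ℝ) (g : ℕ → ℕ) (A B : ℕ → PN),
    1 ≤ E → c₀ ≤ E → St K t A → St K t B → Cls n g (E ^ a) A B → ∀ l, 1 ≤ l → l ≤ n → ∀ k,
    pn (rwp N g A B l k) ≤ E ^ a' := by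
  obtain ⟨a₁, c₁, h1⟩ := rwc_far n K a
  refine ⟨a₁ + 1, max c₁ (N + 1), ?_⟩
  intro E t g A B hE hc hA hB hcl l hl1 hln k
  have hc1 : c₁ ≤ E := (le_max_left _ _).trans hc
  have hcN : (N : ℝ) + 1 ≤ E := (le_max_right _ _).trans hc
  have h2 : pn (rwp N g A B l k) ≤ (N + 1) * E ^ a₁ := by
    refine pn_le (rwp_deg N g A B l k) fun m => ?_
    rw [rwp_coeff]
    split_ifs
    · have := h1 E t g g A B hE hc1 hA hB hcl l hl1 hln k m
      rw [div_self (by positivity), div_self (by positivity), mul_one, mul_one] at this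
      exact this
    · rw [abs_zero]
      positivity
  refine h2.trans ?_
  rw [pow_succ, mul_comm (E ^ a₁)]
  exact mul_le_mul_of_nonneg_right hcN (by positivity)

/-- Coefficients of linear forms. -/
theorem lin_extract {N : ℕ} : ∃ C : ℝ, 1 ≤ C ∧ ∀ (r : ℕ → Polynomial ℝ) (l : ℕ) (B : ℝ),
    (∀ k < l, (r k).natDegree ≤ N) →
    (∀ z : ℕ → ℝ, (∀ i, |z i| ≤ 1) → |∑ k ∈ range l, (r k).eval (z 0) * zt1 z k| ≤ B) →
    ∀ k < l, pn (r k) ≤ C * B := by
  classical
  obtain ⟨C, hC, h⟩ := pn_of_sup N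
  refine ⟨C * 2, by linarith, ?_⟩
  intro r l B hd hB
  have hB0 : 0 ≤ B := (abs_nonneg _).trans (hB (fun _ => 0) fun _ => by simp)
  -- the constant column
  have h0 : 0 < l → ∀ t : ℝ, 0 ≤ t → t ≤ 1 → |(r 0).eval t| ≤ B := by
    intro hl t t0 t1
    have e := hB (fun i => if i = 0 then t else 0) (fun i => by
      by_cases hi : i = 0
      · simp only [hi, if_true]
        rw [abs_of_nonneg t0]
        exact t1
      · simp only [hi, if_false]
        simp)
    rw [Finset.sum_eq_single 0] at e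
    · simpa [zt1] using e
    · intro k _ hk
      simp [zt1, hk]
    · intro hh
      exact absurd (mem_range.2 hl) hh
  intro k hk
  have hl : 0 < l := by omega
  rcases Nat.eq_zero_or_pos k with hk0 | hk0
  · rw [hk0]
    have := h (r 0) B (hd 0 hl) (h0 hl)
    have h3 : C * B ≤ C * 2 * B := by nlinarith
    linarith
  · have h1 : ∀ t : ℝ, 0 ≤ t → t ≤ 1 → |(r k).eval t| ≤ 2 * B := by
      intro t t0 t1
      have e := hB (fun i => if i = 0 then t else if i = k then 1 else 0) (fun i => by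
        by_cases hi : i = 0
        · simp only [hi, if_true]
          rw [abs_of_nonneg t0]
          exact t1
        · simp only [hi, if_false]
          by_cases hik : i = k
          · simp [hik]
          · simp [hik])
      have e2 : ∑ k' ∈ range l, (r k').eval ((fun i => if i = 0 then t else if i = k then 1
          else 0) 0) * zt1 (fun i => if i = 0 then t else if i = k then 1 else 0) k' =
          (r 0).eval t + (r k).eval t := by
        have hne : k ≠ 0 := by omega
        rw [← Finset.add_sum_erase _ _ (mem_range.2 hl),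
          ← Finset.add_sum_erase _ _ (Finset.mem_erase.2 ⟨hne, mem_range.2 hk⟩),
          Finset.sum_eq_zero]
        · simp [zt1, hne]
        · intro k' hk'
          have a1 := Finset.ne_of_mem_erase hk'
          have a2 := Finset.ne_of_mem_erase (Finset.mem_of_mem_erase hk')
          simp [zt1, a1, a2]
      rw [e2] at e
      have e3 := h0 hl t t0 t1
      rw [abs_le] at e e3 ⊢
      constructor <;> linarith [e.1, e.2, e3.1, e3.2]
    have := h (r k) (2 * B) (hd k hk) h1
    linarith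

/-- **The rows of three systems.** -/
theorem rows_rel (n K a N : ℕ) : ∃ (c : ℕ) (c₀ : ℝ), ∀ (E t σ : ℝ) (g g₀ : ℕ → ℕ)
    (P V V' : ℕ → PN), 1 ≤ E → c₀ ≤ E → 1 ≤ σ → St K t P → St K t V → St K t V' →
    Cls n g (E ^ a) P V → Cls n g₀ (E ^ a) P V → Cls n g (E ^ a) P V' → Cls n g₀ (E ^ a) P V' →
    Cls n g (E ^ a) V V' → Cls n g₀ (E ^ a) V V' → Lv n g g₀ σ (E ^ a) → g 0 = g₀ 0 →
    K * (K + 1) ^ n ≤ N → ∀ l ≤ n, ∀ k < l,
    pn (rwp N g P V' l k - (rwp N g P V l k + rwp N g V V' l k -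
      ∑ m ∈ Ioo k l, rwp N g V V' l m * rwp N g P V m k)) ≤ E ^ c / σ := by
  obtain ⟨a₁, c₁, h1⟩ := row_aff n K (a + 2)
  obtain ⟨a₂, c₂, h2⟩ := rwp_pn n K a N
  obtain ⟨C, hC, h3⟩ := lin_extract (N := 2 * N)
  refine ⟨(a₂ + a₁ + 3) + 1, max (max c₁ c₂) (max (n + 4) C), ?_⟩
  intro E t σ g g₀ P V V' hE hc hσ hP hV hV' PV PV0 PV' PV0' VV VV0 hL hg0 hN l hl
  obtain ⟨hcA, hcB⟩ := max_le_iff.1 hc
  obtain ⟨hc1, hc2⟩ := max_le_iff.1 hcA
  obtain ⟨hcn, hcC⟩ := max_le_iff.1 hcB
  have hn : (0 : ℝ) ≤ n := Nat.cast_nonneg n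
  have hE0 : 0 < E := by linarith
  have hσ0 : 0 < σ := by linarith
  have mE : E ^ a ≤ E ^ (a + 2) := pw hE (by omega)
  have pa := pw1 hE a
  intro k hkl
  have hl1 : 1 ≤ l := by omega
  have hL' := Lv.mono hL (by linarith) mE
  -- the linear form
  obtain ⟨r, hr⟩ : ∃ r : ℕ → Polynomial ℝ, r = fun k => rwp N g P V' l k - (rwp N g P V l k +
    rwp N g V V' l k - ∑ m ∈ Ioo k l, rwp N g V V' l m * rwp N g P V m k) := ⟨_, rfl⟩
  have hrd : ∀ k < l, (r k).natDegree ≤ 2 * N := by
    intro k _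
    rw [hr]
    refine (Polynomial.natDegree_sub_le _ _).trans (max_le ((rwp_deg _ _ _ _ _ _).trans
      (by omega)) ((Polynomial.natDegree_sub_le _ _).trans (max_le
      ((Polynomial.natDegree_add_le _ _).trans (max_le ((rwp_deg _ _ _ _ _ _).trans
      (by omega)) ((rwp_deg _ _ _ _ _ _).trans (by omega)))) ?_)))
    refine Polynomial.natDegree_sum_le_of_forall_le _ _ fun m _ => ?_
    refine Polynomial.natDegree_mul_le.trans ?_
    have e1 := rwp_deg N g V V' l m
    have e2 := rwp_deg N g P V m k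
    omega
  have key : ∀ z : ℕ → ℝ, (∀ i, |z i| ≤ 1) →
      |∑ k ∈ range l, (r k).eval (z 0) * zt1 z k| ≤ E ^ (a₂ + a₁ + 3) / σ := by
    intro z hz
    obtain ⟨b, hb⟩ : ∃ b : ℕ → ℝ, b = pt g P z := ⟨_, rfl⟩
    have hbz : nat g P b = z := by
      rw [hb]
      exact nat_pt hP.tri z
    have box1 : ∀ l, ∀ m < l, |nat g P b m| ≤ E ^ (a + 2) := fun l m _ => by
      rw [hbz]
      exact (hz m).trans (pw1 hE _)
    have A1 : ∀ l, 1 ≤ l → l ≤ n → |2 ^ g l * (eval b (V l) - eval b (P l)) -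
        ∑ k ∈ range l, (rwp N g P V l k).eval (z 0) * zt1 z k| ≤ E ^ a₁ / σ := by
      intro l l1 ln
      have := h1 E t σ g g₀ P V N hE hc1 hσ hP hV (PV.mono mE) (PV0.mono mE) hL' hg0 hN l l1 ln b
        (box1 l)
      rw [hbz] at this
      exact this
    have A1' : |2 ^ g l * (eval b (V' l) - eval b (P l)) -
        ∑ k ∈ range l, (rwp N g P V' l k).eval (z 0) * zt1 z k| ≤ E ^ a₁ / σ := by
      have := h1 E t σ g g₀ P V' N hE hc1 hσ hP hV' (PV'.mono mE) (PV0'.mono mE) hL' hg0 hN l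
        hl1 hl b (box1 l)
      rw [hbz] at this
      exact this
    have y0 : nat g V b 0 = z 0 := by
      rw [hV.nat0, ← hP.nat0, hbz]
    have yk : ∀ m, nat g V b m = z m - 2 ^ g m * (eval b (V m) - eval b (P m)) := by
      intro m
      have : z m = nat g P b m := by rw [hbz]
      rw [this]
      unfold nat
      ring
    have ybd : ∀ m < l, |nat g V b m| ≤ E ^ (a + 2) := by
      intro m hm
      rcases Nat.eq_zero_or_pos m with h0 | h0
      · rw [h0, y0]
        exact (hz 0).trans (pw1 hE _)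
      · rw [yk]
        have e1 := PV m h0 (by omega) b (fun k _ => by
          rw [hbz]
          exact hz k)
        have e2 : |2 ^ g m * (eval b (V m) - eval b (P m))| ≤ E ^ a := by
          rw [abs_mul, abs_of_pos (show (0 : ℝ) < 2 ^ g m by positivity), abs_sub_comm]
          calc _ ≤ 2 ^ g m * (E ^ a / 2 ^ g m) := mul_le_mul_of_nonneg_left e1 (by positivity)
            _ = _ := by field_simp
        have e3 := hz m
        have e4 : 1 + E ^ a ≤ E ^ (a + 2) := by
          have : E ^ (a + 2) = E ^ a * E ^ 2 := by ring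
          rw [this]
          have e5 : (2 : ℝ) ≤ E ^ 2 := by nlinarith
          have e6 := mul_le_mul_of_nonneg_left e5 (by positivity : (0 : ℝ) ≤ E ^ a)
          linarith
        refine le_trans ?_ e4
        exact (abs_sub _ _).trans (add_le_add e3 e2)
    have A2 := h1 E t σ g g₀ V V' N hE hc1 hσ hV hV' (VV.mono mE) (VV0.mono mE) hL' hg0 hN l
      hl1 hl b ybd
    rw [y0] at A2
    -- the second sum
    have B1 : |∑ k ∈ range l, (rwp N g V V' l k).eval (z 0) * zt1 (nat g V b) k -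
        ((rwp N g V V' l 0).eval (z 0) + ∑ m ∈ Ico 1 l, (rwp N g V V' l m).eval (z 0) *
          (z m - ∑ p ∈ range m, (rwp N g P V m p).eval (z 0) * zt1 z p))| ≤
        n * (E ^ a₂ * (E ^ a₁ / σ)) := by
      rw [Finset.range_eq_Ico, Finset.sum_eq_sum_Ico_succ_bot hl1]
      have e1 : (rwp N g V V' l 0).eval (z 0) * zt1 (nat g V b) 0 +
          ∑ k ∈ Ico (0 + 1) l, (rwp N g V V' l k).eval (z 0) * zt1 (nat g V b) k -
          ((rwp N g V V' l 0).eval (z 0) + ∑ m ∈ Ico 1 l, (rwp N g V V' l m).eval (z 0) *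
            (z m - ∑ p ∈ range m, (rwp N g P V m p).eval (z 0) * zt1 z p)) =
          ∑ m ∈ Ico 1 l, (rwp N g V V' l m).eval (z 0) * (-(2 ^ g m * (eval b (V m) -
            eval b (P m)) - ∑ p ∈ range m, (rwp N g P V m p).eval (z 0) * zt1 z p)) := by
        have e2 : zt1 (nat g V b) 0 = 1 := by simp [zt1]
        rw [e2, mul_one, zero_add]
        rw [add_sub_add_left_eq_sub, ← Finset.sum_sub_distrib]
        refine Finset.sum_congr rfl fun m hm => ?_
        obtain ⟨m1, m2⟩ := mem_Ico.1 hm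
        have e3 : zt1 (nat g V b) m = nat g V b m := by
          unfold zt1
          rw [if_neg (by omega)]
        rw [e3, yk]
        ring
      rw [e1]
      refine (Finset.abs_sum_le_sum_abs _ _).trans ?_
      calc _ ≤ ∑ _m ∈ Ico 1 l, E ^ a₂ * (E ^ a₁ / σ) := by
            refine Finset.sum_le_sum fun m hm => ?_
            obtain ⟨m1, m2⟩ := mem_Ico.1 hm
            rw [abs_mul, abs_neg]
            exact mul_le_mul ((eval_le_pn _ (hz 0)).trans
              (h2 E t g V V' hE hc2 hV hV' VV l hl1 hl m)) (A1 m m1 (by omega)) (abs_nonneg _)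
              (by positivity)
        _ ≤ _ := by
            rw [Finset.sum_const, nsmul_eq_mul]
            refine mul_le_mul_of_nonneg_right ?_ (by positivity)
            exact_mod_cast card_Ico_le hl
    -- the identity
    have id1 : ∑ k ∈ range l, (r k).eval (z 0) * zt1 z k =
        ∑ k ∈ range l, (rwp N g P V' l k).eval (z 0) * zt1 z k -
        ∑ k ∈ range l, (rwp N g P V l k).eval (z 0) * zt1 z k -
        ((rwp N g V V' l 0).eval (z 0) + ∑ m ∈ Ico 1 l, (rwp N g V V' l m).eval (z 0) *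
          (z m - ∑ p ∈ range m, (rwp N g P V m p).eval (z 0) * zt1 z p)) := by
      have e1 : ∑ k ∈ range l, (rwp N g V V' l k).eval (z 0) * zt1 z k =
          (rwp N g V V' l 0).eval (z 0) + ∑ m ∈ Ico 1 l, (rwp N g V V' l m).eval (z 0) *
            z m := by
        rw [Finset.range_eq_Ico, Finset.sum_eq_sum_Ico_succ_bot hl1, zero_add]
        have e2 : zt1 z 0 = 1 := by simp [zt1]
        rw [e2, mul_one]
        congr 1
        refine Finset.sum_congr rfl fun m hm => ?_
        obtain ⟨m1, m2⟩ := mem_Ico.1 hm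
        unfold zt1
        rw [if_neg (by omega)]
      have e2 : ∑ k ∈ range l, (∑ m ∈ Ioo k l, (rwp N g V V' l m).eval (z 0) *
          (rwp N g P V m k).eval (z 0)) * zt1 z k = ∑ m ∈ Ico 1 l,
          (rwp N g V V' l m).eval (z 0) * ∑ p ∈ range m, (rwp N g P V m p).eval (z 0) *
            zt1 z p := by
        simp only [Finset.sum_mul, Finset.mul_sum]
        refine (Finset.sum_comm' (t' := Ico 1 l) (s' := fun m => range m) fun k m => ?_).trans ?_
        · simp only [Finset.mem_range, Finset.mem_Ioo, Finset.mem_Ico]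
          omega
        · refine Finset.sum_congr rfl fun m _ => Finset.sum_congr rfl fun p _ => ?_
          ring
      rw [hr]
      simp only [Polynomial.eval_sub, Polynomial.eval_add, Polynomial.eval_finsetSum,
        Polynomial.eval_mul, sub_mul, add_mul, mul_sub, Finset.sum_sub_distrib,
        Finset.sum_add_distrib]
      rw [e1, e2]
      ring
    rw [id1]
    have e5 := A1 l hl1 hl
    have e6 : |∑ k ∈ range l, (rwp N g P V' l k).eval (z 0) * zt1 z k -
        ∑ k ∈ range l, (rwp N g P V l k).eval (z 0) * zt1 z k -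
        ((rwp N g V V' l 0).eval (z 0) + ∑ m ∈ Ico 1 l, (rwp N g V V' l m).eval (z 0) *
          (z m - ∑ p ∈ range m, (rwp N g P V m p).eval (z 0) * zt1 z p))| ≤
        E ^ a₁ / σ + E ^ a₁ / σ + E ^ a₁ / σ + n * (E ^ a₂ * (E ^ a₁ / σ)) := by
      rw [abs_le] at A1' e5 A2 B1 ⊢
      constructor <;> nlinarith [A1'.1, A1'.2, e5.1, e5.2, A2.1, A2.2, B1.1, B1.2]
    refine e6.trans ?_
    have e7 : E ^ a₁ / σ ≤ E ^ a₂ * (E ^ a₁ / σ) :=
      le_mul_of_one_le_left (by positivity) (pw1 hE a₂)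
    calc E ^ a₁ / σ + E ^ a₁ / σ + E ^ a₁ / σ + n * (E ^ a₂ * (E ^ a₁ / σ))
        ≤ (n + 3) * (E ^ a₂ * (E ^ a₁ / σ)) := by nlinarith
      _ ≤ E ^ 3 * (E ^ a₂ * (E ^ a₁ / σ)) := by
          refine mul_le_mul_of_nonneg_right ?_ (by positivity)
          have : E ≤ E ^ 3 := by
            calc E = E ^ 1 := (pow_one E).symm
              _ ≤ _ := pw hE (by omega)
          linarith
      _ = E ^ (a₂ + a₁ + 3) / σ := by
          rw [pow_add, pow_add]
          ring
  have fin := h3 r l (E ^ (a₂ + a₁ + 3) / σ) hrd key k hkl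
  rw [hr] at fin
  refine fin.trans ?_
  rw [pow_succ E (a₂ + a₁ + 3), mul_comm (E ^ (a₂ + a₁ + 3)), mul_div_assoc]
  exact mul_le_mul_of_nonneg_right hcC (by positivity)

end Pool.TN98
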