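import Pool.Agent.H38.P4.Cel
import Pool.Agent.H98.TIEN.Pol

/-!
# Own frames of every degree: the rows

Systems with the time: `St K T A`, closeness `Cls` on natural boxes with the time window. `rwp`: the
part of the difference of two systems which is affine in the coordinates, polynomial in the time.
-/

set_option autoImplicit false

namespace Pool.TN98

open Finset Real MvPolynomial
open Pool.STAT Pool.MIC.Frm Pool.MIC7 Pool.FRM Pool.P4O

/-! ### Systems with the time -/

/-- A system with the centre `T`. -/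
structure St (K : ℕ) (T : ℝ) (A : ℕ → PN) : Prop where
  tri : TriN A
  deg : ∀ l, (A l).totalDegree ≤ K
  zero : A 0 = C T

theorem st_atT {K : ℕ} {A : ℕ → PN} (h : TriN A) (d : ∀ l, (A l).totalDegree ≤ K) (T : ℝ) :
    St K T (atT T A) := by
  refine ⟨fun i => ?_, fun l => ?_, ?_⟩
  · unfold atT
    rcases Nat.eq_zero_or_pos i with h0 | h0
    · rw [h0, Function.update_self, vars_C]
      exact Finset.empty_subset _
    · rw [Function.update_of_ne (by omega)]
      exact h i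
  · unfold atT
    rcases Nat.eq_zero_or_pos l with h0 | h0
    · rw [h0, Function.update_self, totalDegree_C]
      exact Nat.zero_le _
    · rw [Function.update_of_ne (by omega)]
      exact d l
  · unfold atT
    rw [Function.update_self]

theorem atT_pos {A : ℕ → PN} {T : ℝ} {l : ℕ} (hl : 1 ≤ l) : atT T A l = A l := by
  unfold atT
  rw [Function.update_of_ne (by omega)]

theorem nat_atT (g : ℕ → ℕ) (A : ℕ → PN) (T : ℝ) (b : ℕ → ℝ) {l : ℕ} (hl : 1 ≤ l) :
    nat g (atT T A) b l = nat g A b l := by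
  unfold nat
  rw [atT_pos hl]

theorem St.nat0 {K : ℕ} {T : ℝ} {A : ℕ → PN} (h : St K T A) (g : ℕ → ℕ) (b : ℕ → ℝ) :
    nat g A b 0 = 2 ^ g 0 * (b 0 - T) := by
  unfold nat
  rw [h.zero, eval_C]

theorem st_nbr (n K a : ℕ) : ∃ (a' : ℕ) (c₀ : ℝ), ∀ (E t : ℝ) (g : ℕ → ℕ) (A P Q : ℕ → PN),
    1 ≤ E → c₀ ≤ E → St K t A → St K t P → St K t Q → Cls n g (E ^ a) A P →
    Cls n g (E ^ a) A Q → Cls n g (E ^ a') P Q := by
  obtain ⟨C, D, hC, h⟩ := nbr n K
  obtain ⟨a', c₀, h'⟩ := absorb C D a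
  refine ⟨a', c₀, ?_⟩
  intro E t g A P Q h1 h2 hA hP hQ h3 h4 l hl1 hln b hb
  have hp := pw1 h1 a
  have key := h g g g A P Q (E ^ a) hp hA.tri hP.tri hQ.tri (fun i _ => hA.deg i)
    (fun i _ => hP.deg i) (fun i _ => hQ.deg i) (by rw [hA.zero, hP.zero])
    (fun i _ => le_mul_of_one_le_left (by positivity) hp)
    (fun i _ => le_mul_of_one_le_left (by positivity) hp)
    (fun l h5 h6 b hb => ⟨h3 l h5 h6 b hb, h4 l h5 h6 b hb⟩) l hl1 hln b hb
  exact key.trans (div_le_div_of_nonneg_right (h' E h1 h2) (by positivity))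

theorem st_sym (n K a : ℕ) : ∃ (a' : ℕ) (c₀ : ℝ), ∀ (E t : ℝ) (g : ℕ → ℕ) (A P : ℕ → PN),
    1 ≤ E → c₀ ≤ E → St K t A → St K t P → Cls n g (E ^ a) A P → Cls n g (E ^ a') P A := by
  obtain ⟨a', c₀, h⟩ := st_nbr n K a
  exact ⟨a', c₀, fun E t g A P h1 h2 hA hP h3 =>
    h E t g A P A h1 h2 hA hP hA h3 (cls_self A (by positivity))⟩

/-- **Larger boxes.** -/
theorem st_box (n K a : ℕ) : ∃ (a' : ℕ) (c₀ : ℝ), ∀ (E t : ℝ) (g : ℕ → ℕ) (A B : ℕ → PN),
    1 ≤ E → c₀ ≤ E → St K t A → St K t B → Cls n g (E ^ a) A B → ∀ l, 1 ≤ l → l ≤ n →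
    ∀ b : ℕ → ℝ, (∀ k < l, |nat g A b k| ≤ E ^ a) →
    |eval b (A l) - eval b (B l)| ≤ E ^ a' / 2 ^ g l := by
  choose C D hC h using fun m => grow_fr m K
  obtain ⟨C₁, hC₁⟩ : ∃ C₁ : ℝ, C₁ = ∑ m ∈ range (n + 1), C m := ⟨_, rfl⟩
  obtain ⟨D₁, hD₁⟩ : ∃ D₁ : ℕ, D₁ = ∑ m ∈ range (n + 1), D m := ⟨_, rfl⟩
  refine ⟨a * D₁ + a + 1, C₁, ?_⟩
  intro E t g A B hE hc hA hB hcl l h1 hln b hb
  have hp := pw1 hE a
  have key := h l g A (A l - B l) (E ^ a / 2 ^ g l) (E ^ a) hA.tri (fun i _ => hA.deg i) hp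
    (AdxRow.vars_sub_le (hA.tri l) (hB.tri l))
    ((totalDegree_sub _ _).trans (max_le (hA.deg l) (hB.deg l)))
    (fun b hb => by
      rw [map_sub]
      exact hcl l h1 hln b hb) b hb
  rw [map_sub] at key
  refine key.trans ?_
  have e1 : C l ≤ C₁ := by
    rw [hC₁]
    exact Finset.single_le_sum (f := C) (fun m _ => by linarith [hC m])
      (mem_range.2 (by omega))
  have e2 : D l ≤ D₁ := by
    rw [hD₁]
    exact Finset.single_le_sum (f := D) (fun m _ => Nat.zero_le _) (mem_range.2 (by omega))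
  have e3 : C l * (E ^ a) ^ D l ≤ E * (E ^ a) ^ D₁ :=
    mul_le_mul (e1.trans hc) (pow_le_pow_right₀ hp e2) (by positivity) (by linarith)
  calc C l * (E ^ a) ^ D l * (E ^ a / 2 ^ g l) ≤ E * (E ^ a) ^ D₁ * (E ^ a / 2 ^ g l) :=
        mul_le_mul_of_nonneg_right e3 (by positivity)
    _ = E ^ (a * D₁ + a + 1) / 2 ^ g l := by
        rw [← pow_mul, pow_add, pow_add, pow_one]
        ring

/-- **The coefficients.** -/
theorem st_coef (n K a : ℕ) : ∃ (a' : ℕ) (c₀ : ℝ), ∀ (E t : ℝ) (g : ℕ → ℕ) (A B : ℕ → PN),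
    1 ≤ E → c₀ ≤ E → St K t A → St K t B → Cls n g (E ^ a) A B → ∀ l, 1 ≤ l → l ≤ n →
    ∀ α : ℕ →₀ ℕ, |coeff α (chr A (B l - A l))| ≤ E ^ a' * (2 ^ Finsupp.weight g α / 2 ^ g l) := by
  choose C D hC h using fun m => step m K
  obtain ⟨C₁, hC₁⟩ : ∃ C₁ : ℝ, C₁ = ∑ m ∈ range (n + 1), C m := ⟨_, rfl⟩
  refine ⟨a + 1, C₁, ?_⟩
  intro E t g A B hE hc hA hB hcl l h1 hln α
  have hp := pw1 hE a
  have key := h l g A A (B l - A l) (E ^ a / 2 ^ g l) 1 hA.tri hA.tri (fun i _ => hA.deg i)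
    (fun i _ => hA.deg i) (AdxRow.vars_sub_le (hB.tri l) (hA.tri l))
    ((totalDegree_sub _ _).trans (max_le (hB.deg l) (hA.deg l))) le_rfl
    (fun k _ => by
      rw [sub_self]
      unfold chr
      rw [map_zero]
      have : nrm g (1 / 2) (0 : PN) = 0 := by
        unfold nrm
        rw [support_zero, Finset.sum_empty]
      rw [this]
      positivity)
    (fun b hb => by
      rw [map_sub, abs_sub_comm]
      exact hcl l h1 hln b hb)
  rw [one_pow, mul_one] at key
  have e0 := (coeff_le_nrm g (ρ := 1 / 2) (by norm_num) (chr A (B l - A l)) α).trans key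
  rw [half_pow, mul_one_div, div_le_iff₀ (by positivity)] at e0
  have e1 : C l ≤ C₁ := by
    rw [hC₁]
    exact Finset.single_le_sum (f := C) (fun m _ => by linarith [hC m])
      (mem_range.2 (by omega))
  refine e0.trans ?_
  calc C l * (E ^ a / 2 ^ g l) * 2 ^ Finsupp.weight g α
      ≤ E * (E ^ a / 2 ^ g l) * 2 ^ Finsupp.weight g α :=
        mul_le_mul_of_nonneg_right (mul_le_mul_of_nonneg_right (e1.trans hc) (by positivity))
          (by positivity)
    _ = E ^ (a + 1) * (2 ^ Finsupp.weight g α / 2 ^ g l) := by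
        rw [pow_succ]
        ring

/-! ### Exponents -/

/-- The exponent: time `m`, coordinate `k` (none for `k = 0`). -/
noncomputable def ex (m k : ℕ) : ℕ →₀ ℕ :=
  Finsupp.single 0 m + if k = 0 then 0 else Finsupp.single k 1

/-- The degree in the coordinates. -/
noncomputable def tdg (α : ℕ →₀ ℕ) : ℕ := dgr (α.erase 0)

theorem ex_zero_apply (m k : ℕ) : ex m k 0 = m := by
  unfold ex
  rw [Finsupp.add_apply, Finsupp.single_eq_same]
  split_ifs with h
  · simp
  · rw [Finsupp.single_eq_of_ne (by omega)]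
    rfl

theorem ex_pos_apply (m k i : ℕ) (hi : i ≠ 0) : ex m k i = if i = k then 1 else 0 := by
  unfold ex
  rw [Finsupp.add_apply, Finsupp.single_eq_of_ne hi, zero_add]
  split_ifs with h h1 h1
  · omega
  · rfl
  · rw [h1, Finsupp.single_eq_same]
  · exact Finsupp.single_eq_of_ne h1

theorem ex_inj {m m' k k' : ℕ} (h : ex m k = ex m' k') : m = m' ∧ k = k' := by
  have h0 := DFunLike.congr_fun h 0
  rw [ex_zero_apply, ex_zero_apply] at h0
  refine ⟨h0, ?_⟩
  by_contra hk
  rcases Nat.eq_zero_or_pos k with h1 | h1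
  · have h2 : k' ≠ 0 := fun h3 => hk (h1.trans h3.symm)
    have h3 := DFunLike.congr_fun h k'
    rw [ex_pos_apply _ _ _ h2, ex_pos_apply _ _ _ h2, if_neg (fun h4 => hk h4.symm),
      if_pos rfl] at h3
    omega
  · have h3 := DFunLike.congr_fun h k
    rw [ex_pos_apply _ _ _ (by omega), ex_pos_apply _ _ _ (by omega), if_pos rfl,
      if_neg hk] at h3
    omega

theorem tdg_le {α : ℕ →₀ ℕ} (h : tdg α ≤ 1) : ∃ k, α = ex (α 0) k ∧
    (k ≠ 0 → k ∈ α.support) := by
  have e0 : α = Finsupp.single 0 (α 0) + α.erase 0 := (Finsupp.single_add_erase 0 α).symm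
  rcases Nat.le_one_iff_eq_zero_or_eq_one.1 h with h1 | h1
  · refine ⟨0, ?_, fun h => absurd rfl h⟩
    have h2 := dgr_zero h1
    rw [h2] at e0
    unfold ex
    rw [if_pos rfl]
    exact e0
  · obtain ⟨k, hk⟩ := dgr_one h1
    have hk0 : k ≠ 0 := by
      intro h0
      subst h0
      have := DFunLike.congr_fun hk 0
      rw [Finsupp.erase_same, Finsupp.single_eq_same] at this
      omega
    refine ⟨k, ?_, fun _ => ?_⟩
    · unfold ex
      rw [if_neg hk0, ← hk]
      exact e0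
    · have h3 := DFunLike.congr_fun hk k
      rw [Finsupp.erase_ne hk0, Finsupp.single_eq_same] at h3
      rw [Finsupp.mem_support_iff, h3]
      exact one_ne_zero

/-- The weight of the exponent. -/
def wt (g : ℕ → ℕ) (m k : ℕ) : ℕ := m * g 0 + if k = 0 then 0 else g k

theorem weight_ex (g : ℕ → ℕ) (m k : ℕ) : Finsupp.weight g (ex m k) = wt g m k := by
  unfold ex wt
  rw [map_add, Finsupp.weight_apply, Finsupp.sum_single_index (by rw [zero_smul]), smul_eq_mul]
  split_ifs with h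
  · rw [map_zero]
  · rw [weight_single]

theorem prod_ex (x : ℕ → ℝ) (m k : ℕ) : ∏ i ∈ (ex m k).support, x i ^ (ex m k) i =
    x 0 ^ m * if k = 0 then 1 else x k := by
  have h : ∀ α : ℕ →₀ ℕ, ∏ i ∈ α.support, x i ^ α i = α.prod fun i e => x i ^ e := fun _ => rfl
  have h1 : ∀ i e : ℕ, (Finsupp.single i e).prod (fun i e => x i ^ e) = x i ^ e := fun i e =>
    Finsupp.prod_single_index (pow_zero _)
  have h2 : ∀ α β : ℕ →₀ ℕ, (α + β).prod (fun i e => x i ^ e) =
      α.prod (fun i e => x i ^ e) * β.prod (fun i e => x i ^ e) := fun α β =>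
    Finsupp.prod_add_index' (fun _ => pow_zero _) (fun _ _ _ => pow_add _ _ _)
  rw [h]
  unfold ex
  rw [h2, h1]
  split_ifs with h3
  · rw [Finsupp.prod_zero_index]
  · rw [h1, pow_one]

/-! ### The affine part -/

/-- The exponents of the affine part. -/
noncomputable def exl (l N : ℕ) : Finset (ℕ →₀ ℕ) :=
  (range l ×ˢ range (N + 1)).image fun p => ex p.2 p.1

/-- The nonlinear part. -/
noncomputable def nlq (l N : ℕ) (F : PN) : PN := F - ∑ α ∈ exl l N, monomial α (coeff α F)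

theorem nlq_coeff (l N : ℕ) (F : PN) (α : ℕ →₀ ℕ) :
    coeff α (nlq l N F) = if α ∈ exl l N then 0 else coeff α F := by
  classical
  unfold nlq
  rw [coeff_sub, coeff_sum]
  simp only [coeff_monomial]
  rw [Finset.sum_ite_eq']
  split_ifs with h
  · rw [sub_self]
  · rw [sub_zero]

theorem nlq_supp (l N : ℕ) (F : PN) : (nlq l N F).support ⊆ F.support := by
  intro α hα
  rw [mem_support_iff, nlq_coeff] at hα
  rw [mem_support_iff]
  intro h
  apply hα
  rw [h]
  split_ifs <;> rfl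

theorem nlq_vars {l N m : ℕ} {F : PN} (h : F.vars ⊆ range m) : (nlq l N F).vars ⊆ range m := by
  intro i hi
  obtain ⟨α, hα, hi'⟩ := (mem_vars_iff_mem_support i).1 hi
  exact h ((mem_vars_iff_mem_support i).2 ⟨α, nlq_supp l N F hα, hi'⟩)

theorem nlq_deg (l N : ℕ) (F : PN) : (nlq l N F).totalDegree ≤ F.totalDegree := by
  unfold totalDegree
  exact Finset.sup_mono (nlq_supp l N F)

/-- Exponents of degree at most one are in the affine part. -/
theorem nlq_low {l N : ℕ} {F : PN} (hl : 1 ≤ l) (hF : F.vars ⊆ range l) (hN : F.totalDegree ≤ N)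
    {α : ℕ →₀ ℕ} (hα : tdg α ≤ 1) : coeff α (nlq l N F) = 0 := by
  rw [nlq_coeff]
  by_cases h : α ∈ F.support
  swap
  · rw [notMem_support_iff.1 h]
    split_ifs <;> rfl
  rw [if_pos]
  obtain ⟨k, hk, hk0⟩ := tdg_le hα
  unfold exl
  rw [Finset.mem_image]
  refine ⟨(k, α 0), ?_, hk.symm⟩
  rw [Finset.mem_product]
  constructor
  · show k ∈ range l
    by_cases h0 : k = 0
    · rw [h0]
      exact mem_range.2 hl
    · exact hF ((mem_vars_iff_mem_support k).2 ⟨α, h, hk0 h0⟩)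
  · show α 0 ∈ range (N + 1)
    rw [mem_range]
    have h1 : α 0 ≤ F.totalDegree := by
      refine le_trans ?_ (le_totalDegree h)
      by_cases h2 : 0 ∈ α.support
      · exact Finset.single_le_sum (f := fun i => α i) (fun _ _ => Nat.zero_le _) h2
      · rw [Finsupp.notMem_support_iff.1 h2]
        exact Nat.zero_le _
    omega

/-- **The affine part, values.** -/
theorem nlq_eval (l N : ℕ) (F : PN) (x : ℕ → ℝ) : eval x F =
    ∑ k ∈ range l, ∑ m ∈ range (N + 1), coeff (ex m k) F * (x 0 ^ m * if k = 0 then 1 else x k) +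
      eval x (nlq l N F) := by
  unfold nlq
  rw [map_sub, map_sum]
  have h1 : ∑ α ∈ exl l N, eval x (monomial α (coeff α F)) =
      ∑ k ∈ range l, ∑ m ∈ range (N + 1), coeff (ex m k) F *
        (x 0 ^ m * if k = 0 then 1 else x k) := by
    unfold exl
    rw [Finset.sum_image fun p _ p' _ h => by
      obtain ⟨h1, h2⟩ := ex_inj h
      exact Prod.ext h2 h1]
    rw [Finset.sum_product]
    refine Finset.sum_congr rfl fun k _ => Finset.sum_congr rfl fun m _ => ?_
    rw [eval_monomial]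
    congr 1
    exact prod_ex x m k
  rw [h1]
  ring

/-! ### The rows -/

/-- The coefficients of a row. -/
noncomputable def rwc (g : ℕ → ℕ) (A B : ℕ → PN) (l k m : ℕ) : ℝ :=
  2 ^ g l / 2 ^ wt g m k * coeff (ex m k) (chr A (B l - A l))

/-- **A row**, up to the degree `N`. -/
noncomputable def rwp (N : ℕ) (g : ℕ → ℕ) (A B : ℕ → PN) (l k : ℕ) : Polynomial ℝ :=
  ∑ m ∈ range (N + 1), Polynomial.monomial m (rwc g A B l k m)

theorem rwp_coeff (N : ℕ) (g : ℕ → ℕ) (A B : ℕ → PN) (l k m : ℕ) :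
    (rwp N g A B l k).coeff m = if m < N + 1 then rwc g A B l k m else 0 := by
  unfold rwp
  rw [Polynomial.finsetSum_coeff]
  simp only [Polynomial.coeff_monomial]
  rw [Finset.sum_ite_eq']
  simp only [mem_range]

theorem rwp_deg (N : ℕ) (g : ℕ → ℕ) (A B : ℕ → PN) (l k : ℕ) :
    (rwp N g A B l k).natDegree ≤ N := by
  refine Polynomial.natDegree_le_iff_coeff_eq_zero.2 fun i hi => ?_
  rw [rwp_coeff, if_neg (by omega)]

theorem rwp_eval (N : ℕ) (g : ℕ → ℕ) (A B : ℕ → PN) (l k : ℕ) (τ : ℝ) :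
    (rwp N g A B l k).eval τ = ∑ m ∈ range (N + 1), rwc g A B l k m * τ ^ m := by
  unfold rwp
  rw [Polynomial.eval_finsetSum]
  exact Finset.sum_congr rfl fun m _ => Polynomial.eval_monomial

/-- The coordinates with `1` in front. -/
noncomputable def zt1 (x : ℕ → ℝ) (k : ℕ) : ℝ := if k = 0 then 1 else x k

/-- **Coefficients of a row from a place.** -/
theorem rwc_far (n K a : ℕ) : ∃ (a' : ℕ) (c₀ : ℝ), ∀ (E t : ℝ) (g g' : ℕ → ℕ) (A B : ℕ → PN),
    1 ≤ E → c₀ ≤ E → St K t A → St K t B → Cls n g' (E ^ a) A B → ∀ l, 1 ≤ l → l ≤ n → ∀ k m,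
    |rwc g A B l k m| ≤ E ^ a' * (2 ^ g l / 2 ^ g' l * (2 ^ wt g' m k / 2 ^ wt g m k)) := by
  obtain ⟨a₁, c₁, h1⟩ := st_coef n K a
  refine ⟨a₁, c₁, ?_⟩
  intro E t g g' A B hE hc hA hB hcl l hl1 hln k m
  have h2 := h1 E t g' A B hE hc hA hB hcl l hl1 hln (ex m k)
  rw [weight_ex] at h2
  unfold rwc
  rw [abs_mul, abs_of_pos (show (0 : ℝ) < 2 ^ g l / 2 ^ wt g m k by positivity)]
  calc 2 ^ g l / 2 ^ wt g m k * |coeff (ex m k) (chr A (B l - A l))|
      ≤ 2 ^ g l / 2 ^ wt g m k * (E ^ a₁ * (2 ^ wt g' m k / 2 ^ g' l)) :=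
        mul_le_mul_of_nonneg_left h2 (by positivity)
    _ = _ := by ring

/-- **The affine approximation, with the time.** -/
theorem row_aff (n K a : ℕ) : ∃ (a' : ℕ) (c₀ : ℝ), ∀ (E t σ : ℝ) (g g₀ : ℕ → ℕ) (A B : ℕ → PN)
    (N : ℕ), 1 ≤ E → c₀ ≤ E → 1 ≤ σ → St K t A → St K t B → Cls n g (E ^ a) A B →
    Cls n g₀ (E ^ a) A B → Lv n g g₀ σ (E ^ a) → g 0 = g₀ 0 → K * (K + 1) ^ n ≤ N →
    ∀ u, 1 ≤ u → u ≤ n →
    ∀ b : ℕ → ℝ, (∀ m < u, |nat g A b m| ≤ E ^ a) →
      |2 ^ g u * (eval b (B u) - eval b (A u)) -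
        ∑ k ∈ range u, (rwp N g A B u k).eval (nat g A b 0) * zt1 (nat g A b) k| ≤
          E ^ a' / σ := by
  obtain ⟨a₁, c₁, h1⟩ := st_coef n K a
  obtain ⟨K₂, hK₂⟩ : ∃ K₂ : ℕ, K₂ = K * (K + 1) ^ n := ⟨_, rfl⟩
  obtain ⟨Q, hQ⟩ : ∃ Q : ℕ, Q = ∑ u ∈ range (n + 1), (exs u K₂).card := ⟨_, rfl⟩
  obtain ⟨d, hd⟩ : ∃ d : ℕ, d = n * K₂ := ⟨_, rfl⟩
  refine ⟨a₁ + a * (d + 1) + a * K₂ + 1, max c₁ Q, ?_⟩
  intro E t σ g g₀ A B N hE hc hσ hA hB hcl hcl₀ hL hg0 hN u hu1 hun b hb
  have hc1 : c₁ ≤ E := (le_max_left _ _).trans hc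
  have hcQ : (Q : ℝ) ≤ E := (le_max_right _ _).trans hc
  have hE0 : 0 < E := by linarith
  have hp := pw1 hE a
  obtain ⟨F, hF⟩ : ∃ F : PN, F = chr A (B u - A u) := ⟨_, rfl⟩
  have vBA : (B u - A u).vars ⊆ range u := AdxRow.vars_sub_le (hB.tri u) (hA.tri u)
  have vF : F.vars ⊆ range u := by
    rw [hF]
    exact chr_vars hA.tri vBA
  have dF : F.totalDegree ≤ K₂ := by
    rw [hF]
    refine (chr_deg (m := u) hA.tri (fun i _ => hA.deg i) vBA
      ((totalDegree_sub _ _).trans (max_le (hB.deg u) (hA.deg u)))).trans ?_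
    rw [hK₂]
    exact Nat.mul_le_mul_left K (Nat.pow_le_pow_right (show 0 < K + 1 by omega) hun)
  have dFN : F.totalDegree ≤ N := dF.trans (by omega)
  have cF₀ : ∀ α, |coeff α F| ≤ E ^ a₁ * (2 ^ Finsupp.weight g₀ α / 2 ^ g₀ u) := fun α => by
    rw [hF]
    exact h1 E t g₀ A B hE hc1 hA hB hcl₀ u hu1 hun α
  -- the coefficients of the nonlinear part
  have cG : ∀ α, |coeff α (nlq u N F)| * (1 / 2) ^ Finsupp.weight g α ≤
      E ^ (a₁ + a * (d + 1)) / σ / 2 ^ g u := by
    intro α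
    by_cases h2 : tdg α ≤ 1
    · rw [nlq_low hu1 vF dFN h2, abs_zero, zero_mul]
      positivity
    rw [nlq_coeff]
    split_ifs with h2'
    · rw [abs_zero, zero_mul]
      positivity
    by_cases hα : α ∈ F.support
    swap
    · rw [notMem_support_iff.1 hα, abs_zero, zero_mul]
      positivity
    have h3 : ∀ m ∈ (α.erase 0).support, 1 ≤ m ∧ m ≤ n := by
      intro m hm
      rw [Finsupp.support_erase, Finset.mem_erase] at hm
      have h4 : m < u := mem_range.1 (vF ((mem_vars_iff_mem_support m).2 ⟨α, hα, hm.2⟩))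
      omega
    have hsplit : ∀ g' : ℕ → ℕ, (2 : ℝ) ^ Finsupp.weight g' α =
        2 ^ (α 0 * g' 0) * 2 ^ Finsupp.weight g' (α.erase 0) := by
      intro g'
      conv_lhs => rw [← Finsupp.single_add_erase 0 α]
      rw [map_add, pow_add, Finsupp.weight_apply,
        Finsupp.sum_single_index (by rw [zero_smul]), smul_eq_mul]
    have h4 : (2 : ℝ) ^ Finsupp.weight g₀ α ≤ (E ^ a / σ) ^ tdg α * 2 ^ Finsupp.weight g α := by
      rw [hsplit g₀, hsplit g, ← hg0]
      have h5 : (2 : ℝ) ^ Finsupp.weight g₀ (α.erase 0) ≤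
          (E ^ a / σ) ^ tdg α * 2 ^ Finsupp.weight g (α.erase 0) := by
        rw [pow_weight, pow_weight]
        unfold tdg dgr
        rw [← Finset.prod_pow_eq_pow_sum, ← Finset.prod_mul_distrib]
        refine Finset.prod_le_prod (fun _ _ => by positivity) fun m hm => ?_
        rw [← mul_pow]
        refine pow_le_pow_left₀ (by positivity) ?_ _
        rw [div_mul_eq_mul_div, le_div_iff₀ (by linarith)]
        have := (hL m (h3 m hm).1 (h3 m hm).2).2
        linarith
      calc _ ≤ 2 ^ (α 0 * g 0) * ((E ^ a / σ) ^ tdg α * 2 ^ Finsupp.weight g (α.erase 0)) :=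
            mul_le_mul_of_nonneg_left h5 (by positivity)
        _ = _ := by ring
    have h5 : (2 : ℝ) ^ g u ≤ E ^ a * σ * 2 ^ g₀ u := (hL u hu1 hun).1
    have h6 : tdg α ≤ d := by
      rw [hd]
      unfold tdg dgr
      have h7 : (α.erase 0).support ⊆ range u := fun m hm => by
        rw [Finsupp.support_erase, Finset.mem_erase] at hm
        exact vF ((mem_vars_iff_mem_support m).2 ⟨α, hα, hm.2⟩)
      calc ∑ m ∈ (α.erase 0).support, (α.erase 0) m ≤ ∑ _m ∈ (α.erase 0).support, K₂ := by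
            refine Finset.sum_le_sum fun m hm => ?_
            have hm' := hm
            rw [Finsupp.support_erase, Finset.mem_erase] at hm'
            rw [Finsupp.erase_ne hm'.1]
            exact (monomial_le_degreeOf m hα).trans ((degreeOf_le_totalDegree F m).trans dF)
        _ = (α.erase 0).support.card * K₂ := by rw [Finset.sum_const, smul_eq_mul]
        _ ≤ n * K₂ := by
            refine Nat.mul_le_mul_right _ ?_
            refine (Finset.card_le_card h7).trans ?_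
            rw [card_range]
            exact hun
    have h7 : (E ^ a / σ) ^ tdg α * σ ≤ (E ^ a) ^ d / σ := by
      have h8 : 2 ≤ tdg α := by omega
      rw [div_pow]
      have h9 : σ ^ 2 ≤ σ ^ tdg α := pow_le_pow_right₀ hσ h8
      have h10 : (E ^ a) ^ tdg α ≤ (E ^ a) ^ d := pow_le_pow_right₀ hp h6
      have hσ0 : 0 < σ := by linarith
      calc (E ^ a) ^ tdg α / σ ^ tdg α * σ ≤ (E ^ a) ^ d / σ ^ 2 * σ := by
            refine mul_le_mul_of_nonneg_right ?_ hσ0.le
            exact div_le_div₀ (by positivity) h10 (by positivity) h9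
        _ = (E ^ a) ^ d / σ := by field_simp
    have h8 := cF₀ α
    have pg : (0 : ℝ) < 2 ^ Finsupp.weight g α := by positivity
    rw [half_pow, mul_one_div, div_le_iff₀ pg]
    refine h8.trans ?_
    rw [div_div, div_mul_eq_mul_div, le_div_iff₀ (by positivity)]
    calc E ^ a₁ * (2 ^ Finsupp.weight g₀ α / 2 ^ g₀ u) * (σ * 2 ^ g u)
        ≤ E ^ a₁ * (((E ^ a / σ) ^ tdg α * 2 ^ Finsupp.weight g α) / 2 ^ g₀ u) *
            (σ * (E ^ a * σ * 2 ^ g₀ u)) := by
          refine mul_le_mul (mul_le_mul_of_nonneg_left (div_le_div_of_nonneg_right h4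
            (by positivity)) (by positivity)) (mul_le_mul_of_nonneg_left h5 (by linarith))
            (by positivity) (by positivity)
      _ = E ^ a₁ * E ^ a * ((E ^ a / σ) ^ tdg α * σ) * σ * 2 ^ Finsupp.weight g α := by
          field_simp
      _ ≤ E ^ a₁ * E ^ a * ((E ^ a) ^ d / σ) * σ * 2 ^ Finsupp.weight g α := by
          refine mul_le_mul_of_nonneg_right (mul_le_mul_of_nonneg_right
            (mul_le_mul_of_nonneg_left h7 (by positivity)) (by linarith)) pg.le
      _ = E ^ (a₁ + a * (d + 1)) * 2 ^ Finsupp.weight g α := by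
          have hσ0 : σ ≠ 0 := by linarith
          rw [pow_add, pow_mul E a (d + 1), pow_succ (E ^ a) d]
          field_simp
  have dG : (nlq u N F).totalDegree ≤ K₂ := (nlq_deg u N F).trans dF
  have hnG := nrm_le_coeff (nlq_vars (l := u) (N := N) vF) dG g (ρ := 1 / 2) (by norm_num) cG
  -- the values
  have hzm : ∀ m, zs A b m = nat g A b m / 2 ^ g m := fun m => by
    rw [nat_eq]
    field_simp
  have hev := eval_le_nrm (nlq_vars (l := u) (N := N) vF) dG g hp (b := zs A b) (fun i hi => by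
    rw [hzm, abs_div, abs_of_pos (show (0 : ℝ) < 2 ^ g i by positivity)]
    exact div_le_div_of_nonneg_right (hb i hi) (by positivity))
  have e1 : eval b (B u) - eval b (A u) = eval (zs A b) F := by
    rw [hF, chr_eval hA.tri, map_sub]
  have e2 := nlq_eval u N F (zs A b)
  have e4 : 2 ^ g u * (eval b (B u) - eval b (A u)) -
      ∑ k ∈ range u, (rwp N g A B u k).eval (nat g A b 0) * zt1 (nat g A b) k =
      2 ^ g u * eval (zs A b) (nlq u N F) := by
    rw [e1, e2]
    have e5 : ∑ k ∈ range u, (rwp N g A B u k).eval (nat g A b 0) * zt1 (nat g A b) k =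
        2 ^ g u * ∑ k ∈ range u, ∑ m ∈ range (N + 1), coeff (ex m k) F *
          (zs A b 0 ^ m * if k = 0 then 1 else zs A b k) := by
      rw [Finset.mul_sum]
      refine Finset.sum_congr rfl fun k _ => ?_
      rw [rwp_eval, Finset.sum_mul, Finset.mul_sum]
      refine Finset.sum_congr rfl fun m _ => ?_
      unfold rwc zt1 wt
      rw [← hF, hzm 0, div_pow, ← pow_mul, mul_comm (g 0) m]
      split_ifs with h0
      · rw [add_zero]
        field_simp
      · rw [hzm k, pow_add]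
        field_simp
    rw [e5]
    ring
  rw [e4, abs_mul, abs_of_pos (show (0 : ℝ) < 2 ^ g u by positivity)]
  have hcard : ((exs u K₂).card : ℝ) ≤ E := by
    refine le_trans ?_ hcQ
    rw [hQ]
    exact_mod_cast Finset.single_le_sum (f := fun u => (exs u K₂).card)
      (fun _ _ => Nat.zero_le _) (mem_range.2 (by omega))
  have hσ0 : 0 < σ := by linarith
  calc 2 ^ g u * |eval (zs A b) (nlq u N F)|
      ≤ 2 ^ g u * ((E ^ a) ^ K₂ * (E * (E ^ (a₁ + a * (d + 1)) / σ / 2 ^ g u))) := by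
        refine mul_le_mul_of_nonneg_left (hev.trans (mul_le_mul_of_nonneg_left
          (hnG.trans ?_) (by positivity))) (by positivity)
        exact mul_le_mul_of_nonneg_right hcard (by positivity)
    _ = E ^ (a₁ + a * (d + 1) + a * K₂ + 1) / σ := by
        rw [← pow_mul, pow_succ, pow_add _ (a₁ + a * (d + 1)) (a * K₂)]
        field_simp

end Pool.TN98
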