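import Pool.Agent.H98.TIEN.Deg

/-!
# Own frames of every degree: the own sheet at the exact time
-/

set_option autoImplicit false

namespace Pool.TN98

open Finset Real MvPolynomial
open Pool.Agent.H49.Ent Pool.Agent.H32.Dense Pool.STK Pool.STAT Pool.MIC.Frm Pool.MIC7 Pool.FRM
open Pool.P4O (Sy Cls Lv pw pw1 lev_le exp_pow cls_coef sy_fz sheet)
open Pool.P4 (FrP PthC pp GoodS)
open Pool.P5L (OwF near_cls c_up lv_zero vf_cell sg_cell lv_p)
open Pool.TNL (zp zp_eval zp_deg)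

/-- **The recursion of the own frame at the exact time.** -/
theorem sht_alg (n : ℕ) : ∃ c : ℕ, ∀ (gam : ℕ → ℝ) (W η θ : ℝ) (a : ℕ → ℕ → Polynomial ℝ)
    (δ : ℕ → ℝ), (n : ℝ) + 4 ≤ W → 0 ≤ η → (∀ l ≤ n, ∀ k < l, pn (a l k) ≤ W) →
    (∀ u, 1 ≤ u → u ≤ n → θ ≤ gam u →
      |δ u - ∑ k ∈ Ico 1 u, (lo gam a u k + tp gam a u k).coeff 0 * δ k| ≤ η) →
    ∀ u, 1 ≤ u → u ≤ n → θ ≤ gam u →
      |δ u - ∑ k ∈ Ico 1 u, (sg gam a u k).coeff 0 * δ k| ≤ W ^ c * η := by
  have main : ∀ N ≤ n, ∃ c : ℕ, ∀ (gam : ℕ → ℝ) (W η θ : ℝ) (a : ℕ → ℕ → Polynomial ℝ)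
      (δ : ℕ → ℝ), (n : ℝ) + 4 ≤ W → 0 ≤ η → (∀ l ≤ n, ∀ k < l, pn (a l k) ≤ W) →
      (∀ u, 1 ≤ u → u ≤ n → θ ≤ gam u →
        |δ u - ∑ k ∈ Ico 1 u, (lo gam a u k + tp gam a u k).coeff 0 * δ k| ≤ η) →
      ∀ u, 1 ≤ u → u ≤ N → θ ≤ gam u →
        |δ u - ∑ k ∈ Ico 1 u, (sg gam a u k).coeff 0 * δ k| ≤ W ^ c * η := by
    intro N
    induction N with
    | zero => exact fun _ => ⟨0, fun _ _ _ _ _ _ _ _ _ _ u h1 h2 _ => absurd h2 (by omega)⟩
    | succ N ih =>
      intro hN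
      obtain ⟨c, hc⟩ := ih (by omega)
      refine ⟨c + 2, fun gam W η θ a δ hW hη ha hδ u hu1 huN hθ => ?_⟩
      have hn : (0 : ℝ) ≤ n := Nat.cast_nonneg n
      have W1 : 1 ≤ W := by linarith
      have key := hc gam W η θ a δ hW hη ha hδ
      rcases Nat.lt_or_ge u (N + 1) with h | h
      · exact (key u hu1 (by omega) hθ).trans
          (mul_le_mul_of_nonneg_right (Wp W1 (by omega)) hη)
      have hun : u ≤ n := by omega
      obtain ⟨e, he⟩ : ∃ e : ℕ → ℝ, e = fun m => δ m -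
        ∑ k ∈ Ico 1 m, (sg gam a m k).coeff 0 * δ k := ⟨_, rfl⟩
      have hz : ∀ m, (zh gam a (fun k => Polynomial.C (δ k)) m).coeff 0 = e m := by
        intro m
        rw [he]
        unfold zh
        rw [Polynomial.coeff_sub, Polynomial.coeff_C_zero, Polynomial.finsetSum_coeff]
        simp only
        congr 1
        refine Finset.sum_congr rfl fun k _ => ?_
        rw [Polynomial.mul_coeff_zero, Polynomial.coeff_C_zero]
      have hid := congrArg (fun p => Polynomial.coeff p 0)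
        (zh_eq gam a (fun k => Polynomial.C (δ k)) u)
      simp only [Polynomial.coeff_sub, Polynomial.finsetSum_coeff, Polynomial.mul_coeff_zero,
        Polynomial.coeff_C_zero] at hid
      have h1 := hδ u hu1 hun hθ
      rw [hid, hz] at h1
      simp only [hz] at h1
      have h2 : |∑ m ∈ Ico 1 u, (tp gam a u m).coeff 0 * e m| ≤ n * (W * (W ^ c * η)) := by
        refine (Finset.abs_sum_le_sum_abs _ _).trans ?_
        have h3 : ∀ m ∈ Ico 1 u, |(tp gam a u m).coeff 0 * e m| ≤ W * (W ^ c * η) := by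
          intro m hm
          obtain ⟨m1, m2⟩ := Finset.mem_Ico.1 hm
          rw [abs_mul]
          by_cases h4 : (tp gam a u m).coeff 0 = 0
          · rw [h4, abs_zero, zero_mul]
            positivity
          · have h5 : gam m = gam u := by
              by_contra h6
              apply h4
              unfold tp
              rw [coeff_flt, if_neg]
              rw [Nat.cast_zero, add_zero]
              exact h6
            refine mul_le_mul ((coeff_le_pn _ 0).trans ((pn_tp gam a u m).trans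
              (ha u hun m m2))) ?_ (abs_nonneg _) (by linarith)
            have := key m m1 (by omega) (by rw [h5]; exact hθ)
            rw [he]
            exact this
        refine (Finset.sum_le_sum h3).trans ?_
        rw [Finset.sum_const, nsmul_eq_mul]
        refine mul_le_mul_of_nonneg_right ?_ (by positivity)
        exact_mod_cast card_Ico_le hun
      have h7 : |e u| ≤ η + n * (W * (W ^ c * η)) := by
        obtain ⟨s, hs⟩ : ∃ s, s = ∑ m ∈ Ico 1 u, (tp gam a u m).coeff 0 * e m := ⟨_, rfl⟩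
        rw [← hs] at h1 h2
        have : e u = (e u - s) + s := by ring
        rw [this]
        exact (abs_add_le _ _).trans (add_le_add h1 h2)
      have h8 : |e u| ≤ W ^ (c + 2) * η := by
        refine h7.trans ?_
        have p1 : 1 ≤ W ^ c := one_le_pow₀ W1
        have p2 : 1 ≤ W * W ^ c := by nlinarith
        calc η + n * (W * (W ^ c * η)) ≤ (W * W ^ c) * η + n * (W * (W ^ c * η)) := by
              have := mul_le_mul_of_nonneg_right p2 hη
              linarith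
          _ = (1 + n) * ((W * W ^ c) * η) := by ring
          _ ≤ W * ((W * W ^ c) * η) :=
              mul_le_mul_of_nonneg_right (by linarith) (by positivity)
          _ = _ := by ring
      rw [he] at h8
      exact h8
  exact main n le_rfl

/-- **The own sheet at the exact time.** -/
theorem own_sheet (n K K' : ℕ) (C₁ C : ℝ) (hC₁ : 1 ≤ C₁) (hC : 0 ≤ C) : ∃ (b : ℕ) (c₀ : ℝ),
    ∀ (lam gam : ℕ → ℝ) (J a₀ w₀ z M i j y r ρ : ℕ) (D : NDat2) (q : D.Ω → ℝ) (κ θ : ℝ)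
      (P V : ℕ → PN) (ω : D.Ω), (∀ l, 1 ≤ l → l ≤ n → lam l = 1) → c₀ ≤ exp (z : ℝ) →
      PlO n gam y r M i j → ρ ≤ i → D.Ok2 n K J a₀ w₀ z M lam gam κ C₁ q → 0 < q ω →
      OwF D n K' M z C ω V → PthC D n w₀ z M 1 ω → FrP D n K' z i j r C P ω →
      (∀ k, 1 ≤ k → k ≤ n → gam k < θ → gam k * r ≤ ρ) →
      (∀ u, 1 ≤ u → u ≤ n → θ ≤ gam u → ρ + y ≤ gam u * r) →
      ∀ Bx : ℝ, 1 ≤ Bx → ∀ x : ℕ → ℝ, x 0 = D.X ω 0 →
      (∀ k, 1 ≤ k → k ≤ n → gam k < θ → |nat (D.g i j) P x k| ≤ exp (Bx * z)) →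
      (∀ u, 1 ≤ u → u ≤ n → θ ≤ gam u → x u = eval x (D.Ψ (i - ρ) (j + r) ω u)) →
      ∀ u, 1 ≤ u → u ≤ n → θ ≤ gam u → |nat (D.g i j) P x u -
        ((zh gam (arw n K' (D.g i j) (D.X ω 0) P V) (fun l => zp D i j P ω l) u).coeff 0 +
          ∑ k ∈ Ico 1 u, (sg gam (arw n K' (D.g i j) (D.X ω 0) P V) u k).coeff 0 *
            nat (D.g i j) P x k)| ≤ exp (Bx * z) ^ b / 2 ^ (y * z) := by
  classical
  obtain ⟨KK, hKK⟩ : ∃ KK : ℕ, KK = max K K' := ⟨_, rfl⟩
  have hK1 : K ≤ KK := by rw [hKK]; exact le_max_left _ _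
  have hK2 : K' ≤ KK := by rw [hKK]; exact le_max_right _ _
  obtain ⟨a₁, c₁, h1⟩ := cl_pv n K K' C
  obtain ⟨a₂, c₂, h2⟩ := sg_cell n K K' C₁ C hC₁ hC
  obtain ⟨a₃, c₃, h3⟩ := vf_cell n K K' C
  obtain ⟨a₄, c₄, h4⟩ := zp_pn n K K' C
  obtain ⟨c4, hc4⟩ := exists_nat_ge (4 * C₁)
  obtain ⟨A₁, hA₁⟩ : ∃ A₁ : ℕ, A₁ = a₁ + a₂ + a₃ + a₄ + c4 + 1 := ⟨_, rfl⟩
  obtain ⟨a₅, c₅, h5⟩ := sheet n KK A₁
  obtain ⟨A₂, hA₂⟩ : ∃ A₂ : ℕ, A₂ = A₁ + a₅ := ⟨_, rfl⟩
  obtain ⟨a₆, c₆, h6⟩ := row_aff n K' A₂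
  obtain ⟨a₇, c₇, h7⟩ := row_hi n K' a₁ (dN n K') C₁ hC₁
  obtain ⟨a₈, c₈, h8⟩ := rwp_pn n K' a₁ (dN n K')
  obtain ⟨e₉, h9⟩ := sht_alg n
  obtain ⟨B, hB⟩ : ∃ B : ℕ, B = A₂ + a₆ + a₇ + a₈ + 2 := ⟨_, rfl⟩
  refine ⟨B * (e₉ + 1), max (max (max (max c₁ c₂) (max c₃ c₄)) (max (max c₅ c₆) (max c₇ c₈)))
    (n + 4), ?_⟩
  intro lam gam J a₀ w₀ z M i j y r ρ D q κ θ P V ω hlam hc₀ hpl hρ hO hω hV hp hP hsl hfa Bx hBx
    x hx0 hxs hxf u hu1 hun hθu
  obtain ⟨hq, hkn⟩ := max_le_iff.1 hc₀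
  obtain ⟨hq1, hq2⟩ := max_le_iff.1 hq
  obtain ⟨hq3, hq4⟩ := max_le_iff.1 hq1
  obtain ⟨hk1, hk2⟩ := max_le_iff.1 hq3
  obtain ⟨hk3, hk4⟩ := max_le_iff.1 hq4
  obtain ⟨hq5, hq6⟩ := max_le_iff.1 hq2
  obtain ⟨hk5, hk6⟩ := max_le_iff.1 hq5
  obtain ⟨hk7, hk8⟩ := max_le_iff.1 hq6
  have hn : (0 : ℝ) ≤ n := Nat.cast_nonneg n
  have hz0 : (0 : ℝ) ≤ z := Nat.cast_nonneg z
  have hE₀ : 1 ≤ exp (z : ℝ) := Real.one_le_exp hz0
  obtain ⟨E, hEd⟩ : ∃ E : ℝ, E = exp (Bx * z) := ⟨_, rfl⟩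
  have hEE : exp (z : ℝ) ≤ E := by
    rw [hEd]
    exact Real.exp_le_exp.2 (le_mul_of_one_le_left hz0 hBx)
  have hE : 1 ≤ E := hE₀.trans hEE
  have mE : ∀ {e e' : ℕ}, e ≤ e' → exp (z : ℝ) ^ e ≤ E ^ e' := fun {e e'} h =>
    (pow_le_pow_left₀ (by positivity) hEE e).trans (pw hE h)
  have i1 := hpl.yi
  have y1 := hpl.y1
  have i2 := hpl.i2
  have j1 := hpl.j1
  have j2 := hpl.j2
  have pY : (0 : ℝ) < 2 ^ (y * z) := by positivity
  obtain ⟨T, hT⟩ : ∃ T : ℝ, T = D.X ω 0 := ⟨_, rfl⟩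
  obtain ⟨g, hg⟩ : ∃ g : ℕ → ℕ, g = D.g i j := ⟨_, rfl⟩
  obtain ⟨gR, hgR⟩ : ∃ gR : ℕ → ℕ, gR = D.g (i - ρ) (j + r) := ⟨_, rfl⟩
  have hcl := h1 lam gam C₁ J a₀ w₀ z M i j r D q κ P V ω hk1 i2 (by omega) hO hV hP
  have hsg := h2 lam gam J a₀ w₀ z M i j D q κ r P V ω hlam hk2 i2 (by omega) hO hV hP
  have hvf := h3 lam gam C₁ J a₀ w₀ z M (i - ρ) (j + r) D q κ V ω hk3 (by omega) (by omega) hω hO
    hV
  have bz := h4 lam gam C₁ J a₀ w₀ z M i j D q κ P ω hk4 (by omega) (by omega) hO hP.tri hP.deg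
    hp (fun l hl => (hP.near i le_rfl l hl).1)
  have syP : Sy KK T (fz T P) := sy_fz hP.tri (fun l => (hP.deg l).trans hK2) _
  have syV : Sy KK T (fz T V) := sy_fz hV.tri (fun l => (hV.deg l).trans hK2) _
  have syR : Sy KK T (fr D (i - ρ, j + r) ω) := by
    rw [hT]
    exact sy_fz (hO.G_tri _ _ _) (fun l => (hO.G_deg _ _ _ l).trans hK1) _
  have sP : St K' T (atT T P) := st_atT hP.tri hP.deg T
  have sV : St K' T (atT T V) := st_atT hV.tri hV.deg T
  have hL : Lv n (D.g i j) (D.g 0 j) (2 ^ (i * z)) (exp z ^ c4) :=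
    lv_zero (by linarith) hc4 hlam hO (by omega) (by omega)
  rw [← hT] at hcl hvf hx0
  rw [← hEd] at hxs ⊢
  rw [← hg] at hxs ⊢
  -- the box of the sheet
  have lvs : ∀ l, 1 ≤ l → l ≤ n → (gam l < θ → (2 : ℝ) ^ gR l ≤ E ^ A₁ * 2 ^ g l) ∧
      (¬ gam l < θ → (2 : ℝ) ^ g l ≤ E ^ A₁ * 2 ^ gR l) := by
    intro l l1 ln
    have e0 : ((i - ρ : ℕ) : ℝ) = i - ρ := by rw [Nat.cast_sub hρ]
    constructor
    · intro hs
      have e1 := lv_p (s := 0) (i₁ := i - ρ) (j₁ := j + r) (i₂ := i) (j₂ := j) (by linarith) hc4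
        hlam hO (by omega) (by omega) (by omega) (by omega) l1 ln (by
          rw [e0]
          push_cast
          have := hsl l l1 ln hs
          nlinarith)
      rw [Nat.zero_mul, pow_zero, one_mul] at e1
      rw [hgR, hg]
      exact e1.trans (mul_le_mul_of_nonneg_right (mE (by omega)) (by positivity))
    · intro hs
      have e1 := lv_p (s := 0) (i₁ := i) (j₁ := j) (i₂ := i - ρ) (j₂ := j + r) (by linarith) hc4
        hlam hO (by omega) (by omega) (by omega) (by omega) l1 ln (by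
          rw [e0]
          push_cast
          have := hfa l l1 ln (not_lt.1 hs)
          have hy0 : (0 : ℝ) ≤ y := Nat.cast_nonneg y
          nlinarith)
      rw [Nat.zero_mul, pow_zero, one_mul] at e1
      rw [hgR, hg]
      exact e1.trans (mul_le_mul_of_nonneg_right (mE (by omega)) (by positivity))
  have hcT : Cls n g (exp z ^ a₂) (fz T P) (fz T V) := by
    have := (hsg.fr 0 (by rw [abs_zero]; positivity)).PV
    rw [add_zero] at this
    rw [hg, hT]
    exact this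
  have box := h5 E T g gR (fun l => gam l < θ) (fz T P) (fz T V) (fr D (i - ρ, j + r) ω) hE
    (hk5.trans hEE) syP syV syR (hcT.mono (mE (by omega))) (by
      rw [hgR]
      exact hvf.mono (mE (by omega))) lvs x hx0
    (fun l l1 ln hs => by
      rw [nat_fz' _ _ hx0 l1]
      exact (hxs l l1 ln hs).trans (le_self_pow₀ hE (by omega)))
    (fun l l1 ln hs => by
      unfold fr
      simp only
      rw [← hT, eval_fz' _ hx0 l1]
      exact hxf l l1 ln (not_lt.1 hs))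
  have bP : ∀ k, 1 ≤ k → k ≤ n → |nat g P x k| ≤ E ^ A₂ := fun k k1 kn => by
    have := (box k k1 kn).1
    rw [nat_fz' _ _ hx0 k1] at this
    exact this.trans (pw hE (by omega))
  have bX : ∀ k, k ≤ n → |nat g P (D.X ω) k| ≤ E ^ A₂ := fun k kn => by
    rw [hg, ← zp_ze hO hω hP.tri kn]
    exact ((coeff_le_pn _ 0).trans (bz k kn)).trans (mE (by omega))
  -- the own coordinate of the point of the sheet
  have bV : ∀ l, 1 ≤ l → l ≤ n → θ ≤ gam l → |nat g V x l| ≤ E ^ (c4 + a₅) / 2 ^ (y * z) := by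
    intro l l1 ln hθ
    have e0 : ((i - ρ : ℕ) : ℝ) = i - ρ := by rw [Nat.cast_sub hρ]
    have e1 := lv_p (s := y) (i₁ := i) (j₁ := j) (i₂ := i - ρ) (j₂ := j + r) (by linarith) hc4
      hlam hO (by omega) (by omega) (by omega) (by omega) l1 ln (by
        rw [e0]
        push_cast
        have := hfa l l1 ln hθ
        nlinarith)
    rw [← hg, ← hgR] at e1
    have e2 := (box l l1 ln).2
    rw [nat_fz' _ _ hx0 l1] at e2
    unfold nat at e2 ⊢
    rw [abs_mul, abs_of_pos (by positivity)] at e2 ⊢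
    rw [le_div_iff₀ pY]
    calc 2 ^ g l * |x l - eval x (V l)| * 2 ^ (y * z)
        = (2 ^ (y * z) * 2 ^ g l) * |x l - eval x (V l)| := by ring
      _ ≤ (exp z ^ c4 * 2 ^ gR l) * |x l - eval x (V l)| :=
          mul_le_mul_of_nonneg_right e1 (abs_nonneg _)
      _ = exp z ^ c4 * (2 ^ gR l * |x l - eval x (V l)|) := by ring
      _ ≤ E ^ c4 * E ^ a₅ := mul_le_mul (mE le_rfl) e2 (by positivity) (by positivity)
      _ = _ := by rw [pow_add]
  -- the affine approximation at the exact time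
  obtain ⟨a, ha⟩ : ∃ a, a = arw n K' g T P V := ⟨_, rfl⟩
  have aff : ∀ x' : ℕ → ℝ, x' 0 = T → (∀ k, 1 ≤ k → k ≤ n → |nat g P x' k| ≤ E ^ A₂) →
      ∀ l, 1 ≤ l → l ≤ n → |(nat g P x' l - nat g V x' l) - ((a l 0).coeff 0 +
        ∑ k ∈ Ico 1 l, (a l k).coeff 0 * nat g P x' k)| ≤ E ^ a₆ / 2 ^ (y * z) := by
    intro x' hx' hb l l1 ln
    have n0 : nat g (atT T P) x' 0 = 0 := by
      rw [sP.nat0, hx', sub_self, mul_zero]
    have key := h6 E T (2 ^ (i * z)) g (D.g 0 j) (atT T P) (atT T V) (dN n K') hE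
      (hk6.trans hEE) (one_le_pow₀ (by norm_num)) sP sV
      (by
        rw [hg]
        exact (hcl i le_rfl).1.mono (mE (by omega)))
      ((hcl 0 (Nat.zero_le _)).1.mono (mE (by omega)))
      (by
        rw [hg]
        exact hL.mono (by positivity) (mE (by omega)))
      (by rw [hg, hO.g_zero, hO.g_zero]) le_rfl l l1 ln x' (fun m hm => by
        rcases Nat.eq_zero_or_pos m with h0 | h0
        · rw [h0, n0, abs_zero]
          positivity
        · rw [nat_atT _ _ _ _ h0]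
          exact hb m h0 (by omega))
    rw [n0, atT_pos l1, atT_pos l1] at key
    have e1 : 2 ^ g l * (eval x' (V l) - eval x' (P l)) = nat g P x' l - nat g V x' l := by
      unfold nat
      ring
    have e2 : ∑ k ∈ range l, (rwp (dN n K') g (atT T P) (atT T V) l k).eval 0 *
        zt1 (nat g (atT T P) x') k = (a l 0).coeff 0 +
          ∑ k ∈ Ico 1 l, (a l k).coeff 0 * nat g P x' k := by
      rw [Finset.range_eq_Ico, Finset.sum_eq_sum_Ico_succ_bot (show 0 < l by omega)]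
      congr 1
      · unfold zt1
        rw [if_pos rfl, mul_one, ← Polynomial.coeff_zero_eq_eval_zero, ha]
        rfl
      · refine Finset.sum_congr rfl fun k hk => ?_
        obtain ⟨k1, k2⟩ := Finset.mem_Ico.1 hk
        unfold zt1
        rw [if_neg (by omega), nat_atT _ _ _ _ (by omega), ← Polynomial.coeff_zero_eq_eval_zero,
          ha]
        rfl
    rw [e1, e2] at key
    refine key.trans (div_le_div_of_nonneg_left (by positivity) pY ?_)
    exact pow_le_pow_right₀ (by norm_num) (Nat.mul_le_mul_right z i1)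
  have ba : ∀ l ≤ n, ∀ k < l, pn (a l k) ≤ E ^ B := fun l ln k kl => by
    rw [ha]
    have := h8 (exp z) T (D.g i j) _ _ hE₀ hk8 sP sV (hcl i le_rfl).1 l (by omega) ln k
    rw [hg]
    exact this.trans (mE (by omega))
  have hW : (n : ℝ) + 4 ≤ E ^ B := (hkn.trans hEE).trans (le_self_pow₀ hE (by omega))
  obtain ⟨δ, hδ⟩ : ∃ δ : ℕ → ℝ, δ = fun k => nat g P x k - nat g P (D.X ω) k := ⟨_, rfl⟩
  have main : ∀ u, 1 ≤ u → u ≤ n → θ ≤ gam u →
      |δ u - ∑ k ∈ Ico 1 u, (lo gam a u k + tp gam a u k).coeff 0 * δ k| ≤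
        E ^ B / 2 ^ (y * z) := by
    intro u hu1 hun hθu
    have e1 := aff x hx0 bP u hu1 hun
    have e2 := aff (D.X ω) hT.symm (fun k _ kn => bX k kn) u hu1 hun
    have e3 : nat g V (D.X ω) u = 0 := by
      unfold nat
      rw [hV.own u hun, sub_self, mul_zero]
    rw [e3, sub_zero] at e2
    have e4 := bV u hu1 hun hθu
    have e5 : |∑ k ∈ Ico 1 u, (a u k - (lo gam a u k + tp gam a u k)).coeff 0 * δ k| ≤
        n * (exp z ^ a₇ / 2 ^ (y * z) * (2 * E ^ A₂)) := by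
      refine (Finset.abs_sum_le_sum_abs _ _).trans ?_
      have e6 : ∀ k ∈ Ico 1 u, |(a u k - (lo gam a u k + tp gam a u k)).coeff 0 * δ k| ≤
          exp z ^ a₇ / 2 ^ (y * z) * (2 * E ^ A₂) := by
        intro k hk
        obtain ⟨k1, k2⟩ := Finset.mem_Ico.1 hk
        rw [abs_mul]
        refine mul_le_mul ((coeff_le_pn _ 0).trans ?_) ?_ (abs_nonneg _) (by positivity)
        · rw [ha, hg]
          exact h7 lam gam K J a₀ w₀ z M i j y r D q κ T (atT T P) (atT T V) hlam hk7 hpl hO sP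
            sV (hcl i le_rfl).2 u hun k k1 k2
        · rw [hδ]
          refine (abs_sub _ _).trans ?_
          have := bP k k1 (by omega)
          have := bX k (by omega)
          linarith
      refine (Finset.sum_le_sum e6).trans ?_
      rw [Finset.sum_const, nsmul_eq_mul]
      refine mul_le_mul_of_nonneg_right ?_ (by positivity)
      exact_mod_cast card_Ico_le hun
    have e7 : δ u - ∑ k ∈ Ico 1 u, (lo gam a u k + tp gam a u k).coeff 0 * δ k =
        ((nat g P x u - nat g V x u) - ((a u 0).coeff 0 +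
          ∑ k ∈ Ico 1 u, (a u k).coeff 0 * nat g P x k)) -
        (nat g P (D.X ω) u - ((a u 0).coeff 0 +
          ∑ k ∈ Ico 1 u, (a u k).coeff 0 * nat g P (D.X ω) k)) + nat g V x u +
        ∑ k ∈ Ico 1 u, (a u k - (lo gam a u k + tp gam a u k)).coeff 0 * δ k := by
      rw [hδ]
      simp only [Polynomial.coeff_sub, sub_mul, mul_sub, Finset.sum_sub_distrib]
      ring
    rw [e7]
    have f1 : E ^ a₆ / 2 ^ (y * z) ≤ E ^ (B - 2) / 2 ^ (y * z) :=
      div_le_div_of_nonneg_right (pw hE (by omega)) pY.le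
    have f2 : E ^ (c4 + a₅) / 2 ^ (y * z) ≤ E ^ (B - 2) / 2 ^ (y * z) :=
      div_le_div_of_nonneg_right (pw hE (by omega)) pY.le
    have f3 : n * (exp (z : ℝ) ^ a₇ / 2 ^ (y * z) * (2 * E ^ A₂)) ≤
        2 * n * (E ^ (B - 2) / 2 ^ (y * z)) := by
      have : exp (z : ℝ) ^ a₇ * E ^ A₂ ≤ E ^ (B - 2) := by
        calc exp (z : ℝ) ^ a₇ * E ^ A₂ ≤ E ^ a₇ * E ^ A₂ :=
              mul_le_mul_of_nonneg_right (mE le_rfl) (by positivity)
          _ = E ^ (a₇ + A₂) := by rw [pow_add]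
          _ ≤ _ := pw hE (by omega)
      calc n * (exp (z : ℝ) ^ a₇ / 2 ^ (y * z) * (2 * E ^ A₂)) =
            2 * n * (exp (z : ℝ) ^ a₇ * E ^ A₂ / 2 ^ (y * z)) := by ring
        _ ≤ _ := mul_le_mul_of_nonneg_left (div_le_div_of_nonneg_right this pY.le)
            (by positivity)
    have f4 := (abs_add_le _ _).trans (add_le_add ((abs_add_le _ _).trans (add_le_add
      ((abs_sub _ _).trans (add_le_add e1 e2)) e4)) e5)
    refine f4.trans ?_
    have f5 : 0 ≤ E ^ (B - 2) / 2 ^ (y * z) := by positivity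
    calc _ ≤ (3 + 2 * n) * (E ^ (B - 2) / 2 ^ (y * z)) := by linarith
      _ ≤ E ^ 2 * (E ^ (B - 2) / 2 ^ (y * z)) := by
          refine mul_le_mul_of_nonneg_right ?_ f5
          have := hkn.trans hEE
          nlinarith
      _ = E ^ B / 2 ^ (y * z) := by
          rw [← mul_div_assoc, ← pow_add]
          congr 2
          omega
  have fin := h9 gam (E ^ B) (E ^ B / 2 ^ (y * z)) θ a δ hW (by positivity) ba main u hu1 hun hθu
  rw [← hT, ← ha]
  have hzh : (zh gam a (fun l => zp D i j P ω l) u).coeff 0 = nat g P (D.X ω) u -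
      ∑ k ∈ Ico 1 u, (sg gam a u k).coeff 0 * nat g P (D.X ω) k := by
    unfold zh
    rw [Polynomial.coeff_sub, Polynomial.finsetSum_coeff, zp_ze hO hω hP.tri hun, hg]
    congr 1
    refine Finset.sum_congr rfl fun k hk => ?_
    rw [Polynomial.mul_coeff_zero, zp_ze hO hω hP.tri (by
      have := (Finset.mem_Ico.1 hk).2
      omega)]
  have hid : nat g P x u - ((zh gam a (fun l => zp D i j P ω l) u).coeff 0 +
      ∑ k ∈ Ico 1 u, (sg gam a u k).coeff 0 * nat g P x k) =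
      δ u - ∑ k ∈ Ico 1 u, (sg gam a u k).coeff 0 * δ k := by
    rw [hzh, hδ]
    simp only [mul_sub, Finset.sum_sub_distrib]
    ring
  rw [hid]
  refine fin.trans ?_
  rw [← mul_div_assoc, ← pow_mul, ← pow_add]
  exact div_le_div_of_nonneg_right (pw hE (by
    have : B * (e₉ + 1) = B * e₉ + B := by ring
    omega)) pY.le

end Pool.TN98
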