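import Pool.Agent.H98.TIEN.Pol

/-!
# Own frames of every degree: two samples with the same label
-/

set_option autoImplicit false

namespace Pool.TN98

open Finset Polynomial

/-- Two own frames over one closed frame: `a`, `a'` the rows, `ν` the rows of the second frame over
the first one. -/
structure Two (n : ℕ) (gam : ℕ → ℝ) (W ε : ℝ) (a a' ν : ℕ → ℕ → ℝ[X]) : Prop where
  W1 : (n : ℝ) + 4 ≤ W
  ε0 : 0 ≤ ε
  ba : ∀ l ≤ n, ∀ k < l, pn (a l k) ≤ W
  ba' : ∀ l ≤ n, ∀ k < l, pn (a' l k) ≤ W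
  bν : ∀ l ≤ n, ∀ k < l, pn (ν l k) ≤ W
  rel : ∀ l ≤ n, ∀ k < l, pn (a' l k - (a l k + ν l k - ∑ m ∈ Ioo k l, ν l m * a m k)) ≤ ε
  top : ∀ l ≤ n, ∀ m, 1 ≤ m → m < l → pn (ν l m - tp gam ν l m) ≤ ε

variable {n : ℕ} {gam : ℕ → ℝ} {W ε : ℝ} {a a' ν : ℕ → ℕ → ℝ[X]}

theorem card_Ioo_le {k l n : ℕ} (hl : l ≤ n) : (Ioo k l).card ≤ n := by
  rw [Nat.card_Ioo]
  omega

theorem card_Ico_le {l n : ℕ} (hl : l ≤ n) : (Ico 1 l).card ≤ n := by
  rw [Nat.card_Ico]
  omega

/-- Powers absorb. -/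
theorem Wp {W : ℝ} (hW : 1 ≤ W) {b c : ℕ} (h : b ≤ c) : W ^ b ≤ W ^ c :=
  pow_le_pow_right₀ hW h

theorem Two.o1 (H : Two n gam W ε a a' ν) : 1 ≤ W := by
  have := H.W1
  have : (0 : ℝ) ≤ n := Nat.cast_nonneg n
  linarith

/-- **The parts of the rows.** -/
theorem Two.flt (H : Two n gam W ε a a' ν) (Q : ℝ → Prop) {l k : ℕ} (hl : l ≤ n) (hk1 : 1 ≤ k)
    (hk : k < l) : pn (flt (fun i => Q (gam k + i - gam l)) (a' l k) -
      (flt (fun i => Q (gam k + i - gam l)) (a l k) +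
        flt (fun i => Q (gam k + i - gam l)) (tp gam ν l k) -
        ∑ m ∈ Ioo k l, tp gam ν l m * flt (fun i => Q (gam k + i - gam m)) (a m k))) ≤
      W ^ 3 * ε := by
  have hW := H.o1
  have hW1 := H.W1
  have hn : (0 : ℝ) ≤ n := Nat.cast_nonneg n
  obtain ⟨e₀, he₀⟩ : ∃ e₀ : ℝ[X], e₀ = a' l k - (a l k + ν l k - ∑ m ∈ Ioo k l, ν l m * a m k) :=
    ⟨_, rfl⟩
  have h0 : pn e₀ ≤ ε := by rw [he₀]; exact H.rel l hl k hk
  have key : Pool.TN98.flt (fun i => Q (gam k + i - gam l)) (a' l k) -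
      (Pool.TN98.flt (fun i => Q (gam k + i - gam l)) (a l k) +
        Pool.TN98.flt (fun i => Q (gam k + i - gam l)) (tp gam ν l k) -
        ∑ m ∈ Ioo k l, tp gam ν l m * Pool.TN98.flt (fun i => Q (gam k + i - gam m)) (a m k)) =
      Pool.TN98.flt (fun i => Q (gam k + i - gam l)) (e₀ + (ν l k - tp gam ν l k) -
        ∑ m ∈ Ioo k l, (ν l m - tp gam ν l m) * a m k) := by
    have h1 : ∀ m, tp gam ν l m * Pool.TN98.flt (fun i => Q (gam k + i - gam m)) (a m k) =
        Pool.TN98.flt (fun i => Q (gam k + i - gam l)) (tp gam ν l m * a m k) := fun m =>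
      (top_mul gam ν Q l m k (a m k)).symm
    simp only [h1]
    rw [← flt_sum, ← flt_add, ← flt_sub, ← flt_sub]
    congr 1
    rw [he₀]
    simp only [sub_mul, Finset.sum_sub_distrib]
    ring
  rw [key]
  refine (pn_flt _ _).trans ?_
  have h2 : pn (∑ m ∈ Ioo k l, (ν l m - tp gam ν l m) * a m k) ≤ n * (ε * W) := by
    refine pn_sum_le (fun m hm => ?_) (card_Ioo_le hl) (mul_nonneg H.ε0 (by linarith))
    obtain ⟨m1, m2⟩ := mem_Ioo.1 hm
    exact pn_mul_le (H.top l hl m (by omega) m2) (H.ba m (by omega) k m1)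
  have h3 := pn_sub (e₀ + (ν l k - tp gam ν l k)) (∑ m ∈ Ioo k l, (ν l m - tp gam ν l m) * a m k)
  have h4 := pn_add e₀ (ν l k - tp gam ν l k)
  have h5 := H.top l hl k hk1 hk
  have h6 : ε + ε + n * (ε * W) ≤ W ^ 3 * ε := by
    have h7 : (2 + n * W) * ε ≤ W ^ 3 * ε := by
      refine mul_le_mul_of_nonneg_right ?_ H.ε0
      nlinarith [mul_nonneg hn (by linarith : (0 : ℝ) ≤ W), sq_nonneg W,
        mul_le_mul hW1 hW (by norm_num) (by linarith : (0 : ℝ) ≤ W)]
    nlinarith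
  linarith

/-- The low parts. -/
theorem Two.lo (H : Two n gam W ε a a' ν) {l k : ℕ} (hl : l ≤ n) (hk1 : 1 ≤ k) (hk : k < l) :
    pn (lo gam a' l k - (lo gam a l k - ∑ m ∈ Ioo k l, tp gam ν l m * lo gam a m k)) ≤
      W ^ 3 * ε := by
  have h := H.flt (fun x => x < 0) hl hk1 hk
  simp only [sub_neg] at h
  rw [lo_tp, add_zero] at h
  exact h

/-- The top parts. -/
theorem Two.tp (H : Two n gam W ε a a' ν) {l k : ℕ} (hl : l ≤ n) (hk1 : 1 ≤ k) (hk : k < l) :
    pn (tp gam a' l k - (tp gam a l k + tp gam ν l k -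
      ∑ m ∈ Ioo k l, tp gam ν l m * tp gam a m k)) ≤ W ^ 3 * ε := by
  have h := H.flt (fun x => x = 0) hl hk1 hk
  simp only [sub_eq_zero] at h
  rw [tp_tp] at h
  exact h

/-- **Bounds of the own frame.** -/
theorem sg_bd (n : ℕ) : ∃ c : ℕ, ∀ (gam : ℕ → ℝ) (W : ℝ) (a : ℕ → ℕ → ℝ[X]), (n : ℝ) + 4 ≤ W →
    (∀ l ≤ n, ∀ k < l, pn (a l k) ≤ W) → ∀ l ≤ n, ∀ k < l, pn (sg gam a l k) ≤ W ^ c := by
  have main : ∀ N ≤ n, ∃ c : ℕ, ∀ (gam : ℕ → ℝ) (W : ℝ) (a : ℕ → ℕ → ℝ[X]), (n : ℝ) + 4 ≤ W →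
      (∀ l ≤ n, ∀ k < l, pn (a l k) ≤ W) → ∀ l ≤ N, ∀ k < l, pn (sg gam a l k) ≤ W ^ c := by
    intro N
    induction N with
    | zero => exact fun _ => ⟨0, fun _ _ _ _ _ l hl k hk => absurd hk (by omega)⟩
    | succ N ih =>
      intro hN
      obtain ⟨c, hc⟩ := ih (by omega)
      refine ⟨c + 3, fun gam W a hW ha l hl k hk => ?_⟩
      have hn : (0 : ℝ) ≤ n := Nat.cast_nonneg n
      have W1 : 1 ≤ W := by linarith
      rcases Nat.lt_or_ge l (N + 1) with h | h
      · exact (hc gam W a hW ha l (by omega) k hk).trans (Wp W1 (by omega))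
      have hlN : l ≤ n := by omega
      rw [sg_eq]
      refine (pn_add _ _).trans ?_
      have h1 : pn (lo gam a l k) ≤ W := (pn_lo gam a l k).trans (ha l hlN k hk)
      have h2 : pn (∑ m ∈ Ioo k l, tp gam a l m * sg gam a m k) ≤ n * (W * W ^ c) := by
        refine pn_sum_le (fun m hm => ?_) (card_Ioo_le hlN) (by positivity)
        obtain ⟨m1, m2⟩ := mem_Ioo.1 hm
        exact pn_mul_le ((pn_tp gam a l m).trans (ha l hlN m m2))
          (hc gam W a hW ha m (by omega) k m1)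
      have h3 : W ≤ W * W ^ c * W := by
        have : 1 ≤ W ^ c := one_le_pow₀ W1
        have h4 : W * 1 ≤ W * W ^ c := mul_le_mul_of_nonneg_left this (by linarith)
        nlinarith [mul_nonneg (by linarith : (0 : ℝ) ≤ W) (by linarith : (0 : ℝ) ≤ W ^ c)]
      have h5 : n * (W * W ^ c) + W * W ^ c * W ≤ W ^ (c + 3) := by
        have h6 : (0 : ℝ) ≤ W * W ^ c := by positivity
        calc n * (W * W ^ c) + W * W ^ c * W = W * W ^ c * (n + W) := by ring
          _ ≤ W * W ^ c * (W * W) := by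
              refine mul_le_mul_of_nonneg_left ?_ h6
              nlinarith
          _ = W ^ (c + 3) := by ring
      linarith
  exact main n le_rfl

/-- **The own frames of two samples with the same label are close.** -/
theorem sg_stab (n : ℕ) : ∃ c : ℕ, ∀ (gam : ℕ → ℝ) (W ε : ℝ) (a a' ν : ℕ → ℕ → ℝ[X]),
    Two n gam W ε a a' ν → ∀ l ≤ n, ∀ k, 1 ≤ k → k < l →
      pn (sg gam a' l k - sg gam a l k) ≤ W ^ c * ε := by
  obtain ⟨b, hb⟩ := sg_bd n
  have main : ∀ N ≤ n, ∃ c : ℕ, ∀ (gam : ℕ → ℝ) (W ε : ℝ) (a a' ν : ℕ → ℕ → ℝ[X]),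
      Two n gam W ε a a' ν → ∀ l ≤ N, ∀ k, 1 ≤ k → k < l →
        pn (sg gam a' l k - sg gam a l k) ≤ W ^ c * ε := by
    intro N
    induction N with
    | zero => exact fun _ => ⟨0, fun _ _ _ _ _ _ _ l hl k _ hk => absurd hk (by omega)⟩
    | succ N ih =>
      intro hN
      obtain ⟨c, hc⟩ := ih (by omega)
      refine ⟨c + b + 7, fun gam W ε a a' ν H l hl k hk1 hk => ?_⟩
      have hn : (0 : ℝ) ≤ n := Nat.cast_nonneg n
      have W1 := H.o1
      have hW := H.W1
      have ε0 := H.ε0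
      rcases Nat.lt_or_ge l (N + 1) with h | h
      · exact (hc gam W ε a a' ν H l (by omega) k hk1 hk).trans
          (mul_le_mul_of_nonneg_right (Wp W1 (by omega)) ε0)
      have hlN : l ≤ n := by omega
      -- the identity
      have id1 : ∑ m ∈ Ioo k l, tp gam ν l m * sg gam a m k =
          ∑ m ∈ Ioo k l, tp gam ν l m * lo gam a m k +
          ∑ m ∈ Ioo k l, (∑ p ∈ Ioo m l, tp gam ν l p * tp gam a p m) * sg gam a m k := by
        simp only [Finset.sum_mul]
        rw [tri_sum k l fun p m => tp gam ν l p * tp gam a p m * sg gam a m k,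
          ← Finset.sum_add_distrib]
        refine Finset.sum_congr rfl fun m _ => ?_
        rw [sg_eq gam a m k, mul_add, Finset.mul_sum]
        congr 1
        refine Finset.sum_congr rfl fun p _ => ?_
        ring
      have id2 : sg gam a' l k - sg gam a l k =
          (lo gam a' l k - (lo gam a l k - ∑ m ∈ Ioo k l, tp gam ν l m * lo gam a m k)) +
          ∑ m ∈ Ioo k l, (tp gam a' l m - (tp gam a l m + tp gam ν l m -
            ∑ p ∈ Ioo m l, tp gam ν l p * tp gam a p m)) * sg gam a' m k +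
          ∑ m ∈ Ioo k l, (tp gam a l m + tp gam ν l m -
            ∑ p ∈ Ioo m l, tp gam ν l p * tp gam a p m) * (sg gam a' m k - sg gam a m k) := by
        rw [sg_eq gam a' l k, sg_eq gam a l k]
        simp only [sub_mul, mul_sub, add_mul, Finset.sum_add_distrib, Finset.sum_sub_distrib]
        rw [id1]
        ring
      rw [id2]
      have s1 := H.lo hlN hk1 hk
      have s2 : pn (∑ m ∈ Ioo k l, (tp gam a' l m - (tp gam a l m + tp gam ν l m -
            ∑ p ∈ Ioo m l, tp gam ν l p * tp gam a p m)) * sg gam a' m k) ≤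
          n * (W ^ 3 * ε * W ^ b) := by
        refine pn_sum_le (fun m hm => ?_) (card_Ioo_le hlN) (by positivity)
        obtain ⟨m1, m2⟩ := mem_Ioo.1 hm
        exact pn_mul_le (H.tp hlN (by omega) m2) (hb gam W a' hW H.ba' m (by omega) k m1)
      have s3 : ∀ m, 1 ≤ m → m < l → pn (tp gam a l m + tp gam ν l m -
            ∑ p ∈ Ioo m l, tp gam ν l p * tp gam a p m) ≤ W ^ 3 := by
        intro m m1 m2
        have t1 : pn (tp gam a l m) ≤ W := (pn_tp gam a l m).trans (H.ba l hlN m m2)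
        have t2 : pn (tp gam ν l m) ≤ W := (pn_tp gam ν l m).trans (H.bν l hlN m m2)
        have t3 : pn (∑ p ∈ Ioo m l, tp gam ν l p * tp gam a p m) ≤ n * (W * W) := by
          refine pn_sum_le (fun p hp => ?_) (card_Ioo_le hlN) (by positivity)
          obtain ⟨p1, p2⟩ := mem_Ioo.1 hp
          exact pn_mul_le ((pn_tp gam ν l p).trans (H.bν l hlN p p2))
            ((pn_tp gam a p m).trans (H.ba p (by omega) m p1))
        have t4 := pn_sub (tp gam a l m + tp gam ν l m)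
          (∑ p ∈ Ioo m l, tp gam ν l p * tp gam a p m)
        have t5 := pn_add (tp gam a l m) (tp gam ν l m)
        have t6 : W + W + n * (W * W) ≤ W ^ 3 := by
          have : W ^ 3 = W * W * W := by ring
          rw [this]
          nlinarith [mul_le_mul_of_nonneg_left hW (mul_nonneg (by linarith : (0 : ℝ) ≤ W)
            (by linarith : (0 : ℝ) ≤ W))]
        linarith
      have s4 : pn (∑ m ∈ Ioo k l, (tp gam a l m + tp gam ν l m -
            ∑ p ∈ Ioo m l, tp gam ν l p * tp gam a p m) * (sg gam a' m k - sg gam a m k)) ≤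
          n * (W ^ 3 * (W ^ c * ε)) := by
        refine pn_sum_le (fun m hm => ?_) (card_Ioo_le hlN) (by positivity)
        obtain ⟨m1, m2⟩ := mem_Ioo.1 hm
        exact pn_mul_le (s3 m (by omega) m2) (hc gam W ε a a' ν H m (by omega) k hk1 m1)
      refine (pn_add _ _).trans ((add_le_add ((pn_add _ _).trans (add_le_add s1 s2)) s4).trans ?_)
      have q1 : 1 ≤ W ^ b := one_le_pow₀ W1
      have q2 : 1 ≤ W ^ c := one_le_pow₀ W1
      have q3 : W ^ 3 * ε ≤ W ^ 3 * ε * (W ^ b * W ^ c) :=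
        le_mul_of_one_le_right (by positivity) (by nlinarith)
      have q4 : W ^ 3 * ε * W ^ b ≤ W ^ 3 * ε * (W ^ b * W ^ c) :=
        mul_le_mul_of_nonneg_left (le_mul_of_one_le_right (by positivity) q2) (by positivity)
      have q5 : W ^ 3 * (W ^ c * ε) ≤ W ^ 3 * ε * (W ^ b * W ^ c) := by
        have : W ^ 3 * (W ^ c * ε) = W ^ 3 * ε * (1 * W ^ c) := by ring
        rw [this]
        exact mul_le_mul_of_nonneg_left (mul_le_mul_of_nonneg_right q1 (by positivity))
          (by positivity)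
      calc W ^ 3 * ε + n * (W ^ 3 * ε * W ^ b) + n * (W ^ 3 * (W ^ c * ε))
          ≤ W ^ 3 * ε * (W ^ b * W ^ c) + n * (W ^ 3 * ε * (W ^ b * W ^ c)) +
            n * (W ^ 3 * ε * (W ^ b * W ^ c)) := by
            have r1 := mul_le_mul_of_nonneg_left q4 hn
            have r2 := mul_le_mul_of_nonneg_left q5 hn
            linarith
        _ = (1 + n + n) * (W ^ 3 * ε * (W ^ b * W ^ c)) := by ring
        _ ≤ W ^ 4 * (W ^ 3 * ε * (W ^ b * W ^ c)) := by
            refine mul_le_mul_of_nonneg_right ?_ (by positivity)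
            have e1 : (1 : ℝ) + n + n ≤ W ^ 2 := by nlinarith
            exact e1.trans (Wp W1 (by omega))
        _ = W ^ (c + b + 7) * ε := by ring
  exact main n le_rfl

end Pool.TN98
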