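import Pool.Agent.H98.TIEN.Shn

/-!
# Own frames of every degree: the theorem
-/

set_option autoImplicit false

namespace Pool.TN98

open Finset Real MvPolynomial
open Pool.Agent.H49.Ent Pool.Agent.H32.Dense Pool.STK Pool.STAT Pool.MIC.Frm Pool.MIC7 Pool.FRM
open Pool.P4O (Sy Cls Lv pw pw1 lev_le exp_pow cls_coef sy_fz sheet)
open Pool.P4 (FrP PthC pp GoodS bb)
open Pool.P5L (OwF near_cls c_up lv_zero vf_cell sg_cell lv_p)
open Pool.TNL (zp zp_eval zp_deg)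

/-- The height of coordinate `l` over the frame `F`: a polynomial in the time
`2 ^ (g 0) (t - X ω 0)`. -/
noncomputable def zf (D : NDat2) (i j : ℕ) (P : ℕ → PN) (F : ℕ → ℕ → Polynomial ℝ) (ω : D.Ω)
    (l : ℕ) : Polynomial ℝ :=
  zp D i j P ω l - ∑ k ∈ Ico 1 l, F l k * zp D i j P ω k

/-- The sheet of `ω` at `R = (i - ρ, j + r)`, over the coordinates with the slopes `< θ`. -/
def ShG (D : NDat2) (n z i j r ρ y : ℕ) (gam : ℕ → ℝ) (θ C : ℝ) (P : ℕ → PN)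
    (F : ℕ → ℕ → Polynomial ℝ) (ω : D.Ω) : Prop :=
  ∀ Bx : ℝ, 1 ≤ Bx → ∀ x : ℕ → ℝ, x 0 = D.X ω 0 →
    (∀ k, 1 ≤ k → k ≤ n → gam k < θ → |nat (D.g i j) P x k| ≤ exp (Bx * z)) →
    (∀ u, 1 ≤ u → u ≤ n → θ ≤ gam u → x u = eval x (D.Ψ (i - ρ) (j + r) ω u)) →
    ∀ u, 1 ≤ u → u ≤ n → θ ≤ gam u → |nat (D.g i j) P x u -
      ((zf D i j P F ω u).coeff 0 + ∑ k ∈ Ico 1 u, (F u k).coeff 0 * nat (D.g i j) P x k)| ≤
        exp (C * Bx * z) / 2 ^ (y * z)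

/-- The frame, restricted to the indices which count. -/
noncomputable def Fo (n : ℕ) (gam : ℕ → ℝ) (a : ℕ → ℕ → Polynomial ℝ) (l k : ℕ) :
    Polynomial ℝ := open Classical in
  if 1 ≤ k ∧ k < l ∧ l ≤ n then sg gam a l k else 0

theorem Fo_eq {n : ℕ} {gam : ℕ → ℝ} {a : ℕ → ℕ → Polynomial ℝ} {l k : ℕ} (h1 : 1 ≤ k)
    (h2 : k < l) (h3 : l ≤ n) : Fo n gam a l k = sg gam a l k := if_pos ⟨h1, h2, h3⟩

theorem Fo_zero {n : ℕ} {gam : ℕ → ℝ} {a : ℕ → ℕ → Polynomial ℝ} {l k : ℕ}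
    (h : ¬ (1 ≤ k ∧ k < l ∧ l ≤ n)) : Fo n gam a l k = 0 := if_neg h

theorem zf_Fo {D : NDat2} {n i j : ℕ} {gam : ℕ → ℝ} {P : ℕ → PN} {a : ℕ → ℕ → Polynomial ℝ}
    {ω : D.Ω} {l : ℕ} (hl : l ≤ n) :
    zf D i j P (Fo n gam a) ω l = zh gam a (fun k => zp D i j P ω k) l := by
  unfold zf zh
  congr 1
  refine Finset.sum_congr rfl fun k hk => ?_
  obtain ⟨h1, h2⟩ := Finset.mem_Ico.1 hk
  rw [Fo_eq h1 h2 hl]

open Classical in
/-- **Own frames of every degree.** -/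
theorem own_gen (n K K' : ℕ) (C₁ C : ℝ) (hC₁ : 1 ≤ C₁) (hC : 0 ≤ C) :
    ∃ (C' : ℝ) (z₀ : ℕ), 1 ≤ C' ∧
    ∀ (lam gam : ℕ → ℝ) (J a₀ w₀ z M i j y r : ℕ) (D : NDat2) (q : D.Ω → ℝ) (κ : ℝ),
      (∀ l, 1 ≤ l → l ≤ n → lam l = 1) → z₀ ≤ z → PlO n gam y r M i j →
      D.Ok2 n K J a₀ w₀ z M lam gam κ C₁ q → ∀ (P : D.Γ × D.Γ → ℕ → PN) (E : D.Ω → Prop),
      (∀ ω, E ω → 0 < q ω ∧ GoodS D n K' w₀ z M C ω ∧
        FrP D n K' z i j r C (P (bb D i j r ω)) ω) →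
      ∃ F : D.Ω → ℕ → ℕ → Polynomial ℝ,
      (∀ ω l k m, (F ω l k).coeff m ≠ 0 → 1 ≤ k ∧ k < l ∧ l ≤ n ∧ gam k + m < gam l) ∧
      (∀ ω l k, pn (F ω l k) ≤ exp (C' * z)) ∧
      (∀ ω, E ω → ∀ l, 1 ≤ l → l ≤ n →
        pn (zp D i j (P (bb D i j r ω)) ω l) ≤ exp (C' * z) ∧
        pn (zf D i j (P (bb D i j r ω)) (F ω) ω l) ≤ exp (C' * z) ∧
        ∀ m : ℕ, |(zp D i j (P (bb D i j r ω)) ω l).coeff m| ≤
            exp (C' * z) * ((2 : ℝ) ^ (r * z)) ^ (gam l - m) ∧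
          |(zf D i j (P (bb D i j r ω)) (F ω) ω l).coeff m| ≤
            exp (C' * z) * ((2 : ℝ) ^ (r * z)) ^ (gam l - m)) ∧
      (∀ ω, E ω → ∀ ρ ≤ i, ∀ θ : ℝ, (∀ k, 1 ≤ k → k ≤ n → gam k < θ → gam k * r ≤ ρ) →
        (∀ u, 1 ≤ u → u ≤ n → θ ≤ gam u → ρ + y ≤ gam u * r) →
        ShG D n z i j r ρ y gam θ C' (P (bb D i j r ω)) (F ω) ω) ∧
      ∀ ω ω', E ω → E ω' → bb D i j r ω = bb D i j r ω' → D.T ω = D.T ω' → ∀ ρ ≤ i,
        (D.c (i - ρ) (j + r) ω = D.c (i - ρ) (j + r) ω' →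
          (∀ l k, pn (F ω' l k - F ω l k) ≤ exp (C' * z) / 2 ^ (y * z)) ∧
          ∀ l, 1 ≤ l → l ≤ n → ∀ m : ℕ, |(zf D i j (P (bb D i j r ω)) (F ω) ω l -
            zf D i j (P (bb D i j r ω)) (F ω') ω' l).coeff m| ≤
              exp (C' * z) * ((2 : ℝ) ^ ((ρ + (m - gam l) * r) * z) + 1 / 2 ^ (y * z))) ∧
        (D.s (i - ρ) (j + r) ω = D.s (i - ρ) (j + r) ω' →
          (∀ l k, |(F ω' l k).coeff 0 - (F ω l k).coeff 0| ≤ exp (C' * z) / 2 ^ (y * z)) ∧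
          ∀ l, 1 ≤ l → l ≤ n → |(zf D i j (P (bb D i j r ω)) (F ω) ω l).coeff 0 -
            (zf D i j (P (bb D i j r ω)) (F ω') ω' l).coeff 0| ≤
              exp (C' * z) * ((2 : ℝ) ^ ((ρ - gam l * r) * z) + 1 / 2 ^ (y * z))) := by
  obtain ⟨b₁, c₁, h1⟩ := own_two n K K' C₁ C hC₁
  obtain ⟨b₂, c₂, h2⟩ := own_pt n K K' C₁ C hC₁
  obtain ⟨b₃, c₃, h3⟩ := own_sheet n K K' C₁ C hC₁ hC
  obtain ⟨b₄, c₄, h4⟩ := zp_pn n K K' C
  obtain ⟨b₅, c₅, h5⟩ := zp_long n K K' C₁ C hC₁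
  obtain ⟨b₆, c₆, h6⟩ := cl_pv n K K' C
  obtain ⟨b₇, c₇, h7⟩ := rwp_pn n K' b₆ (dN n K')
  obtain ⟨b₈, h8⟩ := sg_bd n
  obtain ⟨z₀, hz₀⟩ := exists_nat_ge (max (max (max c₁ c₂) (max c₃ c₄)) (max (max c₅ c₆)
    (max c₇ (n + 4))))
  obtain ⟨B₁, hB₁⟩ : ∃ B₁ : ℕ, B₁ = b₄ + b₅ + (b₇ + 1) * b₈ := ⟨_, rfl⟩
  obtain ⟨B, hB⟩ : ∃ B : ℕ, B = b₁ + b₂ + b₃ + 2 * B₁ + 2 := ⟨_, rfl⟩
  refine ⟨B, z₀, by exact_mod_cast (show 1 ≤ B by omega), ?_⟩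
  intro lam gam J a₀ w₀ z M i j y r D q κ hlam hz hpl hO P E hE
  have hEz : max (max (max c₁ c₂) (max c₃ c₄)) (max (max c₅ c₆) (max c₇ (n + 4))) ≤
      exp (z : ℝ) := by
    refine hz₀.trans ?_
    have h1 : (z₀ : ℝ) ≤ z := by exact_mod_cast hz
    have := Real.add_one_le_exp (z : ℝ)
    linarith
  obtain ⟨hq1, hq2⟩ := max_le_iff.1 hEz
  obtain ⟨hq3, hq4⟩ := max_le_iff.1 hq1
  obtain ⟨hk1, hk2⟩ := max_le_iff.1 hq3
  obtain ⟨hk3, hk4⟩ := max_le_iff.1 hq4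
  obtain ⟨hq5, hq6⟩ := max_le_iff.1 hq2
  obtain ⟨hk5, hk6⟩ := max_le_iff.1 hq5
  obtain ⟨hk7, hkn⟩ := max_le_iff.1 hq6
  have hn : (0 : ℝ) ≤ n := Nat.cast_nonneg n
  have hz0 : (0 : ℝ) ≤ z := Nat.cast_nonneg z
  have hE₀ : 1 ≤ exp (z : ℝ) := Real.one_le_exp hz0
  have i1 := hpl.yi
  have y1 := hpl.y1
  have i2 := hpl.i2
  have j1 := hpl.j1
  have j2 := hpl.j2
  have pY : (0 : ℝ) < 2 ^ (y * z) := by positivity
  have mB : ∀ {e : ℕ}, e ≤ B → exp (z : ℝ) ^ e ≤ exp (B * z) := by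
    intro e he
    rw [← Real.exp_nat_mul]
    refine Real.exp_le_exp.2 (mul_le_mul_of_nonneg_right ?_ hz0)
    exact_mod_cast he
  -- the own frames
  have hfv : ∀ ω, E ω → ∃ V : ℕ → PN, OwF D n K' M z C ω V := fun ω hω => by
    obtain ⟨V, v1, v2, v3, v4⟩ := (hE ω hω).2.1.fc
    exact ⟨V, v1, v2, v3, v4⟩
  choose! V hV using hfv
  obtain ⟨F, hF⟩ : ∃ F : D.Ω → ℕ → ℕ → Polynomial ℝ, F = fun ω => if E ω then
    Fo n gam (arw n K' (D.g i j) (D.X ω 0) (P (bb D i j r ω)) (V ω)) else fun _ _ => 0 :=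
    ⟨_, rfl⟩
  have hFE : ∀ ω, E ω → F ω =
      Fo n gam (arw n K' (D.g i j) (D.X ω 0) (P (bb D i j r ω)) (V ω)) := fun ω hω => by
    rw [hF]
    simp only
    rw [if_pos hω]
  have hFN : ∀ ω, ¬ E ω → ∀ l k, F ω l k = 0 := fun ω hω l k => by
    rw [hF]
    simp only
    rw [if_neg hω]
  have bs : ∀ ω, E ω → ∀ l ≤ n, ∀ k < l,
      pn (sg gam (arw n K' (D.g i j) (D.X ω 0) (P (bb D i j r ω)) (V ω)) l k) ≤
        exp z ^ B₁ := by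
    intro ω hω l hl k hk
    have hPω := (hE ω hω).2.2
    have hVω := hV ω hω
    have hcl := h6 lam gam C₁ J a₀ w₀ z M i j r D q κ (P (bb D i j r ω)) (V ω) ω hk6 i2
      (by omega) hO hVω hPω
    have := h8 gam (exp z ^ (b₇ + 1)) _ (hkn.trans (le_self_pow₀ hE₀ (by omega)))
      (fun l hl k hk => (h7 (exp z) (D.X ω 0) (D.g i j) _ _ hE₀ hk7
        (st_atT hPω.tri hPω.deg _) (st_atT hVω.tri hVω.deg _) (hcl i le_rfl).1 l (by omega) hl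
        k).trans (pw hE₀ (by omega))) l hl k hk
    refine this.trans ?_
    rw [← pow_mul]
    exact pw hE₀ (by omega)
  refine ⟨F, fun ω l k m h => ?_, fun ω l k => ?_, fun ω hω l l1 ln => ?_,
    fun ω hω ρ hρ θ hs hf => ?_, fun ω ω' hω hω' hbb hT ρ hρ => ?_⟩
  · by_cases hω : E ω
    · rw [hFE ω hω] at h
      by_cases h1 : 1 ≤ k ∧ k < l ∧ l ≤ n
      · rw [Fo_eq h1.1 h1.2.1 h1.2.2] at h
        exact ⟨h1.1, h1.2.1, h1.2.2, sg_lt _ _ _ _ _ h⟩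
      · rw [Fo_zero h1, Polynomial.coeff_zero] at h
        exact absurd rfl h
    · rw [hFN ω hω, Polynomial.coeff_zero] at h
      exact absurd rfl h
  · by_cases hω : E ω
    · rw [hFE ω hω]
      by_cases h1 : 1 ≤ k ∧ k < l ∧ l ≤ n
      · rw [Fo_eq h1.1 h1.2.1 h1.2.2]
        exact (bs ω hω l h1.2.2 k h1.2.1).trans (mB (by omega))
      · rw [Fo_zero h1, pn_zero]
        positivity
    · rw [hFN ω hω, pn_zero]
      positivity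
  · obtain ⟨hqω, hGω, hPω⟩ := hE ω hω
    have g1 := h4 lam gam C₁ J a₀ w₀ z M i j D q κ (P (bb D i j r ω)) ω hk4 (by omega) (by omega)
      hO hPω.tri hPω.deg hGω.pc (fun l hl => (hPω.near i le_rfl l hl).1)
    have g2 := h5 lam gam J a₀ w₀ z M i j r D q κ (P (bb D i j r ω)) ω hlam hk5 (by omega) i2 j1
      (by omega) hO hPω hGω.pc
    have hR : (1 : ℝ) ≤ 2 ^ (r * z) := one_le_pow₀ (by norm_num)
    have fin : exp (z : ℝ) ^ B₁ + n * (exp z ^ B₁ * exp z ^ B₁) ≤ exp (B * z) := by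
      have p1 := pw1 hE₀ B₁
      calc exp (z : ℝ) ^ B₁ + n * (exp z ^ B₁ * exp z ^ B₁)
          ≤ (1 + n) * (exp z ^ B₁ * exp z ^ B₁) := by nlinarith
        _ ≤ exp z * (exp z ^ B₁ * exp z ^ B₁) :=
            mul_le_mul_of_nonneg_right (by linarith) (by positivity)
        _ = exp z ^ (1 + (B₁ + B₁)) := by rw [pow_add, pow_add, pow_one]
        _ ≤ _ := mB (by omega)
    rw [hFE ω hω, zf_Fo ln]
    refine ⟨(g1 l ln).trans (mB (by omega)), ?_, fun m => ⟨?_, ?_⟩⟩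
    · unfold zh
      refine (pn_sub _ _).trans ((add_le_add ((g1 l ln).trans (pw hE₀ (by omega)))
        (pn_sum_le (fun k hk => ?_) (card_Ico_le ln) (by positivity))).trans fin)
      obtain ⟨h9, h10⟩ := Finset.mem_Ico.1 hk
      exact pn_mul_le (bs ω hω l ln k h10) ((g1 k (by omega)).trans (pw hE₀ (by omega)))
    · exact (g2 l l1 ln m).trans (mul_le_mul_of_nonneg_right (mB (by omega)) (by positivity))
    · refine (zh_long (by positivity) hR ln l1 (fun k k1 k2 => bs ω hω l ln k k2)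
        (fun k k1 k2 m => (g2 k k1 k2 m).trans (mul_le_mul_of_nonneg_right
          (pw hE₀ (show b₅ ≤ B₁ by omega)) (by positivity))) m).trans ?_
      exact mul_le_mul_of_nonneg_right fin (by positivity)
  · obtain ⟨hqω, hGω, hPω⟩ := hE ω hω
    intro Bx hBx x hx0 hxs hxf u hu1 hun hθu
    have key := h3 lam gam J a₀ w₀ z M i j y r ρ D q κ θ (P (bb D i j r ω)) (V ω) ω hlam hk3 hpl
      hρ hO hqω (hV ω hω) hGω.pc hPω hs hf Bx hBx x hx0 hxs hxf u hu1 hun hθu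
    rw [hFE ω hω, zf_Fo hun]
    have e1 : ∑ k ∈ Ico 1 u, (Fo n gam (arw n K' (D.g i j) (D.X ω 0) (P (bb D i j r ω)) (V ω))
        u k).coeff 0 * nat (D.g i j) (P (bb D i j r ω)) x k =
        ∑ k ∈ Ico 1 u, (sg gam (arw n K' (D.g i j) (D.X ω 0) (P (bb D i j r ω)) (V ω))
        u k).coeff 0 * nat (D.g i j) (P (bb D i j r ω)) x k := by
      refine Finset.sum_congr rfl fun k hk => ?_
      obtain ⟨k1, k2⟩ := Finset.mem_Ico.1 hk
      rw [Fo_eq k1 k2 hun]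
    rw [e1]
    refine key.trans (div_le_div_of_nonneg_right ?_ pY.le)
    rw [← Real.exp_nat_mul]
    refine Real.exp_le_exp.2 ?_
    have : (b₃ : ℝ) ≤ B := by exact_mod_cast (show b₃ ≤ B by omega)
    calc (b₃ : ℝ) * (Bx * z) ≤ B * (Bx * z) := mul_le_mul_of_nonneg_right this (by positivity)
      _ = _ := by ring
  · obtain ⟨hqω, hGω, hPω⟩ := hE ω hω
    obtain ⟨hqω', hGω', hPω'⟩ := hE ω' hω'
    have hc1 : D.c i j ω = D.c i j ω' := congrArg Prod.fst hbb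
    have hc2 : D.c (i - 1) (j - r) ω = D.c (i - 1) (j - r) ω' := congrArg Prod.snd hbb
    rw [← hbb] at hPω'
    constructor
    · intro hc
      obtain ⟨e1, e2⟩ := h1 lam gam J a₀ w₀ z M i j y r ρ D q κ (P (bb D i j r ω)) (V ω) (V ω') ω
        ω' hlam hk1 hpl hρ hO hqω hqω' (hV ω hω) (hV ω' hω') hGω.pc hGω'.pc hPω hPω' hT hc1 hc2 hc
      constructor
      · intro l k
        rw [hFE ω hω, hFE ω' hω', ← hbb]
        by_cases h9 : 1 ≤ k ∧ k < l ∧ l ≤ n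
        · rw [Fo_eq h9.1 h9.2.1 h9.2.2, Fo_eq h9.1 h9.2.1 h9.2.2]
          exact (e1 l h9.2.2 k h9.1 h9.2.1).trans
            (div_le_div_of_nonneg_right (mB (by omega)) pY.le)
        · rw [Fo_zero h9, Fo_zero h9, sub_zero, pn_zero]
          positivity
      · intro l l1 ln m
        rw [hFE ω hω, hFE ω' hω', ← hbb, zf_Fo ln, zf_Fo ln]
        exact (e2 l ln l1 m).trans (mul_le_mul_of_nonneg_right (mB (by omega)) (by positivity))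
    · intro hs
      obtain ⟨e1, e2⟩ := h2 lam gam J a₀ w₀ z M i j y r ρ D q κ (P (bb D i j r ω)) (V ω) (V ω') ω
        ω' hlam hk2 hpl hρ hO hqω hqω' (hV ω hω) (hV ω' hω') hGω.pc hGω'.pc hPω hPω' hT hc1 hc2 hs
      constructor
      · intro l k
        rw [hFE ω hω, hFE ω' hω', ← hbb]
        by_cases h9 : 1 ≤ k ∧ k < l ∧ l ≤ n
        · rw [Fo_eq h9.1 h9.2.1 h9.2.2, Fo_eq h9.1 h9.2.1 h9.2.2]
          exact (e1 l h9.2.2 k h9.1 h9.2.1).trans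
            (div_le_div_of_nonneg_right (mB (by omega)) pY.le)
        · rw [Fo_zero h9, Fo_zero h9, Polynomial.coeff_zero, sub_zero, abs_zero]
          positivity
      · intro l l1 ln
        rw [hFE ω hω, hFE ω' hω', ← hbb, zf_Fo ln, zf_Fo ln]
        exact (e2 l ln l1).trans (mul_le_mul_of_nonneg_right (mB (by omega)) (by positivity))

end Pool.TN98
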