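import Pool.Agent.H98.TIEN.Own

/-!
# Own frames of every degree: two lines with the same label
-/

set_option autoImplicit false

namespace Pool.TN98

open Finset Real MvPolynomial
open Pool.Agent.H49.Ent Pool.Agent.H32.Dense Pool.STK Pool.STAT Pool.MIC.Frm Pool.MIC7 Pool.FRM
open Pool.P4O (Sy Cls Lv pw pw1 lev_le exp_pow)
open Pool.P4 (FrP PthC pp GoodS)
open Pool.P5L (OwF near_cls c_up lv_zero)
open Pool.TNL (zp zp_eval zp_deg)

/-- The rows of two lines with the same label at the right place. -/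
theorem two_rows (n K K' : ℕ) (C₁ C : ℝ) (hC₁ : 1 ≤ C₁) : ∃ (b : ℕ) (c₀ : ℝ), ∀ B, b ≤ B →
    ∀ (lam gam : ℕ → ℝ) (J a₀ w₀ z M i j y r ρ : ℕ) (D : NDat2) (q : D.Ω → ℝ) (κ : ℝ)
      (P V V' : ℕ → PN) (ω ω' : D.Ω), (∀ l, 1 ≤ l → l ≤ n → lam l = 1) → c₀ ≤ exp (z : ℝ) →
      PlO n gam y r M i j → ρ ≤ i → D.Ok2 n K J a₀ w₀ z M lam gam κ C₁ q → 0 < q ω → 0 < q ω' →
      OwF D n K' M z C ω V → OwF D n K' M z C ω' V' → FrP D n K' z i j r C P ω →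
      FrP D n K' z i j r C P ω' → D.T ω = D.T ω' → D.c i j ω = D.c i j ω' →
      D.c (i - 1) (j - r) ω = D.c (i - 1) (j - r) ω' →
      D.c (i - ρ) (j + r) ω = D.c (i - ρ) (j + r) ω' →
      Two n gam (exp z ^ B) (exp z ^ B / 2 ^ (y * z)) (arw n K' (D.g i j) (D.X ω 0) P V)
        (arw n K' (D.g i j) (D.X ω' 0) P V') (arw n K' (D.g i j) (D.X ω 0) V V') ∧
      ∀ l ≤ n, 1 ≤ l → Ob ((2 : ℝ) ^ ((ρ - gam l * r) * z)) (2 ^ (r * z))
        (exp z ^ B / 2 ^ (y * z)) (exp z ^ B) (arw n K' (D.g i j) (D.X ω 0) V V' l 0) := by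
  obtain ⟨a₁, c₁, h1⟩ := cl_pv n K K' C
  obtain ⟨a₂, c₂, h2⟩ := cl_vv n K K' C
  obtain ⟨c4, hc4⟩ := exists_nat_ge (4 * C₁)
  obtain ⟨a₀', h0'⟩ : ∃ a₀' : ℕ, a₀' = a₁ + a₂ + c4 := ⟨_, rfl⟩
  obtain ⟨a₃, c₃, h3⟩ := rwp_pn n K' a₀' (dN n K')
  obtain ⟨a₄, c₄, h4⟩ := rows_rel n K' a₀' (dN n K')
  obtain ⟨a₅, c₅, h5⟩ := row_top n K' a₀' (dN n K') C₁ hC₁
  refine ⟨a₃ + a₄ + a₅ + 1, max (max (max c₁ c₂) (max c₃ c₄)) (max c₅ (n + 4)), ?_⟩
  intro B hB lam gam J a₀ w₀ z M i j y r ρ D q κ P V V' ω ω' hlam hc₀ hpl hρ hO hω hω' hV hV' hP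
    hP' hT hc1 hc2 hc3
  obtain ⟨hA, hB'⟩ := max_le_iff.1 hc₀
  obtain ⟨hA1, hA2⟩ := max_le_iff.1 hA
  obtain ⟨hk1, hk2⟩ := max_le_iff.1 hA1
  obtain ⟨hk3, hk4⟩ := max_le_iff.1 hA2
  obtain ⟨hk5, hkn⟩ := max_le_iff.1 hB'
  have hE : 1 ≤ exp (z : ℝ) := Real.one_le_exp (Nat.cast_nonneg z)
  have i1 := hpl.yi
  have y1 := hpl.y1
  have i2 := hpl.i2
  have j1 := hpl.j1
  have j2 := hpl.j2
  have pY : (0 : ℝ) < 2 ^ (y * z) := by positivity
  have hX : D.X ω' 0 = D.X ω 0 := by rw [hO.X_zero, hO.X_zero, hT]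
  have cP := h1 lam gam C₁ J a₀ w₀ z M i j r D q κ P V ω hk1 i2 (by omega) hO hV hP
  have cP' := h1 lam gam C₁ J a₀ w₀ z M i j r D q κ P V' ω' hk1 i2 (by omega) hO hV' hP'
  rw [hX] at cP' ⊢
  have h0j : D.c 0 j ω = D.c 0 j ω' :=
    c_up hO (i := 0) (s := i) (by omega) (by omega) hω hω' (by rwa [Nat.zero_add])
  have vv := fun i' j' hi' hj' => h2 lam gam C₁ J a₀ w₀ z M i' j' D q κ V V' ω ω' hk2 hi' hj' hO
    hV hV' hT
  obtain ⟨T, hT'⟩ : ∃ T : ℝ, T = D.X ω 0 := ⟨_, rfl⟩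
  rw [← hT'] at cP cP' vv ⊢
  have sP : St K' T (atT T P) := st_atT hP.tri hP.deg T
  have sV : St K' T (atT T V) := st_atT hV.tri hV.deg T
  have sV' : St K' T (atT T V') := st_atT hV'.tri hV'.deg T
  have hL : Lv n (D.g i j) (D.g 0 j) (2 ^ (i * z)) (exp z ^ c4) :=
    lv_zero (by linarith) hc4 hlam hO (by omega) (by omega)
  have m1 : exp (z : ℝ) ^ a₁ ≤ exp z ^ a₀' := pw hE (by omega)
  have m2 : exp (z : ℝ) ^ a₂ ≤ exp z ^ a₀' := pw hE (by omega)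
  have pv := (cP i le_rfl).1.mono m1
  have pv0 := (cP 0 (Nat.zero_le _)).1.mono m1
  have pv' := (cP' i le_rfl).1.mono m1
  have pv0' := (cP' 0 (Nat.zero_le _)).1.mono m1
  have v1 := (vv i j i2 (by omega) hc1).mono m2
  have v2 := (vv 0 j (by omega) (by omega) h0j).mono m2
  have v3 := (vv (i - 1) (j - r) (by omega) (by omega) hc2).mono m2
  have v4 := (vv (i - ρ) (j + r) (by omega) (by omega) hc3).mono m2
  have hyi : (2 : ℝ) ^ (y * z) ≤ 2 ^ (i * z) :=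
    pow_le_pow_right₀ (by norm_num) (Nat.mul_le_mul_right z i1)
  have hB3 : exp (z : ℝ) ^ a₃ ≤ exp z ^ B := pw hE (by omega)
  have hB5 : exp (z : ℝ) ^ a₅ ≤ exp z ^ B := pw hE (by omega)
  obtain ⟨t1, t2⟩ := h5 lam gam K J a₀ w₀ z M i j y r ρ D q κ T (atT T V) (atT T V') hlam hk5 hpl
    hρ hO sV sV' v3 v4
  refine ⟨⟨?_, by positivity, fun l hl k hk => ?_, fun l hl k hk => ?_, fun l hl k hk => ?_,
    fun l hl k hk => ?_, fun l hl m hm1 hm => ?_⟩, fun l hl hl1 m => ?_⟩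
  · exact hkn.trans (le_self_pow₀ hE (by omega))
  · exact (h3 (exp z) T (D.g i j) _ _ hE hk3 sP sV pv l (by omega) hl k).trans hB3
  · exact (h3 (exp z) T (D.g i j) _ _ hE hk3 sP sV' pv' l (by omega) hl k).trans hB3
  · exact (h3 (exp z) T (D.g i j) _ _ hE hk3 sV sV' v1 l (by omega) hl k).trans hB3
  · refine (h4 (exp z) T (2 ^ (i * z)) (D.g i j) (D.g 0 j) (atT T P) (atT T V) (atT T V') hE hk4
      (one_le_pow₀ (by norm_num)) sP sV sV' pv pv0 pv' pv0' v1 v2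
      (hL.mono (by positivity) (pw hE (by omega))) (by rw [hO.g_zero, hO.g_zero]) le_rfl l hl k
      hk).trans ?_
    exact div_le_div₀ (by positivity) (pw hE (by omega)) pY hyi
  · exact (t1 l hl m hm1 hm).trans (div_le_div_of_nonneg_right hB5 pY.le)
  · refine (t2 l hl hl1 m).trans ?_
    refine mul_le_mul hB5 ?_ (by positivity) (by positivity)
    have : 0 ≤ exp (z : ℝ) ^ B / 2 ^ (y * z) := by positivity
    linarith

/-- **Two lines with the same label at the right place.** -/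
theorem own_two (n K K' : ℕ) (C₁ C : ℝ) (hC₁ : 1 ≤ C₁) : ∃ (b : ℕ) (c₀ : ℝ),
    ∀ (lam gam : ℕ → ℝ) (J a₀ w₀ z M i j y r ρ : ℕ) (D : NDat2) (q : D.Ω → ℝ) (κ : ℝ)
      (P V V' : ℕ → PN) (ω ω' : D.Ω), (∀ l, 1 ≤ l → l ≤ n → lam l = 1) → c₀ ≤ exp (z : ℝ) →
      PlO n gam y r M i j → ρ ≤ i → D.Ok2 n K J a₀ w₀ z M lam gam κ C₁ q → 0 < q ω → 0 < q ω' →
      OwF D n K' M z C ω V → OwF D n K' M z C ω' V' → PthC D n w₀ z M 1 ω →
      PthC D n w₀ z M 1 ω' → FrP D n K' z i j r C P ω →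
      FrP D n K' z i j r C P ω' → D.T ω = D.T ω' → D.c i j ω = D.c i j ω' →
      D.c (i - 1) (j - r) ω = D.c (i - 1) (j - r) ω' →
      D.c (i - ρ) (j + r) ω = D.c (i - ρ) (j + r) ω' →
      (∀ l ≤ n, ∀ k, 1 ≤ k → k < l → pn (sg gam (arw n K' (D.g i j) (D.X ω' 0) P V') l k -
        sg gam (arw n K' (D.g i j) (D.X ω 0) P V) l k) ≤ exp z ^ b / 2 ^ (y * z)) ∧
      ∀ l ≤ n, 1 ≤ l → ∀ m, |(zh gam (arw n K' (D.g i j) (D.X ω 0) P V)
          (fun l => zp D i j P ω l) l - zh gam (arw n K' (D.g i j) (D.X ω' 0) P V')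
          (fun l => zp D i j P ω' l) l).coeff m| ≤
        exp z ^ b * ((2 : ℝ) ^ ((ρ + (m - gam l) * r) * z) + 1 / 2 ^ (y * z)) := by
  obtain ⟨b₁, c₁, h1⟩ := two_rows n K K' C₁ C hC₁
  obtain ⟨a₂, c₂, h2⟩ := yl_own n K K' C₁ C hC₁
  obtain ⟨a₃, c₃, h3⟩ := zp_pn n K K' C
  obtain ⟨a₄, c₄, h4⟩ := zp_own n K K' C₁ C hC₁
  obtain ⟨e₅, h5⟩ := sg_stab n
  obtain ⟨e₆, h6⟩ := zh_stab n
  obtain ⟨B, hB⟩ : ∃ B : ℕ, B = b₁ + a₂ + a₃ + a₄ := ⟨_, rfl⟩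
  refine ⟨B * (e₅ + e₆ + 1), max (max c₁ c₂) (max c₃ c₄), ?_⟩
  intro lam gam J a₀ w₀ z M i j y r ρ D q κ P V V' ω ω' hlam hc₀ hpl hρ hO hω hω' hV hV' hp hp'
    hP hP' hT hc1 hc2 hc3
  obtain ⟨hA1, hA2⟩ := max_le_iff.1 hc₀
  obtain ⟨hk1, hk2⟩ := max_le_iff.1 hA1
  obtain ⟨hk3, hk4⟩ := max_le_iff.1 hA2
  have hE : 1 ≤ exp (z : ℝ) := Real.one_le_exp (Nat.cast_nonneg z)
  have i1 := hpl.yi
  have y1 := hpl.y1
  have i2 := hpl.i2
  have j1 := hpl.j1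
  have j2 := hpl.j2
  have pY : (0 : ℝ) < 2 ^ (y * z) := by positivity
  obtain ⟨H, hν⟩ := h1 B (by omega) lam gam J a₀ w₀ z M i j y r ρ D q κ P V V' ω ω' hlam hk1 hpl
    hρ hO hω hω' hV hV' hP hP' hT hc1 hc2 hc3
  obtain ⟨W, hW⟩ : ∃ W : ℝ, W = exp (z : ℝ) ^ B := ⟨_, rfl⟩
  have W1 : 1 ≤ W := by rw [hW]; exact pw1 hE B
  rw [← hW] at H hν
  have eW : ∀ e ≤ e₅ + e₆, W ^ e * (W / 2 ^ (y * z)) ≤
      exp z ^ (B * (e₅ + e₆ + 1)) / 2 ^ (y * z) := fun e he => by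
    rw [← mul_div_assoc, ← pow_succ, hW, ← pow_mul]
    exact div_le_div_of_nonneg_right (pw hE (Nat.mul_le_mul_left _ (by omega))) pY.le
  constructor
  · intro l hl k hk1' hk
    exact (h5 gam W (W / 2 ^ (y * z)) _ _ _ H l hl k hk1' hk).trans (eW e₅ (by omega))
  · intro l hl hl1 m
    have bz := fun l hl => (h3 lam gam C₁ J a₀ w₀ z M i j D q κ P ω hk3 (by omega) (by omega) hO
      hP.tri hP.deg hp (fun l hl => (hP.near i le_rfl l hl).1) l hl).trans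
        (show exp (z : ℝ) ^ a₃ ≤ W by rw [hW]; exact pw hE (by omega))
    have bz' := fun l hl => (h3 lam gam C₁ J a₀ w₀ z M i j D q κ P ω' hk3 (by omega) (by omega)
      hO hP'.tri hP'.deg hp' (fun l hl => (hP'.near i le_rfl l hl).1) l hl).trans
        (show exp (z : ℝ) ^ a₃ ≤ W by rw [hW]; exact pw hE (by omega))
    have oy : ∀ (V : ℕ → PN) (ω : D.Ω), OwF D n K' M z C ω V → PthC D n w₀ z M 1 ω →
        FrP D n K' z i j r C P ω → ∀ l ≤ n, 1 ≤ l →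
        Ob ((2 : ℝ) ^ ((ρ - gam l * r) * z)) (2 ^ (r * z)) (W / 2 ^ (y * z)) W
          (yl gam (arw n K' (D.g i j) (D.X ω 0) P V) (fun l => zp D i j P ω l) l) := by
      intro V ω hV hp hP l hl hl1 m
      have e1 := (coeff_le_pn _ m).trans
        (h2 lam gam J a₀ w₀ z M i j y r D q κ P V ω hlam hk2 hpl hO hV hP hp l hl1 hl)
      have e2 := h4 lam gam J a₀ w₀ z M i j r ρ D q κ V ω hlam hk4 i2 j2 hρ hO hV hp l hl1 hl m
      rw [Polynomial.coeff_sub] at e1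
      obtain ⟨x, hx⟩ : ∃ x : ℝ, x = (yl gam (arw n K' (D.g i j) (D.X ω 0) P V)
        (fun l => zp D i j P ω l) l).coeff m := ⟨_, rfl⟩
      obtain ⟨x', hx'⟩ : ∃ x' : ℝ, x' = (zp D i j V ω l).coeff m := ⟨_, rfl⟩
      rw [← hx, ← hx'] at e1
      rw [← hx'] at e2
      rw [← hx]
      have e3 : |x| ≤ |x'| + |x - x'| := by
        have : x = x' + (x - x') := by ring
        calc |x| = |x' + (x - x')| := by rw [← this]
          _ ≤ _ := abs_add_le _ _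
      have e4 : exp (z : ℝ) ^ a₄ ≤ W := by rw [hW]; exact pw hE (by omega)
      have e5 : exp (z : ℝ) ^ a₂ ≤ W := by rw [hW]; exact pw hE (by omega)
      have e6 : exp (z : ℝ) ^ a₂ / 2 ^ (y * z) ≤ W * (W / 2 ^ (y * z)) := by
        rw [← mul_div_assoc]
        refine div_le_div_of_nonneg_right (e5.trans ?_) pY.le
        exact le_mul_of_one_le_left (by linarith) W1
      have e7 := mul_le_mul_of_nonneg_right e4
        (show 0 ≤ (2 : ℝ) ^ ((ρ - gam l * r) * z) * (2 ^ (r * z)) ^ m by positivity)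
      rw [mul_add]
      linarith
    have key := h6 gam W (W / 2 ^ (y * z)) (2 ^ (r * z))
      (fun l => (2 : ℝ) ^ ((ρ - gam l * r) * z)) _ _ _ (fun l => zp D i j P ω l)
      (fun l => zp D i j P ω' l) H (by positivity) (fun l => by positivity)
      (fun l hl k hk1 hk d hd => by
        refine (le_of_eq ?_).trans (le_mul_of_one_le_left (by positivity) W1)
        rw [← pow_mul, ← Real.rpow_natCast, ← Real.rpow_add (by norm_num), ← hd]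
        congr 1
        push_cast
        ring) bz bz' (oy V ω hV hp hP) (oy V' ω' hV' hp' hP') hν l hl hl1 m
    refine key.trans ?_
    have e8 : (2 : ℝ) ^ ((ρ - gam l * r) * z) * (2 ^ (r * z)) ^ m =
        (2 : ℝ) ^ ((ρ + (m - gam l) * r) * z) := by
      rw [← pow_mul, ← Real.rpow_natCast, ← Real.rpow_add (by norm_num)]
      congr 1
      push_cast
      ring
    rw [e8, mul_add, mul_add]
    refine add_le_add (mul_le_mul_of_nonneg_right ?_ (by positivity)) ?_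
    · rw [hW, ← pow_mul]
      exact pw hE (Nat.mul_le_mul_left _ (by omega))
    · rw [← mul_div_assoc _ (1 : ℝ), mul_one]
      exact eW e₆ (by omega)

end Pool.TN98
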